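import Mathlib
import Pool.Agent.Lib.P0c8ca5Z.Pr2
import Pool.Agent.Lib.P0c8ca5F.Red3

/-!
# Almost quasi-simple groups: shared definitions

* `Itw N ρ x X`: `X` intertwines the representation `ρ` of `N` with its conjugate by `x`:
  `X (ρ g v) = ρ (x g x⁻¹) (X v)`.
* `Omg N ρ x y s`: `[y, x] = y x y⁻¹ x⁻¹ ∈ N` and `Y X = s ρ([y, x]) X Y` for some intertwiners `X`, `Y` of `x`, `y`.
* `om N ρ x y`: this scalar `s` (it is unique if `ρ` is irreducible), `0` if there is none; `omX N f c x y` for a class
  `c` of irreducible representations of `N` in the idempotent `f`.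
* `Fam p L N D`: `D` is an `L`-invariant finite set of nontrivial p-subgroups of `N` with a closure operator: all
  nontrivial p-subgroups, or the nontrivial subgroups of product type.
* `Bl p H D f`, `Bw p H D f`: the alternating sums over the chains of members of `D` of
  `|stab H σ| * card (IrX (stab H σ) (cS (sup σ) f))` and `Fr.Ws p (stab H σ) (cS (sup σ) f)`.
* `dl p M D f x y`: the value of the pair `(x, y)`; for `M` normal in `Y`, `f` a `Y`-invariant idempotent of `kM`,
  `|M| * Bl p Y D f` is the sum of `dl p M D f x y` over the pairs `(x, y) ∈ prs M Y` with `x` p-regular modulo `M`.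
* `Small p A H'`: `H'` is a central extension by a p'-group of a section of `A / Z(A)`, and `|H' / Z(H')| < |A / Z(A)|`.
* `BelowC p k A`: the blockwise weight conjecture holds for these groups.
* `BelowS p k A`: it holds for the blocks of the proper subgroups of `A` that contain the centre.
-/

set_option autoImplicit false

namespace Pool.Agent.Lib.P0c8ca5.Gg

open MonoidAlgebra Ps Bq Zz

universe u v

variable {p : ℕ} {k : Type*} [Field k] {A : Type*} [Group A]

/-- `X` intertwines `ρ` with its conjugate by `x` -/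
def Itw (N : Subgroup A) {V : Type*} [AddCommGroup V] [Module k V] (ρ : Representation k N V)
    (x : A) (X : V ≃ₗ[k] V) : Prop :=
  ∀ g g' : N, (g' : A) = x * g * x⁻¹ → ∀ v, X (ρ g v) = ρ g' (X v)

/-- `Y X = s ρ([y, x]) X Y` for some intertwiners `X`, `Y` of `x`, `y` -/
def Omg (N : Subgroup A) {V : Type*} [AddCommGroup V] [Module k V] (ρ : Representation k N V)
    (x y : A) (s : k) : Prop :=
  ∃ (X Y : V ≃ₗ[k] V) (z : N), Itw N ρ x X ∧ Itw N ρ y Y ∧ (z : A) = y * x * y⁻¹ * x⁻¹ ∧
    ∀ v, Y (X v) = s • ρ z (X (Y v))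

open Classical in
/-- the symbol of `x` and `y` -/
noncomputable def om (N : Subgroup A) {V : Type*} [AddCommGroup V] [Module k V]
    (ρ : Representation k N V) (x y : A) : k :=
  if h : ∃ s : k, Omg N ρ x y s then h.choose else 0

/-- the symbol for a class of irreducible representations -/
noncomputable def omX (N : Subgroup A) (f : MonoidAlgebra k A) (c : IrX N f) (x y : A) : k :=
  om N (Quotient.out c).ρ x y

/-- an invariant finite set of nontrivial p-subgroups of `N` with a closure operator -/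
structure Fam (p : ℕ) (L N : Subgroup A) (D : Finset (Subgroup A)) : Prop where
  le : ∀ Q ∈ D, Q ≤ N
  pgrp : ∀ Q ∈ D, IsPGroup p Q
  ne : ∀ Q ∈ D, Q ≠ ⊥
  conj : ∀ g ∈ L, ∀ Q ∈ D, cg g Q ∈ D
  sup : ∀ Q ∈ D, ∀ R ∈ D, R ≤ Subgroup.normalizer (Q : Set A) → Q ⊔ R ∈ D
  plus : ∃ c : Subgroup A → Subgroup A, ∀ R : Subgroup A, R ≤ N → IsPGroup p R → R ≠ ⊥ →
    c R ∈ D ∧ R ≤ c R ∧ (∀ g ∈ L, c (cg g R) = cg g (c R)) ∧
    ∀ Q ∈ D, R ≤ Subgroup.normalizer (Q : Set A) → c R ≤ Subgroup.normalizer (Q : Set A)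

/-- the alternating sum of the numbers of irreducible representations -/
noncomputable def Bl [Fintype A] (H : Subgroup A) (D : Finset (Subgroup A))
    (f : MonoidAlgebra k A) : ℤ :=
  ∑ σ ∈ Ch D, (-1) ^ σ.card *
    ((Nat.card ↥(stab H σ) * Nat.card (IrX (stab H σ) (cS (σ.sup id) f)) : ℕ) : ℤ)

/-- the alternating sum of the numbers of weights -/
noncomputable def Bw (p : ℕ) [Fintype A] (H : Subgroup A) (D : Finset (Subgroup A))
    (f : MonoidAlgebra k A) : ℤ :=
  ∑ σ ∈ Ch D, (-1) ^ σ.card * (Fr.Ws p (stab H σ) (cS (σ.sup id) f) : ℤ)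

open Classical in
/-- the value of the pair `(x, y)` -/
noncomputable def dl (p : ℕ) [Fact p.Prime] [Fintype A] (M : Subgroup A) (D : Finset (Subgroup A))
    (f : MonoidAlgebra k A) (x y : A) : WittVector p k :=
  ∑ σ ∈ (Ch D).filter (fun σ => x ∈ stab ⊤ σ ∧ y ∈ stab ⊤ σ),
    ((-1) ^ σ.card * ((stab M σ).relIndex M : ℤ)) •
      ∑ᶠ c : IrX (stab M σ) (cS (σ.sup id) f),
        WittVector.teichmuller p (omX (stab M σ) (cS (σ.sup id) f) c x y)

/-- `H'` is a central extension by a p'-group of a section of `A / Z(A)`, and `|H' / Z(H')| < |A / Z(A)|` -/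
def Small (p : ℕ) (A : Type*) [Group A] (H' : Type u) [Group H'] : Prop :=
  Fg.CSec p H' (A ⧸ Subgroup.center A) ∧
    (Subgroup.center H').index < (Subgroup.center A).index

/-- the blockwise weight conjecture for the smaller central extensions of sections -/
def BelowC (p : ℕ) (k : Type v) [Field k] (A : Type u) [Group A] : Prop :=
  ∀ (H' : Type u) [Group H'] [Finite H'], Small p A H' → ∀ b : MonoidAlgebra k H',
    IsBlock ⊤ b → NavarroEq p ⊤ ⊤ b

/-- the blockwise weight conjecture for the proper subgroups that contain the centre -/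
def BelowS (p : ℕ) (k : Type v) [Field k] (A : Type u) [Group A] : Prop :=
  ∀ Y : Subgroup A, Subgroup.center A ≤ Y → Y ≠ ⊤ → ∀ b : MonoidAlgebra k A,
    IsBlock Y b → NavarroEq p Y Y b

end Pool.Agent.Lib.P0c8ca5.Gg
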