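import Mathlib
import Pool.Agent.Lib.P0c8ca5G.Defs

/-!
# Module FamAll: the family of all nontrivial p-subgroups; smaller groups

PROOF of `famAll_fam`.  The closure operator is the identity; `sup`: `Q ⊔ R` is a p-group if `R ≤ N(Q)`
(`isPGroup_sup` in P0c8ca5S.Wgt or `IsPGroup.to_sup_of_normal_left'`), `Q ⊔ R ≤ N`, and it is not trivial.  `conj`: `cg g Q ≤ N` as
`g` normalizes `N`; `cg` is `Subgroup.map` of `MulAut.conj`.
PROOF of `BelowC.sub`.  `Y` itself is `Small`: `Y → Y / Z(A) ≤ A / Z(A)` is a central extension by the p'-group `Z(A)` (`hZ`) of a subgroup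
of `A / Z(A)`; `(center ↥Y).index < (center A).index`: `(center A).subgroupOf Y ≤ center ↥Y`
(`Fg.CsAux.subgroupOf_center_le`), so the index of `center ↥Y` is at most the index of `(center A).subgroupOf Y`, which times
`|center A|` is `|Y| < |A|` (`center A ≤ Y`).  Then `navarro_transport` (P0c8ca5N.TrC) and `dn_isBlock`.
PROOF of `BelowC.weq`.  `Cy.weq_of_blocks` and `BelowC.sub`.
PROOF of `BelowC.mono`.  `Small p B H'` implies `Small p A H'`: `H'` is a central extension by a p'-group of a section of `B / Z(B)`, and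
`B / Z(B)` is a quotient of the quotient `L` of `B` given by `Fg.CSec p B (A / Z(A))` (its kernel is central), and `L` is a section of
`A / Z(A)`; so `IsSection (B / Z(B)) (A / Z(A))` (`IsSection.trans`, `IsSection.of_surjective`), and `CSec` passes along.
-/

set_option autoImplicit false

namespace Pool.Agent.Lib.P0c8ca5.Gg

open MonoidAlgebra Ps Bq Zz

universe u v

variable {p : ℕ} {A : Type*} [Group A]

open Classical in
/-- the nontrivial p-subgroups of `N` -/
noncomputable def famAll (p : ℕ) [Fintype A] (N : Subgroup A) : Finset (Subgroup A) :=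
  Finset.univ.filter (fun Q => Q ≤ N ∧ IsPGroup p Q ∧ Q ≠ ⊥)

theorem mem_famAll [Fintype A] {N Q : Subgroup A} :
    Q ∈ famAll p N ↔ Q ≤ N ∧ IsPGroup p Q ∧ Q ≠ ⊥ := by
  classical
  rw [famAll, Finset.mem_filter]
  exact ⟨fun h => h.2, fun h => ⟨Finset.mem_univ _, h⟩⟩

namespace FamAllAux

theorem isPGroup_sup [Fact p.Prime] {Q R : Subgroup A} (hRQ : R ≤ Subgroup.normalizer (Q : Set A))
    (hQ : IsPGroup p Q) (hpR : IsPGroup p R) : IsPGroup p (Q ⊔ R : Subgroup A) := by
  intro x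
  obtain ⟨n, hn⟩ := pquot_sup hRQ hpR x x.2
  obtain ⟨m, hm⟩ := hQ ⟨(x : A) ^ p ^ n, hn⟩
  refine ⟨n + m, Subtype.ext ?_⟩
  have h2 : ((x : A) ^ p ^ n) ^ p ^ m = 1 := congrArg Subtype.val hm
  change (x : A) ^ p ^ (n + m) = 1
  rw [pow_add, pow_mul, h2]

end FamAllAux

theorem famAll_fam [Fact p.Prime] [Fintype A] {L N : Subgroup A}
    (hn : L ≤ Subgroup.normalizer (N : Set A)) : Fam p L N (famAll p N) := by
  classical
  refine ⟨?_, ?_, ?_, ?_, ?_, ?_⟩
  · intro Q hQ
    exact (mem_famAll.1 hQ).1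
  · intro Q hQ
    exact (mem_famAll.1 hQ).2.1
  · intro Q hQ
    exact (mem_famAll.1 hQ).2.2
  · intro g hg Q hQ
    obtain ⟨h1, h2, h3⟩ := mem_famAll.1 hQ
    rw [mem_famAll]
    refine ⟨?_, isPGroup_cg h2, ?_⟩
    · have h4 := cg_le_cg (g := g) h1
      rwa [cg_eq_self_iff.2 (hn hg)] at h4
    · intro h4
      apply h3
      rw [eq_bot_iff]
      intro x hx
      have h5 : g * x * g⁻¹ ∈ cg g Q := by
        rw [mem_cg]
        have e : g⁻¹ * (g * x * g⁻¹) * g = x := by group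
        rw [e]
        exact hx
      rw [h4, Subgroup.mem_bot] at h5
      rw [Subgroup.mem_bot]
      have e : x = g⁻¹ * (g * x * g⁻¹) * g := by group
      rw [e, h5]
      group
  · intro Q hQ R hR hRQ
    obtain ⟨h1, h2, h3⟩ := mem_famAll.1 hQ
    obtain ⟨h4, h5, h6⟩ := mem_famAll.1 hR
    rw [mem_famAll]
    refine ⟨sup_le h1 h4, FamAllAux.isPGroup_sup hRQ h2 h5, ?_⟩
    intro h7
    apply h3
    rw [eq_bot_iff, ← h7]
    exact le_sup_left
  · refine ⟨id, fun R hR hRp hR1 => ⟨mem_famAll.2 ⟨hR, hRp, hR1⟩, le_refl _, fun g _ => rfl, ?_⟩⟩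
    intro Q _ h
    exact h

theorem BelowC.sub {k : Type v} [Field k] [Fact p.Prime] [CharP k p] [IsAlgClosed k]
    {A : Type u} [Group A] [Finite A] (hZ : ¬ p ∣ Nat.card (Subgroup.center A))
    (h : BelowC p k A) : BelowS p k A := by
  intro Y hY hY1 b hb
  have hA : Fg.CSec p A (A ⧸ Subgroup.center A) := by
    refine ⟨A ⧸ Subgroup.center A, inferInstance, QuotientGroup.mk' _,
      QuotientGroup.mk'_surjective _, ?_, ?_, IsSection.refl _⟩
    · rw [QuotientGroup.ker_mk']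
    · rw [QuotientGroup.ker_mk']
      exact hZ
  apply navarro_transport hb
  refine h ↥Y ⟨Fg.CSec.of_section (IsSection.of_subgroup Y) hA, ?_⟩ _ (dn_isBlock hb)
  have h1 : (Subgroup.center ↥Y).index ≤ (Subgroup.center A).relIndex Y := by
    apply Nat.le_of_dvd
    · exact Nat.pos_of_ne_zero (Subgroup.index_ne_zero_of_finite (H := (Subgroup.center A).subgroupOf Y))
    · exact Subgroup.index_dvd_of_le (Fg.CsAux.subgroupOf_center_le Y)
  refine lt_of_le_of_lt h1 ?_
  rw [← Subgroup.relIndex_mul_index hY]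
  have h2 : Y.index ≠ 1 := fun h0 => hY1 (Subgroup.index_eq_one.1 h0)
  have h3 : Y.index ≠ 0 := Subgroup.index_ne_zero_of_finite
  have h4 : (Subgroup.center A).relIndex Y ≠ 0 :=
    Subgroup.index_ne_zero_of_finite (H := (Subgroup.center A).subgroupOf Y)
  have h5 : 0 < (Subgroup.center A).relIndex Y := Nat.pos_of_ne_zero h4
  have h6 : 2 ≤ Y.index := by omega
  nlinarith

theorem BelowC.weq {k : Type v} [Field k] [Fact p.Prime] [CharP k p] [IsAlgClosed k]
    {A : Type u} [Group A] [Fintype A] (hZ : ¬ p ∣ Nat.card (Subgroup.center A))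
    (h : BelowC p k A) {Y : Subgroup A}
    (hY : Subgroup.center A ≤ Y) (hY1 : Y ≠ ⊤) {c : MonoidAlgebra k A}
    (hc : c ∈ fixAlg k Y Y) (hcc : c * c = c) : Cy.WEq p Y c := by
  obtain ⟨hs, hi⟩ := mem_fixAlg.1 hc
  refine Cy.weq_of_blocks hs hi hcc (fun b hb _ => ?_)
  exact h.sub hZ Y hY hY1 b hb

theorem BelowC.mono {k : Type v} [Field k] [Fact p.Prime] [CharP k p] [IsAlgClosed k]
    {A B : Type u} [Group A] [Finite A] [Group B] [Finite B] (h : BelowC p k A)
    (hB : Fg.CSec p B (A ⧸ Subgroup.center A)) (hi : (Subgroup.center B).index ≤ (Subgroup.center A).index) :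
    BelowC p k B := by
  intro H' _ _ hs b hb
  refine h H' ⟨?_, lt_of_lt_of_le hs.2 hi⟩ b hb
  obtain ⟨L, _, π, hπ, hπZ, hπp, hLG⟩ := hB
  obtain ⟨L', _, π', hπ', hπZ', hπp', hLG'⟩ := hs.1
  refine ⟨L', inferInstance, π', hπ', hπZ', hπp', hLG'.trans (IsSection.trans ?_ hLG)⟩
  obtain ⟨φ, hφ⟩ := Fg.CsAux.exists_lift π hπ (QuotientGroup.mk' (Subgroup.center B)) (by
    rw [QuotientGroup.ker_mk']
    exact hπZ)
  refine IsSection.of_surjective φ ?_
  intro y
  obtain ⟨z, rfl⟩ := QuotientGroup.mk'_surjective _ y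
  exact ⟨π z, hφ z⟩

end Pool.Agent.Lib.P0c8ca5.Gg
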