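import Mathlib
import Pool.Agent.Lib.P0c8ca5G.FamAll
import Pool.Agent.Lib.P0c8ca5F.CPr

/-!
# The weight conjecture for the smaller groups and the blocks with controlled defect groups

* `Ov p P P'`: `H'` is a central extension by a p'-group of the image of a subgroup `J` of `A / Z(A)`, and the image of `P'` is contained in
  the image of `J ⊓ P Z(A) / Z(A)`.
* `Under p b b'`: all p-subgroups `P'` with `Br_P'(b') ≠ 0` are over p-subgroups `P` with `Br_P(b) ≠ 0`.
* `BelowP p k A b`: the blockwise weight conjecture holds for the blocks under `b` of the groups with smaller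
  centre quotient.
-/

set_option autoImplicit false

namespace Pool.Agent.Lib.P0c8ca5.Gg

open MonoidAlgebra Ps Bq Zz

universe u v w

/-- `P'` is over `P` -/
def Ov (p : ℕ) {A : Type w} [Group A] (P : Subgroup A) {H' : Type u} [Group H']
    (P' : Subgroup H') : Prop :=
  Fg.CPair p P' (P.map (QuotientGroup.mk' (Subgroup.center A)))

/-- `b'` is under `b` -/
def Under (p : ℕ) {k : Type v} [Field k] {A : Type w} [Group A] (b : MonoidAlgebra k A)
    {H' : Type u} [Group H'] (b' : MonoidAlgebra k H') : Prop :=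
  ∀ P' : Subgroup H', IsPGroup p P' → HasBr P' b' →
    ∃ P : Subgroup A, IsPGroup p P ∧ HasBr P b ∧ Ov p P P'

/-- the blockwise weight conjecture for the smaller groups and the blocks under `b` -/
def BelowP (p : ℕ) (k : Type v) [Field k] (A : Type u) [Group A] (b : MonoidAlgebra k A) : Prop :=
  ∀ (H' : Type u) [Group H'] [Finite H'], (Subgroup.center H').index < (Subgroup.center A).index →
    ∀ b' : MonoidAlgebra k H', IsBlock ⊤ b' → Under p b b' → NavarroEq p ⊤ ⊤ b'

variable {p : ℕ} {k : Type v} [Field k] {A : Type u} [Group A]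

theorem hasBr_bot {b : MonoidAlgebra k A} (hb : b ≠ 0) : HasBr (⊥ : Subgroup A) b := by
  by_contra hcon
  apply hb
  ext x
  by_contra hx
  apply hcon
  refine ⟨x, ?_, hx⟩
  rw [Subgroup.mem_centralizer_iff]
  intro y hy
  have h1 : y = 1 := hy
  rw [h1, one_mul, mul_one]

theorem BelowC.belowP [Fact p.Prime] (h : BelowC p k A) (b : MonoidAlgebra k A) :
    BelowP p k A b := by
  intro H' _ _ hi b' hb' hU
  obtain ⟨P, _, _, h1⟩ := hU ⊥ IsPGroup.of_bot (hasBr_bot hb'.ne_zero)
  exact h H' ⟨h1.cSec, hi⟩ b' hb'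

/-- a subgroup that contains the centre -/
theorem ov_of_subgroup [Fact p.Prime] [Finite A] (hZ : ¬ p ∣ Nat.card (Subgroup.center A))
    {Y : Subgroup A} (P : Subgroup ↥Y) : Ov p (P.map Y.subtype) P := by
  let π : ↥Y →* ↥(Y.map (QuotientGroup.mk' (Subgroup.center A))) :=
    (QuotientGroup.mk' (Subgroup.center A)).subgroupMap Y
  have hk : ∀ x : ↥Y, x ∈ π.ker ↔ (x : A) ∈ Subgroup.center A := by
    intro x
    rw [MonoidHom.mem_ker, ← QuotientGroup.eq_one_iff]
    constructor
    · intro h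
      exact congrArg Subtype.val h
    · intro h
      exact Subtype.ext h
  refine ⟨_, inferInstance, π, MonoidHom.subgroupMap_surjective _ Y, ?_, ?_, ?_⟩
  · intro x hx
    rw [hk] at hx
    rw [Subgroup.mem_center_iff]
    intro y
    exact Subtype.ext (Subgroup.mem_center_iff.1 hx y)
  · intro hd
    apply hZ
    refine hd.trans ?_
    have h1 : (π.ker).map Y.subtype ≤ Subgroup.center A := by
      rintro _ ⟨x, hx, rfl⟩
      exact (hk x).1 hx
    have h2 : Nat.card ↥((π.ker).map Y.subtype) = Nat.card π.ker :=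
      (Nat.card_congr ((π.ker).equivMapOfInjective _ Y.subtype_injective).toEquiv).symm
    rw [← h2]
    exact Subgroup.card_dvd_of_le h1
  · refine ⟨Y.map (QuotientGroup.mk' (Subgroup.center A)), MonoidHom.id _,
      Function.surjective_id, ?_⟩
    rintro _ ⟨x, hx, rfl⟩
    refine ⟨π x, ?_, rfl⟩
    rw [SetLike.mem_coe, Subgroup.mem_subgroupOf]
    exact ⟨(x : A), ⟨x, hx, rfl⟩, rfl⟩

theorem index_center_lt [Finite A] {Y : Subgroup A} (hY : Subgroup.center A ≤ Y) (hY1 : Y ≠ ⊤) :
    (Subgroup.center ↥Y).index < (Subgroup.center A).index := by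
  have h1 := Subgroup.relIndex_mul_index hY
  have h2 : (Subgroup.center Y).index ≤ (Subgroup.center A).relIndex Y :=
    Nat.le_of_dvd (Nat.pos_of_ne_zero (Subgroup.index_ne_zero_of_finite))
      (Subgroup.index_dvd_of_le (Fg.CsAux.subgroupOf_center_le Y))
  refine lt_of_le_of_lt h2 ?_
  rw [← h1]
  have h3 : 0 < (Subgroup.center A).relIndex Y :=
    Nat.pos_of_ne_zero (Subgroup.index_ne_zero_of_finite)
  have h4 : Y.index ≠ 1 := fun h5 => hY1 (Subgroup.index_eq_one.1 h5)
  have h5 : 0 < Y.index := Nat.pos_of_ne_zero Subgroup.index_ne_zero_of_finite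
  have h6 : 1 < Y.index := by omega
  exact lt_mul_of_one_lt_right h3 h6

/-- the weight equality for the proper subgroups -/
theorem BelowP.weq [Fact p.Prime] [CharP k p] [IsAlgClosed k] [Fintype A]
    (hZ : ¬ p ∣ Nat.card (Subgroup.center A)) {b : MonoidAlgebra k A} (h : BelowP p k A b)
    {Y : Subgroup A} (hY : Subgroup.center A ≤ Y) (hY1 : Y ≠ ⊤) {c : MonoidAlgebra k A}
    (hc : c ∈ fixAlg k Y Y) (hcc : c * c = c)
    (hbr : ∀ P : Subgroup A, P ≤ Y → IsPGroup p P → HasBr P c → HasBr P b) : Cy.WEq p Y c := by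
  obtain ⟨hs, hi⟩ := mem_fixAlg.1 hc
  refine Cy.weq_of_blocks hs hi hcc (fun f hf hfc => ?_)
  apply navarro_transport hf
  refine h ↥Y (index_center_lt hY hY1) _ (dn_isBlock hf) ?_
  intro P' hP' hbr'
  have hPY : P'.map Y.subtype ≤ Y := by
    rintro _ ⟨y, _, rfl⟩
    exact y.2
  have hcomm : c * f = f * c := commute_of hs hf.invBy
  have hmul : f * c = f := by
    rcases hf.mul_eq hc hcc with h | h
    · rw [hcomm] at h; exact absurd h hfc
    · rw [← hcomm]; exact h
  refine ⟨P'.map Y.subtype, hP'.map _, hbr _ hPY (hP'.map _) ?_, ov_of_subgroup hZ P'⟩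
  exact hasBr_of_mul (hP'.map _) (hf.invBy.mono hPY) (hi.mono hPY) hmul
    (RedAux.hasBr_up' hbr')

/-- the Brauer subgroups of a product -/
theorem hasBr_cS {S P : Subgroup A} {f : MonoidAlgebra k A} (h : HasBr P (cS S f)) :
    HasBr P f := by
  obtain ⟨x, hx, hfx⟩ := h
  refine ⟨x, hx, ?_⟩
  intro h0
  apply hfx
  by_cases hxS : x ∈ (Subgroup.centralizer (S : Set A) : Set A)
  · rw [cS, coeff_resS_of_mem _ hxS, h0]
  · rw [cS, coeff_resS_of_notMem _ hxS]

/-- a subgroup of a central extension of a subgroup of `A / N` -/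
theorem ov_of_quot {N : Subgroup A} [N.Normal] (hZ : Subgroup.center A ≤ N)
    {A' : Type u} [Group A'] {ψ : A' →* A ⧸ N} (hψ : ψ.ker ≤ Subgroup.center A')
    (hp : ¬ p ∣ Nat.card ψ.ker) {Y : Subgroup A'} {P' : Subgroup ↥Y} {P : Subgroup A}
    (h : (P'.map Y.subtype).map ψ ≤ P.map (QuotientGroup.mk' N)) : Ov p P P' := by
  have hk : ∀ x : ↥Y, x ∈ (ψ.subgroupMap Y).ker ↔ (x : A') ∈ ψ.ker := by
    intro x
    rw [MonoidHom.mem_ker, MonoidHom.mem_ker]
    constructor
    · intro h
      exact congrArg Subtype.val h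
    · intro h
      exact Subtype.ext h
  refine ⟨↥(Y.map ψ), inferInstance, ψ.subgroupMap Y, MonoidHom.subgroupMap_surjective _ Y,
    ?_, ?_, ?_⟩
  · intro x hx
    have h1 := hψ ((hk x).1 hx)
    rw [Subgroup.mem_center_iff]
    intro y
    exact Subtype.ext (Subgroup.mem_center_iff.1 h1 y)
  · intro hd
    apply hp
    refine hd.trans ?_
    have h1 : ((ψ.subgroupMap Y).ker).map Y.subtype ≤ ψ.ker := by
      rintro _ ⟨x, hx, rfl⟩
      exact (hk x).1 hx
    have h2 : Nat.card ↥(((ψ.subgroupMap Y).ker).map Y.subtype)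
        = Nat.card (ψ.subgroupMap Y).ker :=
      (Nat.card_congr (((ψ.subgroupMap Y).ker).equivMapOfInjective _
        Y.subtype_injective).toEquiv).symm
    rw [← h2]
    exact Subgroup.card_dvd_of_le h1
  · obtain ⟨q, hq⟩ := Fg.CsAux.exists_lift (QuotientGroup.mk' (Subgroup.center A))
      (QuotientGroup.mk'_surjective _) (QuotientGroup.mk' N) (by
        rw [QuotientGroup.ker_mk', QuotientGroup.ker_mk']
        exact hZ)
    have hqs : Function.Surjective q := by
      intro y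
      obtain ⟨x, rfl⟩ := QuotientGroup.mk'_surjective N y
      exact ⟨_, hq x⟩
    refine ⟨(Y.map ψ).comap q, q.subgroupComap (Y.map ψ),
      MonoidHom.subgroupComap_surjective_of_surjective q _ hqs, ?_⟩
    rintro _ ⟨y, hy, rfl⟩
    obtain ⟨x, hx, hxy⟩ := h ⟨(y : A'), ⟨y, hy, rfl⟩, rfl⟩
    refine ⟨⟨QuotientGroup.mk' (Subgroup.center A) x, ?_⟩, ?_, ?_⟩
    · rw [Subgroup.mem_comap, hq, hxy]
      exact ⟨(y : A'), y.2, rfl⟩
    · exact Subgroup.mem_subgroupOf.2 ⟨x, hx, rfl⟩
    · apply Subtype.ext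
      change q (QuotientGroup.mk' (Subgroup.center A) x) = ψ (y : A')
      rw [hq, hxy]

/-- the Brauer subgroups of a restriction -/
theorem hasBr_resS {T : Set A} {P : Subgroup A} {f : MonoidAlgebra k A}
    (h : HasBr P (resS T f)) : HasBr P f := by
  obtain ⟨x, hx, hfx⟩ := h
  refine ⟨x, hx, ?_⟩
  intro h0
  apply hfx
  by_cases hxS : x ∈ T
  · rw [coeff_resS_of_mem _ hxS, h0]
  · rw [coeff_resS_of_notMem _ hxS]

/-- the blocks of the subgroups of a central extension of `A / N` -/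
theorem BelowP.quot [Fact p.Prime] [CharP k p] [IsAlgClosed k] {b : MonoidAlgebra k A}
    (h : BelowP p k A b) {N : Subgroup A} [N.Normal] (hZ : Subgroup.center A ≤ N)
    {A' : Type u} [Group A'] [Fintype A'] {ψ : A' →* A ⧸ N} (hψ : ψ.ker ≤ Subgroup.center A')
    (hp : ¬ p ∣ Nat.card ψ.ker) {Y : Subgroup A'}
    (hY : (Subgroup.center ↥Y).index < (Subgroup.center A).index)
    {c : MonoidAlgebra k A'} (hc : c ∈ fixAlg k Y Y) (hcc : c * c = c)
    (hbr : ∀ P' : Subgroup A', P' ≤ Y → IsPGroup p P' → HasBr P' c →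
      ∃ P : Subgroup A, IsPGroup p P ∧ HasBr P b ∧ P'.map ψ ≤ P.map (QuotientGroup.mk' N)) :
    Cy.WEq p Y c := by
  obtain ⟨hs, hi⟩ := mem_fixAlg.1 hc
  refine Cy.weq_of_blocks hs hi hcc (fun f hf hfc => ?_)
  apply navarro_transport hf
  refine h ↥Y hY _ (dn_isBlock hf) ?_
  intro P' hP' hbr'
  have hPY : P'.map Y.subtype ≤ Y := by
    rintro _ ⟨y, _, rfl⟩
    exact y.2
  have hcomm : c * f = f * c := commute_of hs hf.invBy
  have hmul : f * c = f := by
    rcases hf.mul_eq hc hcc with h | h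
    · rw [hcomm] at h; exact absurd h hfc
    · rw [← hcomm]; exact h
  obtain ⟨P, h1, h2, h3⟩ := hbr _ hPY (hP'.map _) (hasBr_of_mul (hP'.map _) (hf.invBy.mono hPY)
    (hi.mono hPY) hmul (RedAux.hasBr_up' hbr'))
  exact ⟨P, h1, h2, ov_of_quot hZ hψ hp h3⟩

end Pool.Agent.Lib.P0c8ca5.Gg
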