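import Mathlib
import Pool.Agent.Lib.P0c8ca5G.AsmA
import Pool.Agent.Lib.P0c8ca5G.Defs
import Pool.Agent.Lib.P0c8ca5J.Base

/-!
# The class of the central extensions of the sections of a group, and covered blocks
-/

set_option autoImplicit false

namespace Pool.Agent.Lib.P0c8ca5.Gg

open MonoidAlgebra Ps Bq Zz

universe u v w

theorem csec_of_center {p : ℕ} [Fact p.Prime] {L H' : Type u} [Group L] [Group H']
    {G₀ : Type*} [Group G₀]
    (hcen : ∀ N : Subgroup L, N.Normal → ¬ p ∣ Nat.card N → N ≤ Subgroup.center L)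
    (h : Fg.CSec p H' (L ⧸ Subgroup.center L)) (hL : Fg.CSec p L G₀) : Fg.CSec p H' G₀ := by
  obtain ⟨L₁, _, π₁, h1, h2, h3, h4⟩ := h
  obtain ⟨L₀, _, π, hπ, hπZ, hπp, hs⟩ := hL
  refine ⟨L₁, inferInstance, π₁, h1, h2, h3, h4.trans (IsSection.trans ?_ hs)⟩
  have hk : π.ker ≤ Subgroup.center L := hcen _ inferInstance hπp
  obtain ⟨φ, hφ⟩ := Fg.CsAux.exists_lift π hπ (QuotientGroup.mk' (Subgroup.center L)) (by
    rw [QuotientGroup.ker_mk']
    exact hk)
  refine IsSection.of_surjective φ ?_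
  intro y
  obtain ⟨z, rfl⟩ := QuotientGroup.mk'_surjective _ y
  exact ⟨π z, hφ z⟩

/-- the induction hypothesis -/
def IHyp (p : ℕ) (k : Type v) [Field k] (G₀ : Type w) [Group G₀] (L : Type u) [Group L] : Prop :=
  ∀ (H' : Type u) [Group H'] [Finite H'],
    (Subgroup.center H').index ≤ (Subgroup.center L).index →
    ((Subgroup.center H').index < (Subgroup.center L).index ∨ Nat.card H' < Nat.card L) →
    ∀ b : MonoidAlgebra k H', IsBlock ⊤ b → Fg.CSec p H' G₀ → NavarroEq p ⊤ ⊤ b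

theorem IHyp.belowC {p : ℕ} [Fact p.Prime] {k : Type v} [Field k] {G₀ : Type w} [Group G₀]
    {L : Type u} [Group L] (h : IHyp p k G₀ L) (hL : Fg.CSec p L G₀)
    (hcen : ∀ N : Subgroup L, N.Normal → ¬ p ∣ Nat.card N → N ≤ Subgroup.center L) :
    BelowC p k L := by
  intro H' _ _ hS b hb
  exact h H' hS.2.le (Or.inl hS.2) b hb (csec_of_center hcen hS.1 hL)

theorem IHyp.belowS {p : ℕ} [Fact p.Prime] {k : Type v} [Field k] [CharP k p] [IsAlgClosed k]
    {G₀ : Type w} [Group G₀]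
    {L : Type u} [Group L] [Finite L] (h : IHyp p k G₀ L) (hL : Fg.CSec p L G₀) :
    BelowS p k L := by
  intro Y _ hY c hc
  have : Fintype L := Fintype.ofFinite L
  apply navarro_transport hc
  refine h Y (Fg.index_center_le (IsSection.of_subgroup Y)) (Or.inr ?_) _ (dn_isBlock hc)
    (Fg.CSec.of_section (IsSection.of_subgroup Y) hL)
  exact lt_of_le_of_ne (Subgroup.card_le_card_group Y)
    (fun h => hY (Subgroup.eq_top_of_card_eq Y h))

/-- a block of a normal subgroup which is the only one below `b` -/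
theorem covered_inv {k : Type v} [Field k] {L : Type u} [Group L] {b : MonoidAlgebra k L}
    (hb : IsBlock ⊤ b) {V : Subgroup L} (hV : V.Normal)
    (hp : ∃! c : MonoidAlgebra k L, IsBlock V c ∧ b * c ≠ 0) :
    ∃ c : MonoidAlgebra k L, IsBlock V c ∧ InvBy ⊤ c ∧ c * b = b := by
  obtain ⟨c, ⟨hc, hbc⟩, huniq⟩ := hp
  have hci : InvBy (⊤ : Subgroup L) c := by
    rw [invBy_iff_cj]
    intro g _
    apply huniq
    constructor
    · have h1 := isBlock_cg hc g
      rwa [cg_normal] at h1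
    · intro h0
      apply hbc
      have h1 := congrArg (cj g⁻¹) h0
      rw [cj_mul, cj_zero, cj_cj, inv_mul_cancel, cj_one_left] at h1
      have h2 : cj g⁻¹ b = b := (invBy_iff_cj.1 hb.invBy) _ (Subgroup.mem_top _)
      rwa [h2] at h1
  have hmem : c ∈ fixAlg k (⊤ : Subgroup L) ⊤ :=
    mem_fixAlg.2 ⟨fun _ _ => Subgroup.mem_top _, hci⟩
  have hcomm : c * b = b * c := commute_of (fun _ _ => Subgroup.mem_top _) hb.invBy
  refine ⟨c, hc, hci, ?_⟩
  rcases hb.mul_eq hmem hc.idem with h | h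
  · rw [hcomm] at h; exact absurd h hbc
  · exact h

end Pool.Agent.Lib.P0c8ca5.Gg
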