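import Mathlib
import Pool.Agent.Lib.P0c8ca5G.Defs

/-!
# Module KrA: the p-subgroup of a weight of a chain stabilizer meets `N` in a member of the family

PROOF of `Fam.mem_of_dz`.  Let `R = Q ⊓ N`, `c` the closure operator of `h.plus`, `S = c R ∈ D`, `Hσ = stab H σ`, `G₀ = Hσ ⊓ N(Q)`.
`G₀` normalizes `Q` and `N` (`hn`), so also `R` (`cg g R = R` for `g ∈ G₀`), hence `cg g S = c (cg g R) = S`: `G₀ ≤ N(S)`.
`S ≤ Hσ`: `S ≤ N ≤ H`, and for `Q' ∈ σ ⊆ D`: `R ≤ Q ≤ Hσ ≤ N(Q')`, so `S ≤ N(Q')` (last clause of `plus`).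
`Q ≤ G₀` normalizes `S`, so `T = S ⊔ Q` is a p-group (`P0c8ca5S.Wgt`: `isPGroup_sup`; or Mathlib `IsPGroup.to_sup_of_normal_left'`),
`T ≤ Hσ`, and `G₀` normalizes `T` and `N(Q)`.  Let `U = T ⊓ N(Q)`: a p-group in `G₀`, normalized by `G₀`.  The group `sec G₀ Q` is
`sec Hσ Q` (`sec_inf_normalizer` in P0c8ca5.Official), so `g` is of defect zero for it, and `radical` (P0c8ca5N.Rad; with `H := G₀`,
its `Q := U`, its `R := Q`) gives `U ≤ Q`.  If `Q < T` then `Q < N_T(Q) ≤ U` (normalizers grow in p-groups: work in `↥T`,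
`NormalizerCondition`, `Group.IsNilpotent`, `IsPGroup.isNilpotent`; there may be a lemma in the library, e.g. in P0c8ca5T or P0c8ca5S.Wgt),
a contradiction.  So `S ≤ T = Q`, `S ≤ Q ⊓ N = R ≤ S`, and `R = S ∈ D`.
-/

set_option autoImplicit false

namespace Pool.Agent.Lib.P0c8ca5.Gg

open MonoidAlgebra Ps Bq Zz

variable {p : ℕ} {k : Type*} [Field k] {A : Type*} [Group A]

namespace KrAAux

theorem normalizer_sup_le {P Q G : Subgroup A} (h : G ≤ Subgroup.normalizer (P : Set A))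
    (h' : G ≤ Subgroup.normalizer (Q : Set A)) :
    G ≤ Subgroup.normalizer ((P ⊔ Q : Subgroup A) : Set A) := by
  intro x hx
  rw [← cg_eq_self_iff, cg_sup, cg_eq_self_iff.2 (h hx), cg_eq_self_iff.2 (h' hx)]

theorem isPGroup_sup {P Q : Subgroup A} (hP : IsPGroup p P) (hQ : IsPGroup p Q)
    (h : P ≤ Subgroup.normalizer (Q : Set A)) : IsPGroup p (P ⊔ Q : Subgroup A) := by
  rw [sup_comm]
  intro x
  obtain ⟨n, hn⟩ := pquot_sup h hP x x.2
  obtain ⟨m, hm⟩ := hQ ⟨(x : A) ^ p ^ n, hn⟩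
  refine ⟨n + m, Subtype.ext ?_⟩
  have h2 : ((x : A) ^ p ^ n) ^ p ^ m = 1 := congrArg Subtype.val hm
  change (x : A) ^ p ^ (n + m) = 1
  rw [pow_add, pow_mul, h2]

end KrAAux

open KrAAux in
theorem Fam.mem_of_dz [Fact p.Prime] [CharP k p] [Fintype A] {H N : Subgroup A}
    {D : Finset (Subgroup A)} (h : Fam p H N D) (hNH : N ≤ H)
    (hn : H ≤ Subgroup.normalizer (N : Set A)) {σ : Finset (Subgroup A)} (hσ : σ ∈ Ch D)
    {Q : Subgroup A} (hQ : Q ≤ stab H σ) (hQp : IsPGroup p Q) (hR : Q ⊓ N ≠ ⊥)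
    {g : MonoidAlgebra k (NQ Q)} (hg : IsDZ p (sec (stab H σ) Q) g) : Q ⊓ N ∈ D := by
  classical
  obtain ⟨c, hc⟩ := h.plus
  have hRN : Q ⊓ N ≤ N := inf_le_right
  have hRp : IsPGroup p (Q ⊓ N : Subgroup A) := hQp.to_le inf_le_left
  obtain ⟨hcD, hle, hcg, hlast⟩ := hc (Q ⊓ N) hRN hRp hR
  obtain ⟨hσD, hσc⟩ := InvAux.mem_Ch.1 hσ
  have hSN : c (Q ⊓ N) ≤ N := h.le _ hcD
  have hSp : IsPGroup p (c (Q ⊓ N)) := h.pgrp _ hcD
  have hstH : stab H σ ≤ H := inf_le_left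
  -- `c R ≤ stab H σ`
  have hSst : c (Q ⊓ N) ≤ stab H σ := by
    intro x hx
    rw [mem_stab]
    refine ⟨hNH (hSN hx), fun Q' hQ' => ?_⟩
    have h1 : Q ⊓ N ≤ Subgroup.normalizer (Q' : Set A) :=
      inf_le_left.trans (hQ.trans (InvAux.stab_le hQ'))
    exact hlast Q' (hσD hQ') h1 hx
  -- the elements of `G₀` normalize `c R`
  have hG : stab H σ ⊓ Subgroup.normalizer (Q : Set A) ≤
      Subgroup.normalizer (c (Q ⊓ N) : Set A) := by
    intro x hx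
    obtain ⟨hx1, hx2⟩ := Subgroup.mem_inf.1 hx
    have h1 : cg x (Q ⊓ N) = Q ⊓ N := by
      rw [cg_eq_self_iff]
      exact Subgroup.inf_normalizer_le_normalizer_inf
        (Subgroup.mem_inf.2 ⟨hx2, hn (hstH hx1)⟩)
    rw [← cg_eq_self_iff, ← hcg x (hstH hx1), h1]
  have hQG : Q ≤ stab H σ ⊓ Subgroup.normalizer (Q : Set A) :=
    le_inf hQ Subgroup.le_normalizer
  have hTp : IsPGroup p (Q ⊔ c (Q ⊓ N) : Subgroup A) :=
    isPGroup_sup hQp hSp (hQG.trans hG)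
  have hGT : stab H σ ⊓ Subgroup.normalizer (Q : Set A) ≤
      Subgroup.normalizer ((Q ⊔ c (Q ⊓ N) : Subgroup A) : Set A) :=
    normalizer_sup_le inf_le_right hG
  have hU : (Q ⊔ c (Q ⊓ N)) ⊓ Subgroup.normalizer (Q : Set A) ≤ Q := by
    have hUG : (Q ⊔ c (Q ⊓ N)) ⊓ Subgroup.normalizer (Q : Set A) ≤
        stab H σ ⊓ Subgroup.normalizer (Q : Set A) :=
      inf_le_inf_right _ (sup_le hQ hSst)
    have hGU : stab H σ ⊓ Subgroup.normalizer (Q : Set A) ≤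
        Subgroup.normalizer (((Q ⊔ c (Q ⊓ N)) ⊓ Subgroup.normalizer (Q : Set A) : Subgroup A) :
          Set A) := by
      refine le_trans (le_inf hGT ?_) Subgroup.inf_normalizer_le_normalizer_inf
      exact inf_le_right.trans Subgroup.le_normalizer
    have hUp : IsPGroup p ((Q ⊔ c (Q ⊓ N)) ⊓ Subgroup.normalizer (Q : Set A) : Subgroup A) :=
      hTp.to_le inf_le_left
    refine radical hUG hGU hUp hQG hQp (f := g) ?_
    rw [sec_inf_normalizer]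
    exact hg
  have hQT : Q = Q ⊔ c (Q ⊓ N) := by
    by_contra hne
    obtain ⟨x, hx, hxN, hxQ⟩ := exists_norm_growth hTp le_sup_left hne
    exact hxQ (hU (Subgroup.mem_inf.2 ⟨hx, hxN⟩))
  have hSQ : c (Q ⊓ N) ≤ Q := by
    have h1 : c (Q ⊓ N) ≤ Q ⊔ c (Q ⊓ N) := le_sup_right
    rwa [← hQT] at h1
  have heq : Q ⊓ N = c (Q ⊓ N) := le_antisymm hle (le_inf hSQ hSN)
  rw [heq]
  exact hcD

end Pool.Agent.Lib.P0c8ca5.Gg
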