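import Mathlib
import Pool.Agent.Lib.P0c8ca5G.KrA

/-!
# Module KrB: the alternating sum of the numbers of weights over the chains in a normal subgroup

`wN p H Q f` (`Fg.wN`, P0c8ca5F.Defs) is the number of the blocks of defect zero `g` of `sec H Q` with `g * proj Q f = g`.

PROOF of `Fam.invol`.  Copy the proof of `involution` in P0c8ca5N.Inv (its lemmas `InvAux.*` hold for all `X`, `D`); only `tt_mem` has
to be replaced: for `σ ∈ Ch D`, `T ∈ D`, `T ≤ stab H σ` the toggled member `tt σ T = ss σ T ⊔ T` is in `D`: `ss σ T` is `⊥` or a member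
of `σ` (`ss_mem`), normalized by `T`; `h.sup`.

PROOF of `Fam.bw_eq`.  For `σ ∈ Ch D` let `Hσ = stab H σ`, `S = σ.sup id`.  `Fr.Ws p Hσ (cS S f)` is the sum of
`V σ Q = |Hσ ⊓ N(Q)| * wN p Hσ Q (cS S f)` over the p-subgroups `Q ≤ Hσ`.  Split it into the sum over the `Q` with `Q ⊓ N = ⊥` and
those with `Q ⊓ N ≠ ⊥`.
(1) `Q ⊓ N = ⊥` and `σ ≠ ∅`: `V σ Q = 0`.  Let `Q₁` be the least member of `σ` (`exists_least`, P0c8ca5N.Least or N.Final): `Q₁ ≤ Hσ`
(it is contained in all members, and in `H`), `Hσ ≤ N(Q₁)`, so `radical` (P0c8ca5N.Rad) gives `Q₁ ≤ Q` if there is a `g` of defect zero for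
`sec Hσ Q`; then `Q₁ ≤ Q ⊓ N = ⊥`, against `h.ne`.  For `σ = ∅`: `stab H ∅ = H` (`stab_empty`), `S = ⊥`, `cS ⊥ f = f`; this is the right side.
(2) `Q ⊓ N = T ≠ ⊥`: `V σ Q = 0` unless `T ∈ D` (`Fam.mem_of_dz`).  Let `T ∈ D`, `T = Q ⊓ N`, `Q ≤ Hσ`.  Then `T ≤ Hσ`, and with
`M = Hσ ⊓ N(T)`: `Hσ ⊓ N(Q) = M ⊓ N(Q)` (elements of `H` that normalize `Q` normalize `Q ⊓ N = T`), `Q ≤ M`, `sec Hσ Q = sec M Q`
(`sec_inf_normalizer` in P0c8ca5.Official), and `proj Q (cS S f) = proj Q (cS (S ⊔ T) f)` since both are `proj Q (cS (S ⊔ Q) f)`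
(`proj_cS`, `cS_cS` in P0c8ca5N.WInv; `cS S f` and `cS (S ⊔ T) f` are `Q`-invariant as `Q` normalizes `S` and `T`, `f` is `H`-invariant;
`T ≤ Q`).  So `V σ Q = |M ⊓ N(Q)| * wN p M Q (cS (S ⊔ T) f)`, and the sum over the `Q` with `Q ⊓ N = T`, `Q ≤ Hσ` is
`W M T (S ⊔ T)` with `W M T S' = ∑ (Q ≤ M, p-group, Q ⊓ N = T), |M ⊓ N(Q)| * wN p M Q (cS S' f)`.  Now `Fam.invol`.
-/

set_option autoImplicit false

namespace Pool.Agent.Lib.P0c8ca5.Gg

open MonoidAlgebra Ps Bq Zz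

variable {p : ℕ} {k : Type*} [Field k] {A : Type*} [Group A]

open InvAux

theorem KrBAux.tt_mem {L N : Subgroup A} {D : Finset (Subgroup A)} (h : Fam p L N D)
    {H : Subgroup A} {σ : Finset (Subgroup A)} (hσ : σ ∈ Ch D) {T : Subgroup A} (hT : T ∈ D)
    (hTs : T ≤ stab H σ) : tt σ T ∈ D := by
  rw [mem_Ch] at hσ
  have hn : T ≤ Subgroup.normalizer (ss σ T : Set A) := hTs.trans (stab_norm_ss hσ.2 T)
  unfold tt
  rcases ss_mem hσ.2 T with h1 | h1
  · rw [h1, bot_sup_eq]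
    exact hT
  · exact h.sup _ (hσ.1 h1) T hT hn

theorem KrBAux.inf_norm (Q N : Subgroup A) :
    Subgroup.normalizer (Q : Set A) ⊓ Subgroup.normalizer (N : Set A) ≤
      Subgroup.normalizer ((Q ⊓ N : Subgroup A) : Set A) := by
  intro g hg
  obtain ⟨h1, h2⟩ := Subgroup.mem_inf.1 hg
  rw [Subgroup.mem_normalizer_iff] at h1 h2 ⊢
  intro x
  rw [Subgroup.mem_inf, Subgroup.mem_inf, h1 x, h2 x]

theorem KrBAux.stab_norm_sup {X : Subgroup A} {σ : Finset (Subgroup A)}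
    (hc : IsChain (· ≤ ·) (σ : Set (Subgroup A))) :
    stab X σ ≤ Subgroup.normalizer ((σ.sup id : Subgroup A) : Set A) := by
  rcases Finset.eq_empty_or_nonempty σ with h0 | h0
  · rw [h0, Finset.sup_empty]
    have : Subgroup.normalizer ((⊥ : Subgroup A) : Set A) = ⊤ :=
      Subgroup.normalizer_eq_top_iff.2 inferInstance
    rw [this]
    exact le_top
  · exact stab_le (sup_mem_chain h0 hc)

/-- one term of the weight number -/
noncomputable def KrBAux.V (p : ℕ) [Fintype A] (K : Subgroup A) (c : MonoidAlgebra k A)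
    (Q : Subgroup A) : ℕ :=
  Nat.card ↥(K ⊓ Subgroup.normalizer (Q : Set A)) * Fg.wN p K Q c

theorem KrBAux.V_zero [Fintype A] {K : Subgroup A} {c : MonoidAlgebra k A} {Q : Subgroup A}
    (h : ∀ g : MonoidAlgebra k (NQ Q), ¬ IsDZ p (sec K Q) g) : KrBAux.V p K c Q = 0 := by
  unfold KrBAux.V Fg.wN
  have h1 : {f : MonoidAlgebra k (NQ Q) | IsDZ p (sec K Q) f ∧ f * proj Q c = f} = ∅ := by
    ext f
    constructor
    · intro hf
      exact absurd hf.1 (h f)
    · intro hf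
      exact absurd hf (Set.notMem_empty f)
  rw [h1]
  simp

open Classical in
/-- the part of the weight number given by `T` -/
noncomputable def KrBAux.W (p : ℕ) [Fintype A] (N : Subgroup A) (f : MonoidAlgebra k A)
    (M T S : Subgroup A) : ℤ :=
  ∑ Q ∈ Finset.univ.filter (fun Q : Subgroup A => Q ≤ M ∧ IsPGroup p Q ∧ Q ⊓ N = T),
    (KrBAux.V p M (cS S f) Q : ℤ)

open Classical in
theorem KrBAux.fib [Fact p.Prime] [CharP k p] [Fintype A] {H N : Subgroup A}
    {D : Finset (Subgroup A)} (hn : H ≤ Subgroup.normalizer (N : Set A))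
    {f : MonoidAlgebra k A} (hf : InvBy H f) {σ : Finset (Subgroup A)} (hσ : σ ∈ Ch D)
    (T : Subgroup A) :
    ∑ Q ∈ Finset.univ.filter (fun Q : Subgroup A => Q ≤ stab H σ ∧ IsPGroup p Q ∧ Q ⊓ N = T),
      (KrBAux.V p (stab H σ) (cS (σ.sup id) f) Q : ℤ) =
    KrBAux.W p N f (stab H σ ⊓ Subgroup.normalizer (T : Set A)) T (σ.sup id ⊔ T) := by
  have hc := (mem_Ch.1 hσ).2
  have hKH : stab H σ ≤ H := inf_le_left
  have hKN : stab H σ ≤ Subgroup.normalizer (N : Set A) := hKH.trans hn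
  unfold KrBAux.W
  have hset : Finset.univ.filter
      (fun Q : Subgroup A => Q ≤ stab H σ ∧ IsPGroup p Q ∧ Q ⊓ N = T) =
      Finset.univ.filter (fun Q : Subgroup A =>
        Q ≤ stab H σ ⊓ Subgroup.normalizer (T : Set A) ∧ IsPGroup p Q ∧ Q ⊓ N = T) := by
    ext Q
    simp only [Finset.mem_filter, Finset.mem_univ, true_and]
    constructor
    · rintro ⟨h1, h2, h3⟩
      refine ⟨le_inf h1 ?_, h2, h3⟩
      rw [← h3]
      exact (le_inf Subgroup.le_normalizer (h1.trans hKN)).trans (KrBAux.inf_norm Q N)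
    · rintro ⟨h1, h2, h3⟩
      exact ⟨h1.trans inf_le_left, h2, h3⟩
  rw [← hset]
  refine Finset.sum_congr rfl fun Q hQ => ?_
  obtain ⟨h1, h2, h3⟩ := (Finset.mem_filter.1 hQ).2
  have hTQ : T ≤ Q := by rw [← h3]; exact inf_le_left
  have hM : stab H σ ⊓ Subgroup.normalizer (T : Set A) ⊓ Subgroup.normalizer (Q : Set A) =
      stab H σ ⊓ Subgroup.normalizer (Q : Set A) := by
    apply le_antisymm
    · exact inf_le_inf_right _ inf_le_left
    · refine le_inf (le_inf inf_le_left ?_) inf_le_right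
      have h4 : stab H σ ⊓ Subgroup.normalizer (Q : Set A) ≤
          Subgroup.normalizer ((Q ⊓ N : Subgroup A) : Set A) :=
        (le_inf inf_le_right (inf_le_left.trans hKN)).trans (KrBAux.inf_norm Q N)
      rw [h3] at h4
      exact h4
  have hsec : sec (stab H σ ⊓ Subgroup.normalizer (T : Set A)) Q = sec (stab H σ) Q := by
    rw [← sec_inf_normalizer (stab H σ ⊓ Subgroup.normalizer (T : Set A)) Q, hM,
      sec_inf_normalizer]
  have hQS : Q ≤ Subgroup.normalizer ((σ.sup id : Subgroup A) : Set A) :=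
    h1.trans (KrBAux.stab_norm_sup hc)
  have hQT : Q ≤ Subgroup.normalizer (T : Set A) := by
    rw [← h3]
    exact (le_inf Subgroup.le_normalizer (h1.trans hKN)).trans (KrBAux.inf_norm Q N)
  have hQf : InvBy Q f := hf.mono (h1.trans hKH)
  have hi1 : InvBy Q (cS (σ.sup id) f) :=
    resS_invBy (hQS.trans (Blk0Aux.normalizer_le_normalizer_centralizer _)) hQf
  have hi2 : InvBy Q (cS (σ.sup id ⊔ T) f) :=
    resS_invBy (((le_inf hQS hQT).trans
      (Subgroup.normalizer_inf_normalizer_le_normalizer_sup _ _)).trans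
      (Blk0Aux.normalizer_le_normalizer_centralizer _)) hQf
  have hproj : proj Q (cS (σ.sup id) f) = proj Q (cS (σ.sup id ⊔ T) f) := by
    rw [← proj_cS h2 hi1, ← proj_cS h2 hi2, cS_cS, cS_cS, sup_assoc, sup_eq_right.2 hTQ]
  unfold KrBAux.V Fg.wN
  rw [hM, hsec, hproj]

open Classical in
theorem Fam.invol [Finite A] {L N : Subgroup A} {D : Finset (Subgroup A)} (h : Fam p L N D)
    (H : Subgroup A) (W : Subgroup A → Subgroup A → Subgroup A → ℤ) :
    ∑ σ ∈ Ch D, (-1) ^ σ.card * ∑ T ∈ D.filter (fun T => T ≤ stab H σ),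
      W (stab H σ ⊓ Subgroup.normalizer (T : Set A)) T (σ.sup id ⊔ T) = 0 := by
  have h' := h
  simp_rw [Finset.mul_sum]
  have hcomm : ∀ F : Finset (Subgroup A) → Subgroup A → ℤ,
      ∑ σ ∈ Ch D, ∑ T ∈ D.filter (fun T => T ≤ stab H σ), F σ T =
      ∑ T ∈ D, ∑ σ ∈ (Ch D).filter (fun σ => T ≤ stab H σ), F σ T := by
    intro F
    refine Finset.sum_comm' fun σ T => ?_
    simp only [Finset.mem_filter]
    tauto
  rw [hcomm]
  refine Finset.sum_eq_zero fun T hT => ?_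
  refine Finset.sum_involution (fun σ _ => tog σ (tt σ T)) ?_ ?_ ?_ ?_
  · intro σ hσ
    obtain ⟨hσ, hTs⟩ := Finset.mem_filter.1 hσ
    have hc := (mem_Ch.1 hσ).2
    by_cases h : tt σ T ∈ σ
    · rw [tog_mem h]
      have hc' : IsChain (· ≤ ·) ((σ.erase (tt σ T) : Finset (Subgroup A)) : Set (Subgroup A)) :=
        hc.mono (Finset.coe_subset.2 (Finset.erase_subset _ _))
      have e1 := stab_inf (X := H) hc' T
      have e2 := sup_insert' (σ.erase (tt σ T)) T
      rw [tt_erase, Finset.insert_erase h] at e1 e2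
      rw [← e1, ← e2, ← Finset.card_erase_add_one h, pow_succ]
      ring
    · rw [tog_not_mem h, stab_inf hc T, sup_insert', Finset.card_insert_of_notMem h, pow_succ]
      ring
  · intro σ hσ _ he
    by_cases h : tt σ T ∈ σ
    · rw [tog_mem h, Finset.erase_eq_self] at he
      exact he h
    · rw [tog_not_mem h, Finset.insert_eq_self] at he
      exact h he
  · intro σ hσ
    obtain ⟨hσ, hTs⟩ := Finset.mem_filter.1 hσ
    have hc := mem_Ch.1 hσ
    rw [Finset.mem_filter]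
    by_cases h : tt σ T ∈ σ
    · rw [tog_mem h]
      have hc' : IsChain (· ≤ ·) ((σ.erase (tt σ T) : Finset (Subgroup A)) : Set (Subgroup A)) :=
        hc.2.mono (Finset.coe_subset.2 (Finset.erase_subset _ _))
      refine ⟨mem_Ch.2 ⟨(Finset.erase_subset _ _).trans hc.1, hc'⟩, ?_⟩
      have e1 := stab_inf (X := H) hc' T
      rw [tt_erase, Finset.insert_erase h] at e1
      have h3 : T ≤ stab H σ ⊓ Subgroup.normalizer (T : Set A) :=
        le_inf hTs Subgroup.le_normalizer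
      rw [e1] at h3
      exact h3.trans inf_le_left
    · rw [tog_not_mem h]
      refine ⟨mem_Ch.2 ⟨?_, chain_insert hc.2 T⟩, ?_⟩
      · rw [Finset.insert_subset_iff]
        exact ⟨KrBAux.tt_mem h' hσ hT hTs, hc.1⟩
      · have h3 : T ≤ stab H σ ⊓ Subgroup.normalizer (T : Set A) :=
          le_inf hTs Subgroup.le_normalizer
        rw [← stab_inf hc.2 T] at h3
        exact h3.trans inf_le_left
  · intro σ hσ
    by_cases h : tt σ T ∈ σ
    · simp only [tog_mem h]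
      rw [tt_erase, tog_not_mem (Finset.notMem_erase _ _), Finset.insert_erase h]
    · simp only [tog_not_mem h]
      rw [tt_insert, tog_mem (Finset.mem_insert_self _ _), Finset.erase_insert h]

open Classical in
theorem Fam.bw_eq [Fact p.Prime] [CharP k p] [Fintype A] {H N : Subgroup A}
    {D : Finset (Subgroup A)} (h : Fam p H N D) (hNH : N ≤ H)
    (hn : H ≤ Subgroup.normalizer (N : Set A)) {f : MonoidAlgebra k A} (hf : InvBy H f) :
    Bw p H D f = ∑ Q ∈ Finset.univ.filter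
      (fun Q : Subgroup A => Q ≤ H ∧ IsPGroup p Q ∧ Q ⊓ N = ⊥),
        ((Nat.card ↥(H ⊓ Subgroup.normalizer (Q : Set A)) * Fg.wN p H Q f : ℕ) : ℤ) := by
  classical
  have hdec : ∀ σ ∈ Ch D, (Fr.Ws p (stab H σ) (cS (σ.sup id) f) : ℤ) =
      (∑ Q ∈ Finset.univ.filter (fun Q : Subgroup A => Q ≤ stab H σ ∧ IsPGroup p Q ∧ Q ⊓ N = ⊥),
        (KrBAux.V p (stab H σ) (cS (σ.sup id) f) Q : ℤ)) +
      ∑ T ∈ D.filter (fun T => T ≤ stab H σ),
        KrBAux.W p N f (stab H σ ⊓ Subgroup.normalizer (T : Set A)) T (σ.sup id ⊔ T) := by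
    intro σ hσ
    have e1 : (Fr.Ws p (stab H σ) (cS (σ.sup id) f) : ℤ) =
        ∑ Q ∈ Finset.univ.filter (fun Q : Subgroup A => Q ≤ stab H σ ∧ IsPGroup p Q),
          (KrBAux.V p (stab H σ) (cS (σ.sup id) f) Q : ℤ) := by
      unfold Fr.Ws KrBAux.V Fg.wN
      push_cast
      rfl
    have e2 : ∑ T ∈ D.filter (fun T => T ≤ stab H σ),
        KrBAux.W p N f (stab H σ ⊓ Subgroup.normalizer (T : Set A)) T (σ.sup id ⊔ T) =
        ∑ Q ∈ Finset.univ.filter
          (fun Q : Subgroup A => Q ≤ stab H σ ∧ IsPGroup p Q ∧ Q ⊓ N ∈ D),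
          (KrBAux.V p (stab H σ) (cS (σ.sup id) f) Q : ℤ) := by
      have hmaps : ∀ Q ∈ Finset.univ.filter
          (fun Q : Subgroup A => Q ≤ stab H σ ∧ IsPGroup p Q ∧ Q ⊓ N ∈ D),
          Q ⊓ N ∈ D.filter (fun T => T ≤ stab H σ) := by
        intro Q hQ
        obtain ⟨h1, h2, h3⟩ := (Finset.mem_filter.1 hQ).2
        exact Finset.mem_filter.2 ⟨h3, inf_le_left.trans h1⟩
      have hfw := Finset.sum_fiberwise_of_maps_to hmaps
        (fun Q => (KrBAux.V p (stab H σ) (cS (σ.sup id) f) Q : ℤ))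
      rw [← hfw]
      refine Finset.sum_congr rfl fun T hT => ?_
      obtain ⟨hT1, hT2⟩ := Finset.mem_filter.1 hT
      rw [← KrBAux.fib hn hf hσ T]
      refine Finset.sum_congr ?_ fun _ _ => rfl
      ext Q
      simp only [Finset.mem_filter, Finset.mem_univ, true_and]
      constructor
      · rintro ⟨h1, h2, h3⟩
        exact ⟨⟨h1, h2, by rw [h3]; exact hT1⟩, h3⟩
      · rintro ⟨⟨h1, h2, _⟩, h3⟩
        exact ⟨h1, h2, h3⟩
    rw [e1, e2, ← Finset.sum_union]
    · symm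
      apply Finset.sum_subset
      · intro Q hQ
        rcases Finset.mem_union.1 hQ with h1 | h1
        · obtain ⟨h2, h3, _⟩ := (Finset.mem_filter.1 h1).2
          exact Finset.mem_filter.2 ⟨Finset.mem_univ _, h2, h3⟩
        · obtain ⟨h2, h3, _⟩ := (Finset.mem_filter.1 h1).2
          exact Finset.mem_filter.2 ⟨Finset.mem_univ _, h2, h3⟩
      · intro Q hQ hQ'
        obtain ⟨h2, h3⟩ := (Finset.mem_filter.1 hQ).2
        have h4 : Q ⊓ N ≠ ⊥ := fun h5 => hQ' (Finset.mem_union_left _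
          (Finset.mem_filter.2 ⟨Finset.mem_univ _, h2, h3, h5⟩))
        have h5 : Q ⊓ N ∉ D := fun h5 => hQ' (Finset.mem_union_right _
          (Finset.mem_filter.2 ⟨Finset.mem_univ _, h2, h3, h5⟩))
        rw [KrBAux.V_zero, Nat.cast_zero]
        intro g hg
        exact h5 (h.mem_of_dz hNH hn hσ h2 h3 h4 hg)
    · rw [Finset.disjoint_left]
      intro Q h1 h2
      obtain ⟨_, _, h3⟩ := (Finset.mem_filter.1 h1).2
      obtain ⟨_, _, h4⟩ := (Finset.mem_filter.1 h2).2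
      rw [h3] at h4
      exact h.ne _ h4 rfl
  have hzero : ∀ σ ∈ Ch D, σ ≠ ∅ → ∀ Q : Subgroup A, Q ≤ stab H σ → IsPGroup p Q → Q ⊓ N = ⊥ →
      KrBAux.V p (stab H σ) (cS (σ.sup id) f) Q = 0 := by
    intro σ hσ hne Q h1 h2 h3
    obtain ⟨hσD, hc⟩ := mem_Ch.1 hσ
    apply KrBAux.V_zero
    intro g hg
    obtain ⟨Q1, hQ1, hmin⟩ := exists_least (Finset.nonempty_iff_ne_empty.2 hne) hc
    have hQ1N : Q1 ≤ N := h.le Q1 (hσD hQ1)
    have hle : Q1 ≤ stab H σ := by
      refine le_inf (hQ1N.trans hNH) ?_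
      exact le_iInf₂ fun R hR => (hmin R hR).trans Subgroup.le_normalizer
    have h4 : Q1 ≤ Q := radical hle (stab_le hQ1) (h.pgrp Q1 (hσD hQ1)) h1 h2 hg
    apply h.ne Q1 (hσD hQ1)
    rw [eq_bot_iff, ← h3]
    exact le_inf h4 hQ1N
  have hsum : Bw p H D f = ∑ σ ∈ Ch D, (-1) ^ σ.card *
      ∑ Q ∈ Finset.univ.filter (fun Q : Subgroup A => Q ≤ stab H σ ∧ IsPGroup p Q ∧ Q ⊓ N = ⊥),
        (KrBAux.V p (stab H σ) (cS (σ.sup id) f) Q : ℤ) := by
    have hinv := h.invol H (KrBAux.W p N f)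
    unfold Bw
    rw [Finset.sum_congr rfl fun σ hσ => by rw [hdec σ hσ, mul_add], Finset.sum_add_distrib,
      hinv, add_zero]
  have hemp : (∅ : Finset (Subgroup A)) ∈ Ch D :=
    mem_Ch.2 ⟨Finset.empty_subset _, by simp⟩
  rw [hsum, Finset.sum_eq_single ∅]
  · rw [Finset.card_empty, pow_zero, one_mul, stab_empty, Finset.sup_empty, cS_bot]
    rfl
  · intro σ hσ hne
    rw [Finset.sum_eq_zero, mul_zero]
    intro Q hQ
    obtain ⟨h1, h2, h3⟩ := (Finset.mem_filter.1 hQ).2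
    rw [hzero σ hσ hne Q h1 h2 h3, Nat.cast_zero]
  · intro h0
    exact absurd hemp h0

end Pool.Agent.Lib.P0c8ca5.Gg
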