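import Mathlib
import Pool.Agent.Lib.P0c8ca5G.KrB
import Pool.Agent.Lib.P0c8ca5C.DzDown
import Pool.Agent.Lib.P0c8ca5S.Wgt

/-!
# Module KrC: no weights with `Q ⊓ N = ⊥` over a block of positive defect

PROOF of `wN_eq_zero`.  Suppose `γ` is a block of defect zero of `sec H Q` with `γ * proj Q f = γ`.  `f = c * f`, so
`proj Q f = proj Q c * proj Q f` (`proj_mul`, P0c8ca5.Sect; `c`, `f` are `Q`-invariant; write `f = f * c` too, they commute), so
`γ * proj Q c = γ ≠ 0`.  `e₁ = proj Q c` is an idempotent of the centre of `k (sec N Q)`, invariant under `sec H Q`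
(`proj_suppIn`, `proj_invBy'`).  It is the sum of the blocks `g` of `sec N Q` with `g * e₁ ≠ 0` (`sum_blocks` in P0c8ca5N.WSum, as used in
P0c8ca5Z.DzN for `card_dz_N`), so `γ * g ≠ 0` for a block `g` of `sec N Q` with `g * e₁ = g`.  `dz_down` (`sec N Q ≤ sec H Q`
normal): `IsDZ p (sec N Q) g`.
`Q` normalizes `N` and `N ⊓ Q = ⊥`, so `sec N Q ≅ N ⊓ C(Q) =: C` by `exists_isoN` (`WgtAux`, P0c8ca5S.Wgt), and `proj Q c` corresponds to
`cS Q c` (`tr_proj_N`).  So `g` corresponds (`tr_isBlock`, `tr_isDZ`-like lemmas of P0c8ca5.Transport / DzOf) to a block `g'` of defect zero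
of `C` with `g' * cS Q c = g'`.  `dgn_surj` (P0c8ca5.DGN, `L := N`, `D := Q`): `g' = cS Q e'` with `IsDZ p N e'`, `InvBy Q e'`.
`cS Q (c * e') = cS Q c * cS Q e' = g' ≠ 0` (`resS_mul`), so `c * e' ≠ 0`, and both are blocks of `N`: `c = e'`
(`IsBlock.eq_or_mul_eq_zero`).  So `IsDZ p N c`, but `HasBr P c` with `P ≠ ⊥`.

PROOF of `Fam.bw_zero`.  `Fam.bw_eq` and `wN_eq_zero`.

PROOF of `Fam.bl_eq`.  The terms of `Bl` and `Bw` for `σ ≠ ∅` are equal by `hw` (`Cy.WEq` is this equality), and the terms for `σ = ∅`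
are `|H| * card (IrX H f)` and `Fr.Ws p H f` (`stab H ∅ = H`, `cS ⊥ f = f`).  `Bw p H D f = 0`.
-/

set_option autoImplicit false

namespace Pool.Agent.Lib.P0c8ca5.Gg

open MonoidAlgebra Ps Bq Zz

variable {p : ℕ} {k : Type*} [Field k] {A : Type*} [Group A]

namespace KrCAux

theorem sec_norm {H N Q : Subgroup A} (hn : H ≤ Subgroup.normalizer (N : Set A)) :
    sec H Q ≤ Subgroup.normalizer (sec N Q : Set (NQ Q)) := by
  have key : ∀ u ∈ sec H Q, ∀ v ∈ sec N Q, u * v * u⁻¹ ∈ sec N Q := by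
    intro u hu v hv
    obtain ⟨h, hh, hh', rfl⟩ := mem_sec.1 hu
    obtain ⟨z, hz, hz', rfl⟩ := mem_sec.1 hv
    exact qm_mem_sec (x := h * z * h⁻¹) ((Subgroup.normalizer (Q : Set A)).mul_mem
        ((Subgroup.normalizer (Q : Set A)).mul_mem hh' hz')
        ((Subgroup.normalizer (Q : Set A)).inv_mem hh'))
        ((Subgroup.mem_normalizer_iff.1 (hn hh) z).1 hz)
  intro u hu
  rw [Subgroup.mem_normalizer_iff]
  intro v
  constructor
  · exact key u hu v
  · intro h1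
    have h2 := key u⁻¹ ((sec H Q).inv_mem hu) _ h1
    have e1 : u⁻¹ * (u * v * u⁻¹) * u⁻¹⁻¹ = v := by group
    rwa [e1] at h2

end KrCAux

theorem wN_eq_zero [Fact p.Prime] [CharP k p] [IsAlgClosed k] [Fintype A] {H N : Subgroup A}
    (hNH : N ≤ H) (hn : H ≤ Subgroup.normalizer (N : Set A)) {c f : MonoidAlgebra k A}
    (hc : IsBlock N c) (hci : InvBy H c) {P : Subgroup A} (hPN : P ≤ N) (hP : IsPGroup p P)
    (hP1 : P ≠ ⊥) (hbr : HasBr P c) (hf : f ∈ fixAlg k H H) (hcf : c * f = f)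
    {Q : Subgroup A} (hQH : Q ≤ H) (hQ : IsPGroup p Q) (hQN : Q ⊓ N = ⊥) :
    Fg.wN p H Q f = 0 := by
  classical
  have : Fintype (NQ Q) := Fintype.ofFinite _
  unfold Fg.wN
  rw [Nat.card_eq_zero]
  left
  constructor
  rintro ⟨γ, hγ, hγf⟩
  have hcQ : InvBy Q c := hci.mono hQH
  have hfQ : InvBy Q f := (mem_fixAlg.1 hf).2.mono hQH
  have hcomm : c * f = f * c :=
    commute_of (fun x hx => hNH (hc.suppIn x hx)) (mem_fixAlg.1 hf).2
  have h1 : proj Q f * proj Q c = proj Q f := by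
    rw [← proj_mul hQ hfQ hcQ, ← hcomm, hcf]
  have hγc : γ * proj Q c = γ := by
    calc γ * proj Q c = (γ * proj Q f) * proj Q c := by rw [hγf]
      _ = γ * (proj Q f * proj Q c) := by rw [mul_assoc]
      _ = γ := by rw [h1, hγf]
  -- the idempotent `proj Q c`
  have hQN' : Q ≤ Subgroup.normalizer (N : Set A) := hQH.trans hn
  have hNQ : N ⊓ Q = ⊥ := by rw [inf_comm]; exact hQN
  have hes : SuppIn (sec N Q) (proj Q c) := proj_suppIn hc.suppIn Q
  have hei : InvBy (sec H Q) (proj Q c) := proj_invBy' hci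
  have hNHs : sec N Q ≤ sec H Q := sec_mono hNH
  have hem : proj Q c ∈ fixAlg k (sec N Q) (sec N Q) := mem_fixAlg.2 ⟨hes, hei.mono hNHs⟩
  have hee : proj Q c * proj Q c = proj Q c := by
    rw [← proj_mul hQ hcQ hcQ, hc.idem]
  have hfin : {b : MonoidAlgebra k (NQ Q) | IsBlock (sec N Q) b ∧ b * proj Q c ≠ 0}.Finite :=
    (finite_isBlock (sec N Q)).subset fun b hb => hb.1
  have hsum := WSumAux.sum_blocks (p := p) hem hee hfin.toFinset (fun b => hfin.mem_toFinset)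
  -- a block below
  obtain ⟨g, hg, hgc, hγg⟩ : ∃ g, IsBlock (sec N Q) g ∧ g * proj Q c ≠ 0 ∧ γ * g ≠ 0 := by
    by_contra hcon
    push Not at hcon
    apply hγ.blk.ne_zero
    rw [← hγc, ← hsum, Finset.mul_sum]
    refine Finset.sum_eq_zero (fun b hb => ?_)
    obtain ⟨hb1, hb2⟩ := hfin.mem_toFinset.1 hb
    exact hcon b hb1 hb2
  have hnorm : sec H Q ≤ Subgroup.normalizer (sec N Q : Set (NQ Q)) := KrCAux.sec_norm hn
  have hgz : IsDZ p (sec N Q) g := Cy.dz_down hNHs hnorm hγ hg hγg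
  have hgc' : proj Q c * g = g := by
    rcases hg.mul_eq hem hee with h | h
    · exfalso
      apply hgc
      rw [commute_of hg.suppIn (mem_fixAlg.1 hem).2, h]
    · exact h
  -- transport to `N ⊓ C(Q)`
  obtain ⟨ψ, hψ⟩ := WgtAux.exists_isoN hQN' hNQ
  have htr := WgtAux.tr_proj_N hQN' hNQ hc.suppIn hψ
  have hg' := tr_isDZ (p := p) ψ.symm hgz
  obtain ⟨e', he', he'Q, -, hres⟩ := dgn_surj hQ hQN' hNQ hg'
  have h2 : resS (Subgroup.centralizer (Q : Set A) : Set A) (c * e') =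
      resS (Subgroup.centralizer (Q : Set A) : Set A) c * tr ψ.symm g := by
    rw [resS_mul hQ hcQ he'Q, hres]
  have h3 : tr ψ (resS (Subgroup.centralizer (Q : Set A) : Set A) c * tr ψ.symm g) = g := by
    rw [tr_mul ψ (resS_suppIn' hc.suppIn) (tr_suppIn ψ.symm g), htr,
      tr_tr_symm ψ hgz.blk.suppIn, hgc']
  have hne : c * e' ≠ 0 := by
    intro h0
    apply hg.ne_zero
    rw [← h3, ← h2, h0, resS_zero, tr_zero]
  rcases hc.eq_or_mul_eq_zero he'.blk with h | h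
  · rw [← h] at he'
    exact hP1 (he'.dz P hPN hP hbr)
  · exact hne h

/-- **the relative chain formula**: the alternating sum of the numbers of weights over the chains in a normal
subgroup `N` vanishes if `f` lies over a block of positive defect of `N` -/
theorem Fam.bw_zero [Fact p.Prime] [CharP k p] [IsAlgClosed k] [Fintype A] {H N : Subgroup A}
    {D : Finset (Subgroup A)} (h : Fam p H N D) (hNH : N ≤ H)
    (hn : H ≤ Subgroup.normalizer (N : Set A)) {c f : MonoidAlgebra k A}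
    (hc : IsBlock N c) (hci : InvBy H c) {P : Subgroup A} (hPN : P ≤ N) (hP : IsPGroup p P)
    (hP1 : P ≠ ⊥) (hbr : HasBr P c) (hf : f ∈ fixAlg k H H) (hcf : c * f = f) :
    Bw p H D f = 0 := by
  classical
  rw [h.bw_eq hNH hn (mem_fixAlg.1 hf).2]
  refine Finset.sum_eq_zero (fun Q hQ => ?_)
  obtain ⟨-, hQH, hQp, hQN⟩ := Finset.mem_filter.1 hQ
  rw [wN_eq_zero hNH hn hc hci hPN hP hP1 hbr hf hcf hQH hQp hQN, mul_zero]
  rfl

theorem Fam.bl_eq [Fact p.Prime] [CharP k p] [IsAlgClosed k] [Fintype A] {H N : Subgroup A}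
    {D : Finset (Subgroup A)} (h : Fam p H N D) (hNH : N ≤ H)
    (hn : H ≤ Subgroup.normalizer (N : Set A)) {c f : MonoidAlgebra k A}
    (hc : IsBlock N c) (hci : InvBy H c) {P : Subgroup A} (hPN : P ≤ N) (hP : IsPGroup p P)
    (hP1 : P ≠ ⊥) (hbr : HasBr P c) (hf : f ∈ fixAlg k H H) (hcf : c * f = f)
    (hw : ∀ σ ∈ Ch D, σ.Nonempty → Cy.WEq p (stab H σ) (cS (σ.sup id) f)) :
    ((Nat.card H * Nat.card (IrX H f) : ℕ) : ℤ) - (Fr.Ws p H f : ℤ) = Bl H D f := by
  classical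
  have h0 := h.bw_zero hNH hn hc hci hPN hP hP1 hbr hf hcf
  have hemp : (∅ : Finset (Subgroup A)) ∈ Ch D := by
    rw [InvAux.mem_Ch]
    refine ⟨Finset.empty_subset _, ?_⟩
    rw [Finset.coe_empty]
    exact Set.pairwise_empty _
  have h1 : Bl H D f - Bw p H D f = ((Nat.card H * Nat.card (IrX H f) : ℕ) : ℤ) -
      (Fr.Ws p H f : ℤ) := by
    unfold Bl Bw
    rw [← Finset.sum_sub_distrib, Finset.sum_eq_single_of_mem _ hemp]
    · rw [Finset.card_empty, pow_zero, one_mul, one_mul, Finset.sup_empty, stab_empty,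
        cS_bot]
    · intro σ hσ hne
      have h2 := hw σ hσ (Finset.nonempty_iff_ne_empty.2 hne)
      unfold Cy.WEq at h2
      rw [h2, sub_self]
  rw [h0, sub_zero] at h1
  exact h1.symm

end Pool.Agent.Lib.P0c8ca5.Gg
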