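import Mathlib
import Pool.Agent.Lib.P0c8ca5G.KrC
import Pool.Agent.Lib.P0c8ca5G.FamAll
import Pool.Agent.Lib.P0c8ca5G.BelowP
import Pool.Agent.Lib.P0c8ca5K.KMain

/-!
# Module SitA: the situation over a normal subgroup with a block of positive defect

`Sit p V c b`: the block `b` of `A` lies over the `A`-invariant block `c` of positive defect of the normal subgroup `V` that contains the
centre, `O_p(A) = 1`, the normal p'-subgroups of `A` are central, and the weight conjecture holds for the blocks under `b` of the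
smaller groups (`BelowP`).

PROOF of `Sit.center_prime`.  A Sylow p-subgroup of the centre is normal in `A` (it is characteristic in an abelian normal subgroup; or: the set of
the elements of p-power order of the centre is a subgroup, normal in `A`), so trivial by `core`.
PROOF of `Sit.center_le_stab`.  A central element normalizes every subgroup.
PROOF of `Sit.stab_ne`.  The least member `Q₁` of `σ` (`exists_least`) would be normalized by `A`, so normal, so `⊥` (`core`), against `h.ne`.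
PROOF of `Sit.stab_ne'`.  `stab Y σ ≤ stab ⊤ σ`.
PROOF of `Sit.bl_eq`.  `Fam.bl_eq` for `H = Y`, `N = V`: `Fam p Y V D` from `Fam p ⊤ V D` (monotone in the first group: `conj` and the closure clause only).
`hw`: `BelowC.weq` for `stab Y σ` (contains the centre, is not `⊤`), `cS (sup σ) f` is in `fixAlg` and idempotent (as in the proof of `chain_facts`:
`sup σ` is a p-group in `V ≤ Y`, normalized by `stab Y σ`, `f` is `Y`-invariant; the support is in `stab Y σ` as `C_Y(sup σ) ≤ stab Y σ`).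
PROOF of `Sit.bl_zero`.  `Sit.bl_eq` and `BelowC.weq` for `Y`.
PROOF of `Sit.navarro_iff`.  `navarro_iff_Ws` (P0c8ca5K.KMain) and `Sit.bl_eq` for `Y = ⊤`, `f = b` (`Nat.card ⊤ = Nat.card A`).
-/

set_option autoImplicit false

namespace Pool.Agent.Lib.P0c8ca5.Gg

open MonoidAlgebra Ps Bq Zz

universe u v

variable {p : ℕ} {k : Type v} [Field k] {A : Type u} [Group A]

/-- the block `b` lies over the invariant block `c` of positive defect of `V` -/
structure Sit (p : ℕ) {k : Type v} [Field k] {A : Type u} [Group A] (V : Subgroup A)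
    (c b : MonoidAlgebra k A) : Prop where
  blk : IsBlock ⊤ b
  core : ∀ P : Subgroup A, P.Normal → IsPGroup p P → P = ⊥
  cent : ∀ N : Subgroup A, N.Normal → ¬ p ∣ Nat.card N → N ≤ Subgroup.center A
  nV : V.Normal
  zV : Subgroup.center A ≤ V
  cblk : IsBlock V c
  cinv : InvBy ⊤ c
  cb : c * b = b
  br : ∃ P : Subgroup A, P ≤ V ∧ IsPGroup p P ∧ P ≠ ⊥ ∧ HasBr P c
  below : BelowP p k A b

variable {V : Subgroup A} {c b : MonoidAlgebra k A} {D : Finset (Subgroup A)}

theorem Sit.center_prime [Fact p.Prime] [Finite A] (h : Sit p V c b) :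
    ¬ p ∣ Nat.card (Subgroup.center A) := by
  classical
  intro hp
  let P : Subgroup A :=
    { carrier := {x | x ∈ Subgroup.center A ∧ ∃ n : ℕ, x ^ p ^ n = 1}
      one_mem' := ⟨one_mem _, 0, by simp⟩
      mul_mem' := by
        rintro x y ⟨hx, n, hn⟩ ⟨hy, m, hm⟩
        refine ⟨mul_mem hx hy, n + m, ?_⟩
        have hc : Commute x y := Subgroup.mem_center_iff.1 hy x
        have h1 : x ^ p ^ (n + m) = 1 := by rw [pow_add, pow_mul, hn, one_pow]
        have h2 : y ^ p ^ (n + m) = 1 := by rw [add_comm, pow_add, pow_mul, hm, one_pow]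
        rw [hc.mul_pow, h1, h2, one_mul]
      inv_mem' := by
        rintro x ⟨hx, n, hn⟩
        exact ⟨inv_mem hx, n, by rw [inv_pow, hn, inv_one]⟩ }
  have hP1 : P.Normal := by
    refine ⟨?_⟩
    rintro x ⟨hx, n, hn⟩ g
    have e : g * x * g⁻¹ = x := by
      rw [Subgroup.mem_center_iff.1 hx g, mul_inv_cancel_right]
    rw [e]
    exact ⟨hx, n, hn⟩
  have hP2 : IsPGroup p P := by
    rintro ⟨x, hx, n, hn⟩
    exact ⟨n, Subtype.ext hn⟩
  have hP3 := h.core P hP1 hP2
  obtain ⟨x, hx⟩ := exists_prime_orderOf_dvd_card' p hp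
  have hx1 : (x : A) ∈ P := by
    refine ⟨x.2, 1, ?_⟩
    rw [pow_one]
    have h1 := pow_orderOf_eq_one x
    rw [hx] at h1
    exact congrArg Subtype.val h1
  rw [hP3, Subgroup.mem_bot] at hx1
  have hx2 : x = 1 := Subtype.ext hx1
  rw [hx2, orderOf_one] at hx
  exact (Fact.out : p.Prime).one_lt.ne hx

theorem Sit.center_le_stab {Y : Subgroup A} (hY : Subgroup.center A ≤ Y)
    (σ : Finset (Subgroup A)) : Subgroup.center A ≤ stab Y σ := by
  intro x hx
  rw [mem_stab]
  refine ⟨hY hx, fun Q _ => ?_⟩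
  rw [Subgroup.mem_normalizer_iff]
  intro y
  have e : x * y * x⁻¹ = y := by
    rw [← Subgroup.mem_center_iff.1 hx y, mul_inv_cancel_right]
  rw [e]

theorem Sit.stab_ne [Finite A] (h : Sit p V c b) (hD : Fam p ⊤ V D)
    {σ : Finset (Subgroup A)} (hσ : σ ∈ Ch D) (hne : σ.Nonempty) (Y : Subgroup A) :
    stab Y σ ≠ ⊤ := by
  intro htop
  obtain ⟨hσD, -⟩ := InvAux.mem_Ch.1 hσ
  obtain ⟨Q, hQ⟩ := hne
  have hQn : Q.Normal := by
    refine ⟨fun x hx g => ?_⟩
    have hg : g ∈ stab Y σ := by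
      rw [htop]
      exact Subgroup.mem_top g
    exact (Subgroup.mem_normalizer_iff.1 ((mem_stab.1 hg).2 Q hQ) x).1 hx
  exact hD.ne Q (hσD hQ) (h.core Q hQn (hD.pgrp Q (hσD hQ)))

/-- `|Y| (l - w)` is the alternating sum -/
theorem Sit.bl_eq [Fact p.Prime] [CharP k p] [IsAlgClosed k] [Fintype A] (h : Sit p V c b)
    (hD : Fam p ⊤ V D) {Y : Subgroup A} (hVY : V ≤ Y) {f : MonoidAlgebra k A}
    (hf : f ∈ fixAlg k Y Y) (hff : f * f = f) (hcf : c * f = f) (hbf : f * b = f) :
    ((Nat.card Y * Nat.card (IrX Y f) : ℕ) : ℤ) - (Fr.Ws p Y f : ℤ) = Bl Y D f := by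
  classical
  obtain ⟨P, hPV, hPp, hP1, hbr⟩ := h.br
  have hn : Y ≤ Subgroup.normalizer (V : Set A) := by
    intro g _
    rw [Subgroup.mem_normalizer_iff]
    intro x
    constructor
    · intro hx
      exact h.nV.conj_mem x hx g
    · intro hx
      have h1 := h.nV.conj_mem _ hx g⁻¹
      have e : g⁻¹ * (g * x * g⁻¹) * g⁻¹⁻¹ = x := by group
      rwa [e] at h1
  have hDY : Fam p Y V D := by
    refine ⟨hD.le, hD.pgrp, hD.ne, fun g _ => hD.conj g (Subgroup.mem_top g), hD.sup, ?_⟩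
    obtain ⟨cl, hcl⟩ := hD.plus
    refine ⟨cl, fun R h1 h2 h3 => ?_⟩
    obtain ⟨a1, a2, a3, a4⟩ := hcl R h1 h2 h3
    exact ⟨a1, a2, fun g _ => a3 g (Subgroup.mem_top g), a4⟩
  refine hDY.bl_eq hVY hn h.cblk (h.cinv.mono le_top) hPV hPp hP1 hbr hf hcf ?_
  intro σ hσ hne
  obtain ⟨hσD, hch⟩ := InvAux.mem_Ch.1 hσ
  have hSσ : σ.sup id ∈ σ := sup_mem_chain hne hch
  have hctx : Ctx p Y (stab Y σ) (σ.sup id) f :=
    { hHX := inf_le_left
      hS := hD.pgrp _ (hσD hSσ)
      hHS := fun x hx => (mem_stab.1 hx).2 _ hSσ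
      hCS := by
        intro x hx
        rw [mem_stab]
        refine ⟨hx.1, fun R hR => ?_⟩
        have hRS : R ≤ σ.sup id := Finset.le_sup (f := id) hR
        exact Subgroup.centralizer_le_normalizer _ (Subgroup.centralizer_le hRS hx.2)
      supp := (mem_fixAlg.1 hf).1
      inv := (mem_fixAlg.1 hf).2 }
  refine h.below.weq h.center_prime (Sit.center_le_stab (h.zV.trans hVY) σ)
    (h.stab_ne hD hσ hne Y) (mem_fixAlg.2 ⟨hctx.cS_supp, hctx.cS_inv⟩)
    (hctx.cS_idem ((hD.le _ (hσD hSσ)).trans hVY) hff) ?_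
  intro Q hQY hQ hbrQ
  exact hasBr_of_mul hQ ((mem_fixAlg.1 hf).2.mono (hQY.trans inf_le_left))
    (h.blk.invBy.mono le_top) hbf (hasBr_cS hbrQ)

theorem Sit.bl_zero [Fact p.Prime] [CharP k p] [IsAlgClosed k] [Fintype A] (h : Sit p V c b)
    (hD : Fam p ⊤ V D) {Y : Subgroup A} (hVY : V ≤ Y) (hY : Y ≠ ⊤) {f : MonoidAlgebra k A}
    (hf : f ∈ fixAlg k Y Y) (hff : f * f = f) (hcf : c * f = f) (hbf : f * b = f) :
    Bl Y D f = 0 := by
  rw [← h.bl_eq hD hVY hf hff hcf hbf]
  have h1 := h.below.weq h.center_prime (h.zV.trans hVY) hY hf hff (fun Q hQY hQ hbrQ =>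
    hasBr_of_mul hQ ((mem_fixAlg.1 hf).2.mono hQY) (h.blk.invBy.mono le_top) hbf hbrQ)
  unfold Cy.WEq at h1
  rw [h1, sub_self]

theorem Sit.navarro_iff [Fact p.Prime] [CharP k p] [IsAlgClosed k] [Fintype A]
    (h : Sit p V c b) (hD : Fam p ⊤ V D) : NavarroEq p ⊤ ⊤ b ↔ Bl ⊤ D b = 0 := by
  rw [Kr.navarro_iff_Ws h.blk, ← h.bl_eq hD le_top h.blk.mem h.blk.idem h.cb h.blk.idem,
    sub_eq_zero,
    Subgroup.card_top]
  constructor
  · intro h1
    exact_mod_cast h1
  · intro h1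
    exact_mod_cast h1

end Pool.Agent.Lib.P0c8ca5.Gg
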