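import Mathlib
import Pool.Agent.Lib.P0c8ca5G.SitA
import Pool.Agent.Lib.P0c8ca5J.PsA
import Pool.Agent.Lib.P0c8ca5U.UntD

/-!
# The inner elements normalize the components
-/

set_option autoImplicit false

namespace Pool.Agent.Lib.P0c8ca5.Gg

open MonoidAlgebra Ps Bq Zz Jj Un8

universe u v

variable {p : ℕ} {k : Type v} [Field k] {A : Type u} [Group A] {V : Subgroup A}
  {c b : MonoidAlgebra k A}

theorem Sit.uh (h : Sit p V c b) : UH V ⊤ c :=
  ⟨le_top, by
    have := h.nV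
    rw [Subgroup.normalizer_eq_top], h.cblk, h.cinv⟩

theorem Sit.rd (h : Sit p V c b) : Rd p A := ⟨h.core, h.cent⟩

/-- `V = E C_V(E)` and `E ⊓ C_V(E) ≤ Z` -/
theorem cmp_fac [Fact p.Prime] [Finite A] (hR : Rd p A) (hV : MinN V) {E : Subgroup A}
    (hE : Cmp V E) : Fac V E (V ⊓ Subgroup.centralizer (E : Set A)) (Subgroup.center A) := by
  have key : ∀ x ∈ V, ∃ e ∈ E, ∃ r ∈ V ⊓ Subgroup.centralizer (E : Set A), x = e * r := by
    intro x hx
    obtain ⟨e, he, r, hr, h3⟩ := mem_sup_of_commute (fun y hy z hz =>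
      (Subgroup.mem_centralizer_iff.1 hz y hy).symm) _ (hV.le_sup_centralizer hR hE hx)
    refine ⟨e, he, r, ⟨?_, hr⟩, h3.symm⟩
    have h4 : r = e⁻¹ * x := by rw [← h3]; group
    rw [h4]
    exact V.mul_mem (V.inv_mem (hE.le he)) hx
  refine ⟨hE.le, inf_le_left, key, ?_, ?_⟩
  · intro e he r hr
    exact Subgroup.mem_centralizer_iff.1 hr.2 e he
  · rintro z ⟨hzE, hzV, hzC⟩
    rw [← hV.inf_centralizer hR]
    refine ⟨hzV, Subgroup.mem_centralizer_iff.2 ?_⟩
    intro x hx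
    obtain ⟨e, he, r, hr, rfl⟩ := key x hx
    have h1 := Subgroup.mem_centralizer_iff.1 hzC e he
    have h2 := Subgroup.mem_centralizer_iff.1 hr.2 z hzE
    rw [mul_assoc, ← h2, ← mul_assoc, h1, mul_assoc]

theorem inf_cmp [Fact p.Prime] [Finite A] (hR : Rd p A) (hV : MinN V) {u : A} (hu : u ∈ V)
    (h : ∀ F : {E // Cmp V E}, u ∈ V ⊓ Subgroup.centralizer (F.1 : Set A)) :
    u ∈ Subgroup.center A := by
  rw [← hV.inf_centralizer hR]
  refine ⟨hu, Subgroup.mem_centralizer_iff.2 ?_⟩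
  have h3 : V ≤ Subgroup.centralizer {u} := by
    conv_lhs => rw [hV.eq_sup_cmp hR]
    refine sup_le (fun z hz => ?_) (iSup_le fun F y hy => ?_)
    · rw [Subgroup.mem_centralizer_iff]
      rintro w hw
      rw [Set.mem_singleton_iff] at hw
      rw [hw]
      exact Subgroup.mem_center_iff.1 hz _
    · rw [Subgroup.mem_centralizer_iff]
      rintro w hw
      rw [Set.mem_singleton_iff] at hw
      rw [hw]
      exact (Subgroup.mem_centralizer_iff.1 (h F).2 y hy).symm
  intro y hy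
  exact (Subgroup.mem_centralizer_iff.1 (h3 hy) _ rfl).symm

/-- the inner elements normalize the components -/
theorem Sit.unt_le_ker [Fact p.Prime] [CharP k p] [Fintype A] (h : Sit p V c b) (hV : MinN V)
    {E : Subgroup A} (hE : Cmp V E) : h.uh.unt ≤ Ker E := by
  have hR := h.rd
  have hZ := hR.not_dvd_center
  obtain ⟨P, hPV, hP, hP1, hPb⟩ := h.br
  obtain ⟨i, Q, hQE, hQ, hQ1, hQb⟩ := exists_fac_br (ι := {E // Cmp V E}) (E := fun F => F.1)
    (R := fun F => V ⊓ Subgroup.centralizer (F.1 : Set A)) (fun F => cmp_fac hR hV F.2) hZ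
    (fun u hu h => inf_cmp hR hV hu h) h.cblk.suppIn hPV hP hP1 hPb
  have h1 : h.uh.unt ≤ Subgroup.normalizer (i.1 : Set A) := by
    refine h.uh.unt_le_normalizer (Q := Q) i.2.le i.2.nor hQE hQ hQb ?_
    intro g _ hg
    -- `g` centralizes `Q`
    by_contra hcon
    have hne : i.1 ≠ cg g i.1 := by
      intro h0
      apply hcon
      rw [Subgroup.mem_normalizer_iff]
      intro x
      have h2 : x ∈ i.1 ↔ g⁻¹⁻¹ * x * g⁻¹ ∈ i.1 := by
        rw [← mem_cj (g := g⁻¹)]
        conv_rhs => rw [h0, Jj.cj_inv_cj]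
      rw [h2, inv_inv]
    have hcom := hV.commute hR i.2 (i.2.cg hV.normal g) hne
    apply hQ1
    apply hR.core Q ?_ hQ
    -- `Q` is central
    have hQc : Q ≤ Subgroup.center A := by
      intro u hu
      have hu' : u ∈ cg g i.1 := by
        rw [mem_cj]
        have h3 := Subgroup.mem_centralizer_iff.1 hg u hu
        have h4 : g⁻¹ * u * g = u := by rw [mul_assoc, h3]; group
        rw [h4]
        exact hQE hu
      apply (cmp_fac hR hV i.2).inf
      refine ⟨hQE hu, i.2.le (hQE hu), Subgroup.mem_centralizer_iff.2 ?_⟩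
      intro y hy
      exact hcom y hy u hu'
    exact normal_of_cen hQc
  -- conjugates
  have h2 : ∀ g : A, g ∈ Subgroup.normalizer (h.uh.unt : Set A) := fun g =>
    h.uh.norm_unt (Subgroup.mem_top g)
  have h3 : h.uh.unt ≤ Ker i.1 := by
    intro x hx
    rw [Ker.mem_iff]
    intro g
    apply h1
    have h4 := (Subgroup.mem_normalizer_iff.1 (h2 g⁻¹) x).1 hx
    rwa [inv_inv] at h4
  obtain ⟨g, rfl⟩ := hV.conj hR i.2 hE
  intro x hx
  have h4 := h3 hx
  rw [Ker.mem_iff] at h4 ⊢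
  intro g'
  rw [← cg_normalizer, mem_cj]
  have h5 := h4 (g' * g)
  have e : g⁻¹ * (g'⁻¹ * x * g') * g = (g' * g)⁻¹ * x * (g' * g) := by group
  rw [e]
  exact h5

end Pool.Agent.Lib.P0c8ca5.Gg
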