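import Mathlib
import Pool.Agent.Lib.P0c8ca5G.Defs

/-!
# Module OrbP: counting p-regular orbits

PROOF of `sum_orbP`.  Copy the proof of `sum_orb` in P0c8ca5Z.Orb (with `OrbAux`); the hypothesis `hp` is not needed for the `x` with
`Prm p N x`: `hX.ex z` needs only `Prm p N z`.  At the end, for `x ∈ X`: if `y z y⁻¹ x⁻¹ ∈ N` with `y, z ∈ Y` then `z` is p-regular modulo
`N`, because `x` is (`hX.sub`): `(y z y⁻¹) ^ m ∈ N x ^ m` modulo the normal subgroup `N` of `Y`.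
PROOF of `sum_prsP`.  As `sum_prs` in P0c8ca5Z.Orb, with the additional condition on `x`.
-/

set_option autoImplicit false

namespace Pool.Agent.Lib.P0c8ca5.Gg

open MonoidAlgebra Ps Bq Zz

variable {p : ℕ} {A : Type*} [Group A]

namespace OrbPAux

open OrbAux

theorem pow_mul_mem {N Y : Subgroup A} (hn : Y ≤ Subgroup.normalizer (N : Set A)) {x w : A}
    (hx : x ∈ Y) (hw : w * x⁻¹ ∈ N) (m : ℕ) : w ^ m * (x ^ m)⁻¹ ∈ N := by
  induction m with
  | zero => simp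
  | succ m ih =>
    have h1 := conj_mem hn (Y.pow_mem hx m) hw
    have h2 := N.mul_mem ih h1
    have e : w ^ m * (x ^ m)⁻¹ * (x ^ m * (w * x⁻¹) * (x ^ m)⁻¹) = w ^ (m + 1) * (x ^ (m + 1))⁻¹ := by
      rw [pow_succ, pow_succ, mul_inv_rev]
      have h3 : x⁻¹ * (x ^ m)⁻¹ = x⁻¹ * (x ^ m)⁻¹ := rfl
      have : (x ^ m)⁻¹ * (x ^ m * (w * x⁻¹) * (x ^ m)⁻¹) = w * (x⁻¹ * (x ^ m)⁻¹) := by group
      rw [mul_assoc, this]
      group
    rwa [e] at h2

theorem prm_conj {N Y : Subgroup A} (hn : Y ≤ Subgroup.normalizer (N : Set A)) {x y z : A}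
    (hx : x ∈ Y) (hy : y ∈ Y) (h : y * z * y⁻¹ * x⁻¹ ∈ N) (hp : Prm p N x) : Prm p N z := by
  obtain ⟨m, hm, hxm⟩ := hp
  refine ⟨m, hm, ?_⟩
  have h1 := pow_mul_mem hn hx h m
  have h2 := N.mul_mem h1 hxm
  rw [inv_mul_cancel_right, conj_pow] at h2
  have h3 := conj_mem' hn hy h2
  have e : y⁻¹ * (y * z ^ m * y⁻¹) * y = z ^ m := by group
  rwa [e] at h3

end OrbPAux

open OrbAux OrbPAux

open Classical in
theorem sum_orbP [Fintype A] {N Y : Subgroup A} (hNY : N ≤ Y)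
    (hn : Y ≤ Subgroup.normalizer (N : Set A)) {X : Finset A} (hX : CReps p Y N X)
    {M : Type*} [AddCommMonoid M] (φ : A → M)
    (hφ : ∀ x ∈ Y, ∀ y ∈ Y, ∀ z ∈ Y, y * z * y⁻¹ * x⁻¹ ∈ N → φ z = φ x) :
    ∑ x ∈ Finset.univ.filter (fun x : A => x ∈ Y ∧ Prm p N x), Nat.card ↥(cx N Y hn x) • φ x
      = ∑ x ∈ X, (Nat.card N * Nat.card Y) • φ x := by
  have key : ∀ z ∈ Finset.univ.filter (fun x : A => x ∈ Y ∧ Prm p N x),
      Nat.card ↥(cx N Y hn z) • φ z
      = ∑ x ∈ X, ((Finset.univ.filter (fun y : A => y ∈ Y)).filter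
          (fun y => y * z * y⁻¹ * x⁻¹ ∈ N)).card • φ x := by
    intro z hz
    obtain ⟨hzY, hzP⟩ := (Finset.mem_filter.1 hz).2
    obtain ⟨x, hxX, y₀, hy₀, h0⟩ := hX.ex z hzY hzP
    have hxY : x ∈ Y := (hX.sub x hxX).1
    rw [Finset.sum_eq_single x]
    · rw [card_mov hn hy₀ h0, hφ x hxY y₀ hy₀ z hzY h0]
    · intro x' hx' hne
      have he : ((Finset.univ.filter (fun y : A => y ∈ Y)).filter
          (fun y => y * z * y⁻¹ * x'⁻¹ ∈ N)) = ∅ := by
        rw [Finset.filter_eq_empty_iff]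
        intro y hy hy2
        have hyY : y ∈ Y := (Finset.mem_filter.1 hy).2
        apply hne
        refine hX.uniq x' hx' x hxX (y₀ * y⁻¹) (Y.mul_mem hy₀ (Y.inv_mem hyY)) ?_
        have h1 : y₀ * (y⁻¹ * (y * z * y⁻¹ * x'⁻¹)⁻¹ * y) * y₀⁻¹ ∈ N :=
          conj_mem hn hy₀ (conj_mem' hn hyY (N.inv_mem hy2))
        have h2 := N.mul_mem h1 h0
        have e : y₀ * (y⁻¹ * (y * z * y⁻¹ * x'⁻¹)⁻¹ * y) * y₀⁻¹ * (y₀ * z * y₀⁻¹ * x⁻¹)
            = y₀ * y⁻¹ * x' * (y₀ * y⁻¹)⁻¹ * x⁻¹ := by group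
        rwa [e] at h2
      rw [he, Finset.card_empty, zero_smul]
    · intro h
      exact absurd hxX h
  rw [Finset.sum_congr rfl key, Finset.sum_comm]
  refine Finset.sum_congr rfl fun x hx => ?_
  obtain ⟨hxY, hxP⟩ := hX.sub x hx
  rw [← Finset.sum_smul]
  congr 1
  have h0 : ∑ z ∈ Finset.univ.filter (fun x : A => x ∈ Y ∧ Prm p N x),
      ((Finset.univ.filter (fun y : A => y ∈ Y)).filter (fun y => y * z * y⁻¹ * x⁻¹ ∈ N)).card
      = ∑ z ∈ Finset.univ.filter (fun x : A => x ∈ Y),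
      ((Finset.univ.filter (fun y : A => y ∈ Y)).filter
        (fun y => y * z * y⁻¹ * x⁻¹ ∈ N)).card := by
    refine Finset.sum_subset ?_ ?_
    · intro z hz
      rw [Finset.mem_filter] at hz ⊢
      exact ⟨hz.1, hz.2.1⟩
    · intro z hz hz'
      rw [Finset.card_eq_zero, Finset.filter_eq_empty_iff]
      intro y hy hy2
      apply hz'
      rw [Finset.mem_filter]
      exact ⟨Finset.mem_univ _, (Finset.mem_filter.1 hz).2,
        prm_conj hn hxY (Finset.mem_filter.1 hy).2 hy2 hxP⟩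
  rw [h0]
  simp only [Finset.card_filter (fun _ => _) (Finset.univ.filter (fun y : A => y ∈ Y))]
  rw [Finset.sum_comm]
  have h1 : ∀ y ∈ Finset.univ.filter (fun x : A => x ∈ Y),
      ∑ z ∈ Finset.univ.filter (fun x : A => x ∈ Y), (if y * z * y⁻¹ * x⁻¹ ∈ N then 1 else 0)
        = Nat.card N := by
    intro y hy
    rw [← card_src hNY hxY (Finset.mem_filter.1 hy).2, Finset.card_filter]
  rw [Finset.sum_congr rfl h1, Finset.sum_const, smul_eq_mul, mul_comm]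
  congr 1
  rw [Nat.card_eq_fintype_card, Fintype.card_subtype]

open Classical in
theorem sum_prsP [Fintype A] {N Y : Subgroup A} (hn : Y ≤ Subgroup.normalizer (N : Set A))
    {M : Type*} [AddCommMonoid M] (ψ : A → A → M) :
    ∑ z ∈ (prs N Y).filter (fun z => Prm p N z.1), ψ z.1 z.2
      = ∑ x ∈ Finset.univ.filter (fun x : A => x ∈ Y ∧ Prm p N x),
          ∑ y : ↥(cx N Y hn x), ψ x (y : A) := by
  have h := sum_prs hn (fun x y => if Prm p N x then ψ x y else 0)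
  rw [Finset.sum_filter, h]
  have h2 : Finset.univ.filter (fun x : A => x ∈ Y ∧ Prm p N x)
      = (Finset.univ.filter (fun x : A => x ∈ Y)).filter (fun x => Prm p N x) := by
    rw [Finset.filter_filter]
  conv_rhs => rw [h2, Finset.sum_filter]
  refine Finset.sum_congr rfl fun x _ => ?_
  by_cases hx : Prm p N x
  · simp only [if_pos hx]
  · simp only [if_neg hx, Finset.sum_const_zero]

end Pool.Agent.Lib.P0c8ca5.Gg
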