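import Mathlib

/-!
# Module Mono: the number of invariants of a monomial representation

`C` is a finite group (of any order) acting linearly on `W` with a basis `b` (indexed by `I`), `ρ g (b i) = l g i • b (π g i)`.

PROOF of `sum_mono`.  For `g, h ∈ C`: `l (g h) i = l g (π h i) * l h i` and `π (g h) = π g π h` (compare the coefficients in
`ρ (g h) (b i) = ρ g (ρ h (b i))`, all `l ≠ 0`), `l 1 i = 1`, `π 1 = id`.  Let `S i = {g | π g i = i}`, a subgroup on which `χ i = l · i` is
multiplicative; `i` is good if `χ i = 1` on `S i`.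
(1) `∑ g, ∑ i with π g i = i, teich (l g i) = ∑ i, ∑ g ∈ S i, teich (χ i g)`; for a good `i` the inner sum is `|S i|`, otherwise `0`: `teich` is
multiplicative and injective (`WittVector.teichmuller_coeff_zero`), if `χ i h ≠ 1` then `teich (χ i h) * sum = sum` and `WittVector p k` is an
integral domain.
(2) So the sum is `∑ (i good) |S i| = ∑ (good orbits O) |O| |S i| = |C| * (number of the good orbits)`; goodness is a property of the orbit
(`S (π g i) = g (S i) g⁻¹`, `χ (π g i) (g h g⁻¹) = χ i h`).
(3) `w = ∑ w i b i` is invariant iff `w (π g i) = l g i * w i` for all `g`, `i`.  So `w` is determined by its coordinates at representatives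
of the orbits, they vanish at the representatives that are not good, and the others are arbitrary: the space of the invariants is
isomorphic with the functions on the good orbits (`LinearEquiv`, `Module.finrank_pi`-like); the dimension is their number.
-/

set_option autoImplicit false

namespace Pool.Agent.Lib.P0c8ca5.Gg

namespace MonoAux

open Finset

section comb

variable {k : Type*} [Field k] {C : Type*} [Group C] {I : Type*} [MulAction C I]

/-- The cocycle condition. -/
structure Coc (l : C → I → k) : Prop where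
  mul : ∀ g h i, l (g * h) i = l g (h • i) * l h i
  ne : ∀ g i, l g i ≠ 0

variable {l : C → I → k}

/-- The stabiliser acts trivially. -/
def Good (l : C → I → k) (i : I) : Prop := ∀ g : C, g • i = i → l g i = 1

lemma Coc.good_smul (hl : Coc l) {i : I} (hi : Good l i) (h : C) : Good l (h • i) := by
  intro g hg
  have h1 : (h⁻¹ * g * h) • i = i := by
    rw [mul_smul, mul_smul, hg, inv_smul_smul]
  have h2 := hl.mul g h i
  have h3 : g * h = h * (h⁻¹ * g * h) := by group
  rw [h3, hl.mul h (h⁻¹ * g * h) i, h1, hi _ h1, mul_one] at h2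
  have h4 : 1 * l h i = l g (h • i) * l h i := by
    rw [one_mul]
    exact h2
  exact (mul_right_cancel₀ (hl.ne h i) h4).symm

lemma Coc.good_iff (hl : Coc l) (i : I) (h : C) : Good l (h • i) ↔ Good l i := by
  refine ⟨fun h1 => ?_, fun h1 => hl.good_smul h1 h⟩
  have := hl.good_smul h1 h⁻¹
  rwa [inv_smul_smul] at this

lemma Coc.indep (hl : Coc l) {j : I} (hj : Good l j) {a a' : C} (h : a • j = a' • j) : l a j = l a' j := by
  have h1 : (a'⁻¹ * a) • j = j := by
    rw [mul_smul, h, inv_smul_smul]
  have h2 := hl.mul a' (a'⁻¹ * a) j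
  rw [h1, hj _ h1, mul_one, mul_inv_cancel_left] at h2
  exact h2

/-- The good indices. -/
def goodSub (hl : Coc l) : SubMulAction C I where
  carrier := {i | Good l i}
  smul_mem' c _ hx := hl.good_smul hx c

/-- The orbits of the good indices. -/
abbrev Orb (hl : Coc l) : Type _ := Quotient (MulAction.orbitRel C (goodSub hl))

lemma exists_rep (hl : Coc l) (i : goodSub hl) :
    ∃ g : C, g • ((Quotient.out (Quotient.mk (MulAction.orbitRel C (goodSub hl)) i) : goodSub hl) : I) = i := by
  have h := Quotient.mk_out (s := MulAction.orbitRel C (goodSub hl)) i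
  have h2 : (Quotient.out (Quotient.mk (MulAction.orbitRel C (goodSub hl)) i)) ∈ MulAction.orbit C i := h
  obtain ⟨g, hg⟩ := h2
  refine ⟨g⁻¹, ?_⟩
  have h3 : g • (i : I) = ((Quotient.out (Quotient.mk (MulAction.orbitRel C (goodSub hl)) i) : goodSub hl) : I) := by
    rw [← hg]
    rfl
  rw [← h3, inv_smul_smul]

/-- The functions with the invariance property. -/
def inv (l : C → I → k) : Submodule k (I → k) where
  carrier := {w | ∀ g i, w (g • i) = l g i * w i}
  zero_mem' := fun g i => by simp
  add_mem' := fun {x y} hx hy g i => by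
    simp only [Pi.add_apply, hx g i, hy g i, mul_add]
  smul_mem' := fun c x hx g i => by
    simp only [Pi.smul_apply, smul_eq_mul, hx g i]
    ring

/-- Evaluation at the representatives. -/
noncomputable def ev (hl : Coc l) : inv l →ₗ[k] (Orb hl → k) where
  toFun w O := (w : I → k) ((Quotient.out O : goodSub hl) : I)
  map_add' _ _ := rfl
  map_smul' _ _ := rfl

lemma ev_injective (hl : Coc l) : Function.Injective (ev hl) := by
  rw [injective_iff_map_eq_zero]
  intro w hw
  ext i
  have hw2 : ∀ g i, (w : I → k) (g • i) = l g i * (w : I → k) i := w.2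
  by_cases hi : Good l i
  · obtain ⟨g, hg⟩ := exists_rep hl ⟨i, hi⟩
    have h1 := hw2 g ((Quotient.out (Quotient.mk (MulAction.orbitRel C (goodSub hl)) ⟨i, hi⟩) : goodSub hl) : I)
    rw [hg] at h1
    have h2 := congrFun hw (Quotient.mk (MulAction.orbitRel C (goodSub hl)) ⟨i, hi⟩)
    have h3 : (w : I → k) ((Quotient.out (Quotient.mk (MulAction.orbitRel C (goodSub hl)) ⟨i, hi⟩) : goodSub hl) : I)
      = 0 := h2
    rw [h3, mul_zero] at h1
    exact h1
  · unfold Good at hi
    push Not at hi
    obtain ⟨g, hg, hg1⟩ := hi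
    have h1 := hw2 g i
    rw [hg] at h1
    have h2 : (l g i - 1) * (w : I → k) i = 0 := by
      rw [sub_mul, one_mul, ← h1, sub_self]
    rcases mul_eq_zero.1 h2 with h3 | h3
    · exact absurd (sub_eq_zero.1 h3) hg1
    · exact h3

open Classical in
lemma ev_surjective (hl : Coc l) : Function.Surjective (ev hl) := by
  intro v
  choose γ hγ using exists_rep hl
  let w : I → k := fun i => if h : Good l i then
    l (γ ⟨i, h⟩) ((Quotient.out (Quotient.mk (MulAction.orbitRel C (goodSub hl)) ⟨i, h⟩) : goodSub hl) : I) *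
      v (Quotient.mk (MulAction.orbitRel C (goodSub hl)) ⟨i, h⟩) else 0
  have hw : w ∈ inv l := by
    intro g i
    by_cases hi : Good l i
    · have hgi : Good l (g • i) := hl.good_smul hi g
      have e1 : w (g • i) = l (γ ⟨g • i, hgi⟩)
          ((Quotient.out (Quotient.mk (MulAction.orbitRel C (goodSub hl)) ⟨g • i, hgi⟩) : goodSub hl) : I) *
          v (Quotient.mk (MulAction.orbitRel C (goodSub hl)) ⟨g • i, hgi⟩) := dif_pos hgi
      have e2 : w i = l (γ ⟨i, hi⟩)
          ((Quotient.out (Quotient.mk (MulAction.orbitRel C (goodSub hl)) ⟨i, hi⟩) : goodSub hl) : I) *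
          v (Quotient.mk (MulAction.orbitRel C (goodSub hl)) ⟨i, hi⟩) := dif_pos hi
      have e3 : (Quotient.mk (MulAction.orbitRel C (goodSub hl)) ⟨g • i, hgi⟩) =
          (Quotient.mk (MulAction.orbitRel C (goodSub hl)) ⟨i, hi⟩) :=
        Quotient.sound (s := MulAction.orbitRel C (goodSub hl)) ⟨g, rfl⟩
      have e4 := hγ ⟨g • i, hgi⟩
      have e5 := hγ ⟨i, hi⟩
      rw [e1, e2]
      rw [e3] at e4 ⊢
      set O := Quotient.mk (MulAction.orbitRel C (goodSub hl)) ⟨i, hi⟩ with hO
      have hj : Good l ((Quotient.out O : goodSub hl) : I) := (Quotient.out O : goodSub hl).2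
      have e6 : (γ ⟨g • i, hgi⟩) • ((Quotient.out O : goodSub hl) : I) =
          (g * γ ⟨i, hi⟩) • ((Quotient.out O : goodSub hl) : I) := by
        rw [mul_smul, e5]
        exact e4
      rw [hl.indep hj e6, hl.mul, e5, mul_assoc]
    · have hgi : ¬ Good l (g • i) := by
        rw [hl.good_iff]
        exact hi
      have e1 : w (g • i) = 0 := dif_neg hgi
      have e2 : w i = 0 := dif_neg hi
      rw [e1, e2, mul_zero]
  refine ⟨⟨w, hw⟩, ?_⟩
  funext O
  change w ((Quotient.out O : goodSub hl) : I) = v O
  have hj : Good l ((Quotient.out O : goodSub hl) : I) := (Quotient.out O : goodSub hl).2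
  have e1 : w ((Quotient.out O : goodSub hl) : I) = l (γ ⟨((Quotient.out O : goodSub hl) : I), hj⟩)
      ((Quotient.out (Quotient.mk (MulAction.orbitRel C (goodSub hl)) ⟨((Quotient.out O : goodSub hl) : I), hj⟩) :
        goodSub hl) : I) *
      v (Quotient.mk (MulAction.orbitRel C (goodSub hl)) ⟨((Quotient.out O : goodSub hl) : I), hj⟩) := dif_pos hj
  have e2 : Quotient.mk (MulAction.orbitRel C (goodSub hl)) ⟨((Quotient.out O : goodSub hl) : I), hj⟩ = O :=
    Quotient.out_eq O
  have e3 := hγ ⟨((Quotient.out O : goodSub hl) : I), hj⟩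
  rw [e2] at e1 e3
  rw [e1, hj _ e3, one_mul]

open Classical in
lemma finrank_inv [Fintype I] [Fintype C] (hl : Coc l) :
    Module.finrank k (inv l) = Fintype.card (Orb hl) := by
  rw [(LinearEquiv.ofBijective (ev hl) ⟨ev_injective hl, ev_surjective hl⟩).finrank_eq,
    Module.finrank_fintype_fun_eq_card]

open Classical in
lemma sum_stab {p : ℕ} [Fact p.Prime] [CharP k p] [Fintype C] (hl : Coc l) (i : I) :
    ∑ g ∈ univ.filter (fun g : C => g • i = i), WittVector.teichmuller p (l g i) =
      if Good l i then (((univ.filter (fun g : C => g • i = i)).card : ℕ) : WittVector p k) else 0 := by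
  split_ifs with hi
  · rw [card_eq_sum_ones, Nat.cast_sum]
    refine sum_congr rfl fun g hg => ?_
    rw [hi g (mem_filter.1 hg).2, map_one, Nat.cast_one]
  · unfold Good at hi
    push Not at hi
    obtain ⟨h, hh, hh1⟩ := hi
    set T0 := ∑ g ∈ univ.filter (fun g : C => g • i = i), WittVector.teichmuller p (l g i) with hS
    have h1 : WittVector.teichmuller p (l h i) * T0 = T0 := by
      rw [hS, mul_sum]
      refine sum_bij' (fun g _ => h * g) (fun g _ => h⁻¹ * g) ?_ ?_ ?_ ?_ ?_
      · intro g hg
        rw [mem_filter] at hg ⊢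
        refine ⟨mem_univ _, ?_⟩
        rw [mul_smul, hg.2, hh]
      · intro g hg
        rw [mem_filter] at hg ⊢
        refine ⟨mem_univ _, ?_⟩
        rw [mul_smul, hg.2]
        rw [inv_smul_eq_iff, hh]
      · intro g _
        group
      · intro g _
        group
      · intro g hg
        rw [hl.mul h g i, (mem_filter.1 hg).2, map_mul]
    have h2 : (WittVector.teichmuller p (l h i) - 1) * T0 = 0 := by
      rw [sub_mul, one_mul, h1, sub_self]
    rcases mul_eq_zero.1 h2 with h3 | h3
    · exfalso
      apply hh1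
      have h4 : WittVector.teichmuller p (l h i) = WittVector.teichmuller p 1 := by
        rw [map_one]
        exact sub_eq_zero.1 h3
      have h5 := congrArg (fun x : WittVector p k => x.coeff 0) h4
      simpa only [WittVector.teichmuller_coeff_zero] using h5
    · exact h3

open Classical in
lemma card_count [Fintype I] [Fintype C] (hl : Coc l) :
    ∑ i : I, (if Good l i then (univ.filter (fun g : C => g • i = i)).card else 0) =
      Fintype.card (Orb hl) * Fintype.card C := by
  rw [← MulAction.sum_card_fixedBy_eq_card_orbits_mul_card_group]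
  have h1 : ∀ i : I, (if Good l i then (univ.filter (fun g : C => g • i = i)).card else 0) =
      ∑ g : C, if Good l i ∧ g • i = i then 1 else 0 := by
    intro i
    by_cases hi : Good l i
    · simp only [hi, if_true, true_and]
      rw [card_filter]
    · simp only [hi, if_false, false_and, sum_const_zero]
  simp only [h1]
  rw [sum_comm]
  refine sum_congr rfl fun g _ => ?_
  rw [← card_filter]
  rw [← Fintype.card_coe]
  refine Fintype.card_congr ?_
  refine ⟨fun x => ⟨⟨x.1, (mem_filter.1 x.2).2.1⟩, Subtype.ext (mem_filter.1 x.2).2.2⟩,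
    fun y => ⟨y.1.1, mem_filter.2 ⟨mem_univ _, y.1.2, congrArg Subtype.val y.2⟩⟩, fun x => rfl, fun y => rfl⟩

open Classical in
lemma sum_comb {p : ℕ} [Fact p.Prime] [CharP k p] [Fintype I] [Fintype C] (hl : Coc l) :
    ∑ g : C, ∑ i ∈ univ.filter (fun i : I => g • i = i), WittVector.teichmuller p (l g i) =
      ((Fintype.card C * Module.finrank k (inv l) : ℕ) : WittVector p k) := by
  rw [finrank_inv hl, mul_comm, ← card_count hl]
  have h1 : ∑ g : C, ∑ i ∈ univ.filter (fun i : I => g • i = i), WittVector.teichmuller p (l g i) =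
      ∑ i : I, ∑ g ∈ univ.filter (fun g : C => g • i = i), WittVector.teichmuller p (l g i) := by
    refine sum_comm' fun g i => ?_
    simp only [mem_univ, mem_filter, true_and, and_true]
  rw [h1]
  push_cast
  refine sum_congr rfl fun i _ => ?_
  rw [sum_stab hl i]

end comb

section rep

variable {k : Type*} [Field k] {C : Type*} [Group C] {W : Type*} [AddCommGroup W] [Module k W]
  {ρ : Representation k C W} {I : Type*} {b : Module.Basis I k W} {π : C → I → I} {l : C → I → k}

lemma basis_eq {x y : k} {i j : I} (hx : x ≠ 0) (h : x • b i = y • b j) : i = j ∧ x = y := by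
  have h1 := congrArg b.repr h
  rw [map_smul, map_smul, b.repr_self, b.repr_self, Finsupp.smul_single, Finsupp.smul_single, smul_eq_mul,
    smul_eq_mul, mul_one, mul_one, Finsupp.single_eq_single_iff] at h1
  rcases h1 with h1 | h1
  · exact h1
  · exact absurd h1.1 hx

lemma mul_rule (hl : ∀ g i, l g i ≠ 0) (hρ : ∀ g i, ρ g (b i) = l g i • b (π g i)) (g h : C) (i : I) :
    π (g * h) i = π g (π h i) ∧ l (g * h) i = l g (π h i) * l h i := by
  have h1 : ρ (g * h) (b i) = (l g (π h i) * l h i) • b (π g (π h i)) := by
    rw [map_mul, Module.End.mul_apply, hρ h i, map_smul, hρ g (π h i), smul_smul, mul_comm]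
  rw [hρ] at h1
  exact basis_eq (hl _ _) h1

lemma one_rule (hl : ∀ g i, l g i ≠ 0) (hρ : ∀ g i, ρ g (b i) = l g i • b (π g i)) (i : I) :
    π 1 i = i := by
  have h1 : l 1 i • b (π 1 i) = (1 : k) • b i := by
    rw [← hρ, map_one, Module.End.one_apply, one_smul]
  exact (basis_eq (hl _ _) h1).1

/-- The action on the indices. -/
@[reducible] def act (hl : ∀ g i, l g i ≠ 0) (hρ : ∀ g i, ρ g (b i) = l g i • b (π g i)) : MulAction C I where
  smul g i := π g i
  one_smul i := one_rule hl hρ i
  mul_smul g h i := (mul_rule hl hρ g h i).1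

lemma repr_smul (hl : ∀ g i, l g i ≠ 0) (hρ : ∀ g i, ρ g (b i) = l g i • b (π g i)) (g : C) (i : I) (w : W) :
    b.repr (ρ g w) (π g i) = l g i * b.repr w i := by
  have hinj : ∀ i j, π g i = π g j → i = j := by
    intro i j h
    have h1 := congrArg (π g⁻¹) h
    rwa [← (mul_rule hl hρ g⁻¹ g i).1, ← (mul_rule hl hρ g⁻¹ g j).1, inv_mul_cancel, one_rule hl hρ,
      one_rule hl hρ] at h1
  have h1 : (Finsupp.lapply (π g i)) ∘ₗ b.repr.toLinearMap ∘ₗ (ρ g) =
      (l g i) • ((Finsupp.lapply i) ∘ₗ b.repr.toLinearMap) := by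
    refine b.ext fun j => ?_
    simp only [LinearMap.comp_apply, LinearEquiv.coe_coe, hρ, map_smul, b.repr_self, LinearMap.smul_apply,
      Finsupp.lapply_apply, smul_eq_mul]
    by_cases hij : j = i
    · rw [hij, Finsupp.single_eq_same, Finsupp.single_eq_same]
    · rw [Finsupp.single_eq_of_ne (fun h => hij (hinj _ _ h.symm)), Finsupp.single_eq_of_ne (Ne.symm hij),
        mul_zero, mul_zero]
  exact congrArg (fun f : W →ₗ[k] k => f w) h1

end rep

end MonoAux

open MonoAux in
open Classical in
theorem sum_mono {p : ℕ} [Fact p.Prime] {k : Type*} [Field k] [CharP k p] {C : Type*} [Group C]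
    [Fintype C] {W : Type*} [AddCommGroup W] [Module k W] (ρ : Representation k C W)
    {I : Type*} [Fintype I] (b : Module.Basis I k W) (π : C → I → I) (l : C → I → k)
    (hl : ∀ g i, l g i ≠ 0) (hρ : ∀ g i, ρ g (b i) = l g i • b (π g i)) :
    ∑ g : C, ∑ i ∈ Finset.univ.filter (fun i => π g i = i), WittVector.teichmuller p (l g i)
      = ((Fintype.card C * Module.finrank k ρ.invariants : ℕ) : WittVector p k) := by
  let _ : MulAction C I := act hl hρ
  have hsm : ∀ (g : C) (i : I), g • i = π g i := fun _ _ => rfl
  have hC : Coc l := ⟨fun g h i => (mul_rule hl hρ g h i).2, hl⟩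
  have h1 := sum_comb (p := p) hC
  have h2 : Module.finrank k ρ.invariants = Module.finrank k (inv l) := by
    have key : ∀ w : W, w ∈ ρ.invariants ↔ b.equivFun w ∈ inv l := by
      intro w
      rw [Representation.mem_invariants]
      constructor
      · intro h g i
        have e1 := repr_smul hl hρ g i w
        rw [h g] at e1
        simpa only [Module.Basis.equivFun_apply, hsm] using e1
      · intro h g
        apply b.repr.injective
        ext i
        have e0 : i = π g (π g⁻¹ i) := by
          rw [← (mul_rule hl hρ g g⁻¹ i).1, mul_inv_cancel, one_rule hl hρ]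
        rw [e0, repr_smul hl hρ g (π g⁻¹ i) w]
        have e1 := h g (π g⁻¹ i)
        simpa only [Module.Basis.equivFun_apply, hsm] using e1.symm
    have e2 : ρ.invariants.map (b.equivFun : W →ₗ[k] (I → k)) = inv l := by
      ext f
      rw [Submodule.mem_map]
      constructor
      · rintro ⟨w, hw, rfl⟩
        exact (key w).1 hw
      · intro hf
        refine ⟨b.equivFun.symm f, (key _).2 ?_, ?_⟩
        · rw [LinearEquiv.apply_symm_apply]
          exact hf
        · exact b.equivFun.apply_symm_apply f
    rw [← e2]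
    exact (LinearEquiv.finrank_map_eq b.equivFun ρ.invariants).symm
  rw [h2]
  exact h1

end Pool.Agent.Lib.P0c8ca5.Gg
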