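import Mathlib
import Pool.Agent.Lib.P0c8ca5G.Defs
import Pool.Agent.Lib.P0c8ca5B.PartD

/-!
# Module OmA: intertwiners and the symbol

`ρ` is an irreducible representation of `N` on `k ^ n`, `k` algebraically closed; all `x`, `y` normalize `N`.

PROOF of `itw_iff`.  `tw hx ρ g = ρ (x⁻¹ g x)`; an isomorphism `P` of `tw hx ρ` with `ρ` satisfies `P (ρ (x⁻¹ g x) v) = ρ g (P v)`; this is
`Itw` for `X = P` (replace `g` by `x g x⁻¹`).
PROOF of `Itw.mul`, `Itw.inv`, `itw_of_mem`.  Direct: `X (Y (ρ g v)) = X (ρ (y g y⁻¹) (Y v)) = ρ (x y g y⁻¹ x⁻¹) (X (Y v))`; `ρ g (ρ h v) =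
ρ (g h g⁻¹) (ρ g v)`.
PROOF of `Itw.unique`.  `X⁻¹ X'` commutes with all `ρ g`, so it is a scalar (`PartDAux.schur` in P0c8ca5B.PartD, or another version of
Schur's lemma in the library), not zero as it is bijective and the space is not trivial.
PROOF of `Itw.comm`.  `Y X` and `v ↦ ρ z (X (Y v))` are both intertwiners for `y x = z x y` (`Itw.mul`, `itw_of_mem`); `Itw.unique`.
PROOF of `Omg.unique`.  For `(X, Y, z)` and `(X', Y', z)` with `X' = c X`, `Y' = d Y`: `Y' (X' v) = c d Y (X v)` and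
`ρ z (X' (Y' v)) = c d ρ z (X (Y v))`, so `s = s'` (`ρ z (X (Y v)) ≠ 0` for some `v`).
PROOF of `om_eq`, `om_ne_zero_iff`.  `Omg.unique`, `Itw.comm`; note that `Omg` holds with `s ≠ 0` only (`Y (X v) ≠ 0` for `v ≠ 0`).
-/

set_option autoImplicit false

namespace Pool.Agent.Lib.P0c8ca5.Gg

open MonoidAlgebra Ps Bq Zz

variable {p : ℕ} {k : Type*} [Field k] {A : Type*} [Group A] {N : Subgroup A} {n : ℕ}
  {ρ : Rp k N n} {x y : A} {X Y X' : (Fin n → k) ≃ₗ[k] (Fin n → k)}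

namespace OmAAux

/-- Schur's lemma by an eigenvalue argument -/
theorem schur_end [IsAlgClosed k] {G : Type*} [Group G] {V : Type*} [AddCommGroup V] [Module k V]
    [Module.Finite k V] {ρ : Representation k G V} (h : Irr' ρ) (Φ : V →ₗ[k] V)
    (hΦ : ∀ g v, Φ (ρ g v) = ρ g (Φ v)) : ∃ c : k, ∀ v, Φ v = c • v := by
  have := h.nontriv
  obtain ⟨c, hc⟩ := Module.End.exists_eigenvalue (K := k) (V := V) Φ
  refine ⟨c, fun v => ?_⟩
  have hst : ∀ g, ∀ w ∈ Module.End.eigenspace Φ c, ρ g w ∈ Module.End.eigenspace Φ c := by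
    intro g w hw
    rw [Module.End.mem_eigenspace_iff] at hw ⊢
    rw [hΦ g w, hw, map_smul]
  rcases h.sub _ hst with h1 | h1
  · exact absurd h1 hc
  · have hv : v ∈ Module.End.eigenspace Φ c := by rw [h1]; exact Submodule.mem_top
    exact Module.End.mem_eigenspace_iff.1 hv

end OmAAux

theorem itw_iff (hx : x ∈ Subgroup.normalizer (N : Set A)) :
    Iso (tw hx ρ) ρ ↔ ∃ X, Itw N ρ x X := by
  constructor
  · rintro ⟨P, hP⟩
    refine ⟨P, fun g g' hg v => ?_⟩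
    have h1 : cjN hx g' = g := by
      apply Subtype.ext
      rw [coe_cjN, hg]
      group
    have h2 := hP g' v
    rw [tw_apply, h1] at h2
    exact h2
  · rintro ⟨X, hX⟩
    refine ⟨X, fun g v => ?_⟩
    rw [tw_apply]
    apply hX
    rw [coe_cjN]
    group

theorem Itw.mul (hx : x ∈ Subgroup.normalizer (N : Set A))
    (hy : y ∈ Subgroup.normalizer (N : Set A)) (hX : Itw N ρ x X) (hY : Itw N ρ y Y) :
    Itw N ρ (x * y) (Y.trans X) := by
  intro g g' hg v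
  have h1 : y * g * y⁻¹ ∈ N := (Subgroup.mem_normalizer_iff.1 hy _).1 g.2
  rw [LinearEquiv.trans_apply, LinearEquiv.trans_apply, hY g ⟨_, h1⟩ rfl]
  apply hX
  rw [hg]
  group

theorem Itw.inv (hx : x ∈ Subgroup.normalizer (N : Set A)) (hX : Itw N ρ x X) :
    Itw N ρ x⁻¹ X.symm := by
  intro g g' hg v
  apply X.injective
  rw [LinearEquiv.apply_symm_apply]
  have h1 := hX g' g (by rw [hg]; group) (X.symm v)
  rw [LinearEquiv.apply_symm_apply] at h1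
  exact h1.symm

theorem Itw.smul (hX : Itw N ρ x X) {c : k} (hc : c ≠ 0)
    (h : ∀ v, X' v = c • X v) : Itw N ρ x X' := by
  intro g g' hg v
  rw [h, h, hX g g' hg, map_smul]

theorem itw_of_mem {g : A} (hg : g ∈ N) : ∃ X, Itw N ρ g X ∧ ∀ v, X v = ρ ⟨g, hg⟩ v := by
  have h1 : ∀ v, ρ ⟨g, hg⟩ (ρ (⟨g, hg⟩ : N)⁻¹ v) = v := by
    intro v
    rw [← Module.End.mul_apply, ← map_mul, mul_inv_cancel, map_one, Module.End.one_apply]
  have h2 : ∀ v, ρ (⟨g, hg⟩ : N)⁻¹ (ρ ⟨g, hg⟩ v) = v := by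
    intro v
    rw [← Module.End.mul_apply, ← map_mul, inv_mul_cancel, map_one, Module.End.one_apply]
  refine ⟨LinearEquiv.ofLinearMap (ρ ⟨g, hg⟩) (ρ (⟨g, hg⟩ : N)⁻¹) (LinearMap.ext h1)
    (LinearMap.ext h2), ?_, fun v => rfl⟩
  intro a a' ha v
  show ρ ⟨g, hg⟩ (ρ a v) = ρ a' (ρ ⟨g, hg⟩ v)
  rw [← Module.End.mul_apply, ← Module.End.mul_apply, ← map_mul, ← map_mul]
  congr 2
  apply Subtype.ext
  show g * (a : A) = (a' : A) * g
  rw [ha]
  group

theorem Itw.unique [IsAlgClosed k] (hρ : Irr' ρ) (hx : x ∈ Subgroup.normalizer (N : Set A))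
    (hX : Itw N ρ x X) (hX' : Itw N ρ x X') : ∃ c : k, c ≠ 0 ∧ ∀ v, X' v = c • X v := by
  obtain ⟨c, hc⟩ := OmAAux.schur_end hρ (X.symm.toLinearMap ∘ₗ X'.toLinearMap) (fun g v => by
    have h1 : x * g * x⁻¹ ∈ N := (Subgroup.mem_normalizer_iff.1 hx _).1 g.2
    show X.symm (X' (ρ g v)) = ρ g (X.symm (X' v))
    apply X.injective
    rw [LinearEquiv.apply_symm_apply, hX' g ⟨_, h1⟩ rfl, hX g ⟨_, h1⟩ rfl,
      LinearEquiv.apply_symm_apply])
  have h2 : ∀ v, X' v = c • X v := by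
    intro v
    have h3 : X.symm (X' v) = c • v := hc v
    have h4 := congrArg X h3
    rw [LinearEquiv.apply_symm_apply, map_smul] at h4
    exact h4
  refine ⟨c, ?_, h2⟩
  rintro rfl
  have := hρ.nontriv
  obtain ⟨v, hv⟩ := exists_ne (0 : Fin n → k)
  apply hv
  apply X'.injective
  rw [h2 v, zero_smul, map_zero]

theorem Itw.comm [IsAlgClosed k] (hρ : Irr' ρ) (hx : x ∈ Subgroup.normalizer (N : Set A))
    (hy : y ∈ Subgroup.normalizer (N : Set A)) (hX : Itw N ρ x X) (hY : Itw N ρ y Y)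
    {z : N} (hz : (z : A) = y * x * y⁻¹ * x⁻¹) :
    ∃ s : k, s ≠ 0 ∧ ∀ v, Y (X v) = s • ρ z (X (Y v)) := by
  obtain ⟨Z, hZ, hZv⟩ := itw_of_mem (ρ := ρ) z.2
  have h1 : Itw N ρ (y * x) (X.trans Y) := Itw.mul hy hx hY hX
  have h2 : Itw N ρ (x * y) (Y.trans X) := Itw.mul hx hy hX hY
  have hzn : (z : A) ∈ Subgroup.normalizer (N : Set A) := Subgroup.le_normalizer z.2
  have h3 := Itw.mul hzn ((Subgroup.normalizer (N : Set A)).mul_mem hx hy) hZ h2
  have e1 : (z : A) * (x * y) = y * x := by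
    rw [hz]
    group
  rw [e1] at h3
  obtain ⟨c, hc, h4⟩ := Itw.unique hρ ((Subgroup.normalizer (N : Set A)).mul_mem hy hx) h3 h1
  refine ⟨c, hc, fun v => ?_⟩
  have h5 := h4 v
  rw [LinearEquiv.trans_apply, LinearEquiv.trans_apply, LinearEquiv.trans_apply, hZv] at h5
  exact h5

theorem Omg.unique [IsAlgClosed k] (hρ : Irr' ρ) (hx : x ∈ Subgroup.normalizer (N : Set A))
    (hy : y ∈ Subgroup.normalizer (N : Set A)) {s s' : k} (h : Omg N ρ x y s)
    (h' : Omg N ρ x y s') : s = s' := by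
  obtain ⟨X, Y, z, hX, hY, hz, e⟩ := h
  obtain ⟨X', Y', z', hX', hY', hz', e'⟩ := h'
  have hzz : z' = z := Subtype.ext (hz'.trans hz.symm)
  rw [hzz] at e'
  obtain ⟨c, hc, h1⟩ := Itw.unique hρ hx hX hX'
  obtain ⟨d, hd, h2⟩ := Itw.unique hρ hy hY hY'
  have := hρ.nontriv
  obtain ⟨v, hv⟩ := exists_ne (0 : Fin n → k)
  have h3 := e' v
  rw [h1, h2, h2, h1, map_smul, map_smul, map_smul, map_smul, e, smul_smul, smul_smul,
    smul_smul, smul_smul] at h3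
  obtain ⟨Z, -, hZv⟩ := itw_of_mem (ρ := ρ) z.2
  have h5 : ρ z (X (Y v)) ≠ 0 := by
    intro h6
    have h7 : Z (X (Y v)) = 0 := (hZv _).trans h6
    rw [LinearEquiv.map_eq_zero_iff, LinearEquiv.map_eq_zero_iff,
      LinearEquiv.map_eq_zero_iff] at h7
    exact hv h7
  have h8 := smul_left_injective k h5 h3
  have h9 : c * d * s = c * d * s' := by
    linear_combination h8
  exact mul_left_cancel₀ (mul_ne_zero hc hd) h9

theorem om_eq [IsAlgClosed k] (hρ : Irr' ρ) (hx : x ∈ Subgroup.normalizer (N : Set A))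
    (hy : y ∈ Subgroup.normalizer (N : Set A)) {s : k} (h : Omg N ρ x y s) :
    om N ρ x y = s := by
  have h1 : ∃ s : k, Omg N ρ x y s := ⟨s, h⟩
  unfold om
  rw [dif_pos h1]
  exact Omg.unique hρ hx hy h1.choose_spec h

theorem om_spec (h : om N ρ x y ≠ 0) : Omg N ρ x y (om N ρ x y) := by
  by_cases h1 : ∃ s : k, Omg N ρ x y s
  · have h2 : om N ρ x y = h1.choose := by
      unfold om
      rw [dif_pos h1]
    rw [h2]
    exact h1.choose_spec
  · exfalso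
    apply h
    unfold om
    rw [dif_neg h1]

theorem om_ne_zero_iff [IsAlgClosed k] (hρ : Irr' ρ)
    (hx : x ∈ Subgroup.normalizer (N : Set A)) (hy : y ∈ Subgroup.normalizer (N : Set A)) :
    om N ρ x y ≠ 0 ↔ (∃ X, Itw N ρ x X) ∧ (∃ Y, Itw N ρ y Y) ∧ y * x * y⁻¹ * x⁻¹ ∈ N := by
  constructor
  · intro h
    obtain ⟨X, Y, z, hX, hY, hz, -⟩ := om_spec h
    refine ⟨⟨X, hX⟩, ⟨Y, hY⟩, ?_⟩
    rw [← hz]
    exact z.2
  · rintro ⟨⟨X, hX⟩, ⟨Y, hY⟩, hz⟩
    obtain ⟨s, hs, h1⟩ := Itw.comm hρ hx hy hX hY (z := ⟨_, hz⟩) rfl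
    rw [om_eq hρ hx hy ⟨X, Y, ⟨_, hz⟩, hX, hY, rfl, h1⟩]
    exact hs

end Pool.Agent.Lib.P0c8ca5.Gg
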