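import Mathlib
import Pool.Agent.Lib.P0c8ca5G.OmA
import Pool.Agent.Lib.P0c8ca5C.Eig
import Pool.Agent.Lib.P0c8ca5C.Ext

/-!
# Module Ext: extension to a cyclic extension, and the vector of an invariant representation

PROOF of `exists_ext`.  As in `LnBAux.exists_tau` (P0c8ca5S.LnB): `T = N ⊔ zpowers x`; every `t ∈ T` has an intertwiner (`Itw.mul`,
`Itw.inv`, `itw_of_mem`; the elements of `T` with an intertwiner are a subgroup containing `N` and `x`), so `Iso (tw _ ρ) ρ`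
(`itw_iff`).  `exists_over` gives an irreducible `τ₀` of `T` over `ρ`, and `Cy.iso_restrict` says that its restriction to `N` is isomorphic
to `ρ`, so its degree is `n` and it can be transported along the isomorphism: `τ t = P (τ₀ t (P⁻¹ ·))`.

`av N x τ` has the coefficient `tr (τ z⁻¹)` at `z ∈ N x`.
PROOF of `av_mem`.  (support) clear.  (`N`-invariance) `τ ((g z g⁻¹)⁻¹) = τ g (τ z⁻¹) (τ g)⁻¹`, `LinearMap.trace_conj'`-like.
(sections) for `z ∈ N x`: `pr p z ∈ N x` because `x` is p-regular modulo `N` (`pr p z = z ^ u`, `u = uexp p A`, `x ^ m ∈ N` with `p ∤ m`;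
the order of `x` modulo `N` divides `|A|` and is prime to `p`, so `u ≡ 1` modulo it; there are lemmas on `pr` in P0c8ca5N.RegP), and
`tr (τ (pr p z)⁻¹) = tr (τ z⁻¹)`: characters are constant on p-sections (`chi`, `IrrCh`, P0c8ca5N.ChA/ChB; or: `τ z⁻¹ = U V` with commuting
`V = τ (pr p z)⁻¹`, `U` of p-power order, so unipotent).  (block) `(f * a)(z) = ∑ h, f(h) tr (τ (z⁻¹ h)) = tr (τ z⁻¹ (act τ f)) = tr (τ z⁻¹)`, as
`act τ f = act ρ f = 1` (`f` is supported on `N`).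
-/

set_option autoImplicit false

namespace Pool.Agent.Lib.P0c8ca5.Gg

open MonoidAlgebra Ps Bq Zz

variable {p : ℕ} {k : Type*} [Field k] {A : Type*} [Group A] {N : Subgroup A} {n : ℕ}
  {ρ : Rp k N n} {x y : A}

/-- `τ` extends `ρ` to `N ⊔ zpowers x` -/
def IsExt (N : Subgroup A) (ρ : Rp k N n) (x : A)
    (τ : Rp k (N ⊔ Subgroup.zpowers x) n) : Prop :=
  ∀ (g : A) (h1 : g ∈ N) (h2 : g ∈ N ⊔ Subgroup.zpowers x) (v : Fin n → k),
    τ ⟨g, h2⟩ v = ρ ⟨g, h1⟩ v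

namespace ExtAuxG

/-- the elements with an intertwiner -/
def itwGrp (N : Subgroup A) (ρ : Rp k N n) : Subgroup A where
  carrier := {t | t ∈ Subgroup.normalizer (N : Set A) ∧ ∃ X, Itw N ρ t X}
  one_mem' := by
    refine ⟨Subgroup.one_mem _, ?_⟩
    obtain ⟨X, hX, -⟩ := itw_of_mem (ρ := ρ) N.one_mem
    exact ⟨X, hX⟩
  mul_mem' := by
    rintro a b ⟨h1, X, hX⟩ ⟨h2, Y, hY⟩
    exact ⟨Subgroup.mul_mem _ h1 h2, _, Itw.mul h1 h2 hX hY⟩
  inv_mem' := by
    rintro a ⟨h1, X, hX⟩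
    exact ⟨Subgroup.inv_mem _ h1, _, Itw.inv h1 hX⟩

theorem mem_itwGrp {t : A} : t ∈ itwGrp N ρ ↔
    t ∈ Subgroup.normalizer (N : Set A) ∧ ∃ X, Itw N ρ t X := Iff.rfl

theorem le_itw (hx : x ∈ Subgroup.normalizer (N : Set A)) (hX : ∃ X, Itw N ρ x X) :
    N ⊔ Subgroup.zpowers x ≤ itwGrp N ρ := by
  apply sup_le
  · intro g hg
    obtain ⟨X, hX, -⟩ := itw_of_mem (ρ := ρ) hg
    exact ⟨Subgroup.le_normalizer hg, X, hX⟩
  · rw [Subgroup.zpowers_le]
    exact ⟨hx, hX⟩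

end ExtAuxG

theorem exists_ext [IsAlgClosed k] [Finite A] (hρ : Irr' ρ)
    (hx : x ∈ Subgroup.normalizer (N : Set A)) (hX : ∃ X, Itw N ρ x X) :
    ∃ τ, IsExt N ρ x τ := by
  classical
  have hNT : N ≤ N ⊔ Subgroup.zpowers x := le_sup_left
  have hTS := ExtAuxG.le_itw (ρ := ρ) hx hX
  have hn : N ⊔ Subgroup.zpowers x ≤ Subgroup.normalizer (N : Set A) :=
    fun t ht => (hTS ht).1
  have hst : ∀ (t : A) (ht : t ∈ N ⊔ Subgroup.zpowers x), Iso (tw (hn ht) ρ) ρ :=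
    fun t ht => (itw_iff (hn ht)).2 (hTS ht).2
  obtain ⟨m, τ, hτ, hov⟩ := exists_over hNT hρ
  have hxT : x ∈ N ⊔ Subgroup.zpowers x :=
    (le_sup_right : Subgroup.zpowers x ≤ _) (Subgroup.mem_zpowers x)
  obtain ⟨P, hP⟩ := Cy.iso_restrict hNT hn ⟨x, hxT, rfl⟩ hρ hst hτ hov
  refine ⟨trRep τ P, fun g h1 h2 v => ?_⟩
  have h3 : trRep τ P ⟨g, h2⟩ v = P (τ ⟨g, h2⟩ (P.symm v)) := rfl
  rw [h3]
  have h4 := hP ⟨g, h1⟩ (P.symm v)
  rw [LinearEquiv.apply_symm_apply] at h4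
  exact h4

open Classical in
/-- the vector of an extension `τ` to `N ⊔ zpowers x` -/
noncomputable def av [Finite A] (N : Subgroup A) (x : A)
    (τ : Rp k (N ⊔ Subgroup.zpowers x) n) : MonoidAlgebra k A :=
  MonoidAlgebra.ofCoeff (Finsupp.equivFunOnFinite.symm fun z =>
    if h : z ∈ N ⊔ Subgroup.zpowers x then
      (if z * x⁻¹ ∈ N then LinearMap.trace k (Fin n → k) (τ ⟨z, h⟩⁻¹) else 0) else 0)

theorem coeff_av [Finite A] {τ : Rp k (N ⊔ Subgroup.zpowers x) n} {z : A}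
    (hz : z * x⁻¹ ∈ N) (h : z ∈ N ⊔ Subgroup.zpowers x) :
    (av N x τ).coeff z = LinearMap.trace k (Fin n → k) (τ ⟨z, h⟩⁻¹) := by
  classical
  unfold av
  rw [coeff_ofCoeff, Finsupp.equivFunOnFinite_symm_apply_apply, dif_pos h, if_pos hz]

theorem av_mem [Fact p.Prime] [CharP k p] [IsAlgClosed k] [Fintype A]
    (hx : x ∈ Subgroup.normalizer (N : Set A)) (hxp : Prm p N x)
    {f : MonoidAlgebra k A} (hf : SuppIn N f) (hρf : act ρ f = 1)
    {τ : Rp k (N ⊔ Subgroup.zpowers x) n} (hτ : IsExt N ρ x τ) :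
    av N x τ ∈ Fs p N N f x := by
  classical
  have hNT : N ≤ N ⊔ Subgroup.zpowers x := le_sup_left
  have hxT : x ∈ N ⊔ Subgroup.zpowers x :=
    (le_sup_right : Subgroup.zpowers x ≤ _) (Subgroup.mem_zpowers x)
  have hcos : ∀ z : A, z * x⁻¹ ∈ N → z ∈ N ⊔ Subgroup.zpowers x := by
    intro z hz
    have h1 := (N ⊔ Subgroup.zpowers x).mul_mem (hNT hz) hxT
    rwa [inv_mul_cancel_right] at h1
  -- the coefficients
  have hco : ∀ z : A, z * x⁻¹ ∈ N → (av N x τ).coeff z = chi τ z⁻¹ := by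
    intro z hz
    have h1 := hcos z hz
    rw [coeff_av hz h1, chi_of_mem τ ((N ⊔ Subgroup.zpowers x).inv_mem h1)]
    rfl
  have hco0 : ∀ z : A, z * x⁻¹ ∉ N → (av N x τ).coeff z = 0 := by
    intro z hz
    unfold av
    rw [coeff_ofCoeff, Finsupp.equivFunOnFinite_symm_apply_apply]
    split_ifs
    · rfl
    · rfl
  have hconj : ∀ y ∈ N, ∀ z : A, z * x⁻¹ ∈ N → y * z * y⁻¹ * x⁻¹ ∈ N := by
    intro y hy z hz
    have h1 : x * y⁻¹ * x⁻¹ ∈ N := (Subgroup.mem_normalizer_iff.1 hx _).1 (N.inv_mem hy)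
    have h2 := N.mul_mem (N.mul_mem hy hz) h1
    have e1 : y * (z * x⁻¹) * (x * y⁻¹ * x⁻¹) = y * z * y⁻¹ * x⁻¹ := by group
    rwa [e1] at h2
  have hXH := chi_mem_XH (p := p) τ
  rw [mem_XH] at hXH
  rw [mem_Fs]
  refine ⟨?_, ?_, ?_, ?_⟩
  · intro z hz
    by_contra h
    exact hz (hco0 z h)
  · intro y hy _ z
    by_cases hz : z * x⁻¹ ∈ N
    · rw [hco z hz, hco _ (hconj y hy z hz)]
      have e1 : (y * z * y⁻¹)⁻¹ = y * z⁻¹ * y⁻¹ := by group
      rw [e1]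
      exact chi_conj_mem τ (hNT hy) _
    · have hz' : y * z * y⁻¹ * x⁻¹ ∉ N := by
        intro h1
        apply hz
        have h2 := hconj y⁻¹ (N.inv_mem hy) _ h1
        have e1 : y⁻¹ * (y * z * y⁻¹) * y⁻¹⁻¹ * x⁻¹ = z * x⁻¹ := by group
        rwa [e1] at h2
      rw [hco0 z hz, hco0 _ hz']
  · intro z hz
    have h1 : pr p z * x⁻¹ ∈ N := pr_mem_cos (K := Subgroup.normalizer (N : Set A))
      (le_refl _) hx hxp hz
    have e1 : (pr p z)⁻¹ = pr p z⁻¹ := by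
      unfold pr
      rw [inv_pow]
    rw [hco z hz, hco _ h1, e1]
    exact hXH.2.2 _ ((N ⊔ Subgroup.zpowers x).inv_mem (hcos z hz))
  · have hact : act τ f = 1 := by
      apply LinearMap.ext
      intro v
      have h1 := act_over hNT (ρ := τ) (σ := ρ) LinearMap.id
        (fun g v => hτ g g.2 (hNT g.2) v) hf v
      rw [hρf] at h1
      exact h1
    have hfT : SuppIn (N ⊔ Subgroup.zpowers x) f := hf.mono hNT
    ext z
    rw [coeff_mul_fin]
    by_cases hz : z * x⁻¹ ∈ N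
    · have hzT := hcos z hz
      have hziT := (N ⊔ Subgroup.zpowers x).inv_mem hzT
      have h1 := conv_chi_eq τ hfT hziT
      rw [hact, one_mul, ← chi_of_mem τ hziT, ← hco z hz] at h1
      rw [← h1]
      unfold conv
      refine Finset.sum_congr rfl (fun h _ => ?_)
      by_cases hh : h ∈ N
      · have h2 : h⁻¹ * z * x⁻¹ ∈ N := by
          rw [mul_assoc]
          exact N.mul_mem (N.inv_mem hh) hz
        have e1 : h * z⁻¹ = z * (h⁻¹ * z)⁻¹ * z⁻¹ := by group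
        rw [hco _ h2, e1, chi_conj_mem τ hzT]
      · have h3 : f.coeff h = 0 := by
          by_contra h4
          exact hh (hf h h4)
        rw [h3, zero_mul, zero_mul]
    · rw [hco0 z hz]
      refine Finset.sum_eq_zero (fun h _ => ?_)
      by_cases hh : h ∈ N
      · have h2 : h⁻¹ * z * x⁻¹ ∉ N := by
          intro h5
          apply hz
          have h6 := N.mul_mem hh h5
          have e1 : h * (h⁻¹ * z * x⁻¹) = z * x⁻¹ := by group
          rwa [e1] at h6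
        rw [hco0 _ h2, mul_zero]
      · have h3 : f.coeff h = 0 := by
          by_contra h4
          exact hh (hf h h4)
        rw [h3, zero_mul]

end Pool.Agent.Lib.P0c8ca5.Gg
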