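import Mathlib
import Pool.Agent.Lib.P0c8ca5G.OmA

/-!
# Module OmB: properties of the symbol

`[y, x] = y x y⁻¹ x⁻¹`.  All proofs: both sides are zero together (`om_ne_zero_iff`), otherwise choose intertwiners and use `om_eq`.

`om_iso`: if `P` is an isomorphism of `ρ` with `ρ'` and `X` an intertwiner of `x` for `ρ`, then `P X P⁻¹` is one for `ρ'`.
`om_mul_right`: `Y X = s ρ(z) X Y`, `Y' X = s' ρ(z') X Y'` with `z = [y, x]`, `z' = [y', x]` give
`Y Y' X = s s' ρ(y z' y⁻¹) ρ(z) X Y Y'` and `[y y', x] = (y z' y⁻¹) z`.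
`om_mem_right`: for `g ∈ N`, `Y = ρ g`: `ρ g (X v) = ρ (g x g⁻¹ x⁻¹) (ρ (x g x⁻¹) (X v)) = ρ [g, x] (X (ρ g v))`.
`om_symm`: `X Y = s⁻¹ ρ(z)⁻¹ Y X` and `[x, y] = z⁻¹`.
`om_mul_left`: `om_symm` and `om_mul_right` (if one of the factors is zero, so is the product or not: the hypotheses say that both are
not zero).
`om_cj`: if `X` is an intertwiner of `x` for `ρ` then `X` is one of `g x g⁻¹` for `tw hg ρ`: `tw hg ρ h = ρ (g⁻¹ h g)`,
`X (ρ (g⁻¹ h g) v) = ρ (x g⁻¹ h g x⁻¹) (X v) = (tw hg ρ) (g x g⁻¹ h g x⁻¹ g⁻¹) (X v)`.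
`om_congr`: `om_mul_right`, `om_mul_left`, `om_mem_right`, `om_symm`: if `x' ∈ N x`, `y' ∈ N y` the symbol is the same (also if it is `0`:
`x'` has an intertwiner iff `x` has one, `[y', x'] ∈ N` iff `[y, x] ∈ N`).
-/

set_option autoImplicit false

namespace Pool.Agent.Lib.P0c8ca5.Gg

open MonoidAlgebra Ps Bq Zz

variable {p : ℕ} {k : Type*} [Field k] {A : Type*} [Group A] {N : Subgroup A} {n : ℕ}
  {ρ : Rp k N n} {x x' y y' : A}

namespace OmBAux

theorem dite_choose {k : Type*} [Zero k] {P Q : k → Prop} (h : ∀ s, P s ↔ Q s)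
    {d : Decidable (∃ s, P s)} {d' : Decidable (∃ s, Q s)} :
    (if h : ∃ s, P s then h.choose else 0) = (if h : ∃ s, Q s then h.choose else 0) := by
  have e : P = Q := funext fun s => propext (h s)
  subst e
  by_cases h : ∃ s, P s
  · rw [dif_pos h, dif_pos h]
  · rw [dif_neg h, dif_neg h]

theorem om_of_iff {V V' : Type*} [AddCommGroup V] [Module k V] [AddCommGroup V'] [Module k V']
    {ρ : Representation k N V} {ρ' : Representation k N V'}
    (h : ∀ s, Omg N ρ x y s ↔ Omg N ρ' x' y' s) : om N ρ x y = om N ρ' x' y' := by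
  unfold om
  exact dite_choose h

theorem omg_iso {V V' : Type*} [AddCommGroup V] [Module k V] [AddCommGroup V'] [Module k V']
    {ρ : Representation k N V} {ρ' : Representation k N V'} (h : Iso ρ ρ') {s : k}
    (H : Omg N ρ x y s) : Omg N ρ' x y s := by
  obtain ⟨P, hP⟩ := h
  have hP' : ∀ (g : N) (v : V'), P.symm (ρ' g v) = ρ g (P.symm v) := by
    intro g v
    apply P.injective
    rw [hP, LinearEquiv.apply_symm_apply, LinearEquiv.apply_symm_apply]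
  have key : ∀ {a : A} {X : V ≃ₗ[k] V}, Itw N ρ a X →
      Itw N ρ' a ((P.symm.trans X).trans P) := by
    intro a X hX g g' hg v
    simp only [LinearEquiv.trans_apply]
    rw [hP', hX g g' hg, hP]
  obtain ⟨X, Y, z, hX, hY, hz, h⟩ := H
  refine ⟨_, _, z, key hX, key hY, hz, fun v => ?_⟩
  simp only [LinearEquiv.trans_apply, LinearEquiv.symm_apply_apply]
  rw [h, map_smul, hP]

/-- the same intertwiner for both symbols -/
theorem omg_change [IsAlgClosed k] (hρ : Irr' ρ) (hx : x ∈ Subgroup.normalizer (N : Set A))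
    {X X' Y : (Fin n → k) ≃ₗ[k] (Fin n → k)} {z : N} {s : k} (hX : Itw N ρ x X)
    (hX' : Itw N ρ x X') (h : ∀ v, Y (X' v) = s • ρ z (X' (Y v))) (v : Fin n → k) :
    Y (X v) = s • ρ z (X (Y v)) := by
  obtain ⟨c, hc, hXX⟩ := hX'.unique hρ hx hX
  rw [hXX, hXX, map_smul, map_smul, h, smul_comm]

theorem itw_cj {g : A} (hg : g ∈ Subgroup.normalizer (N : Set A))
    {X : (Fin n → k) ≃ₗ[k] (Fin n → k)} :
    Itw N (tw hg ρ) (g * x * g⁻¹) X ↔ Itw N ρ x X := by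
  constructor
  · intro h a a' ha v
    obtain ⟨b, rfl⟩ := cjN_surj hg a
    obtain ⟨b', rfl⟩ := cjN_surj hg a'
    refine h b b' ?_ v
    rw [coe_cjN, coe_cjN] at ha
    have e : (b' : A) = g * (g⁻¹ * b' * g) * g⁻¹ := by group
    rw [e, ha]
    group
  · intro h a a' ha v
    refine h (cjN hg a) (cjN hg a') ?_ v
    rw [coe_cjN, coe_cjN, ha]
    group

theorem om_ne_congr [IsAlgClosed k] (hρ : Irr' ρ) (hx : x ∈ Subgroup.normalizer (N : Set A))
    (hy : y ∈ Subgroup.normalizer (N : Set A)) (hxx : x' * x⁻¹ ∈ N) (hyy : y' * y⁻¹ ∈ N)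
    (mul_right : ∀ {x y y' : A}, x ∈ Subgroup.normalizer (N : Set A) →
      y ∈ Subgroup.normalizer (N : Set A) → y' ∈ Subgroup.normalizer (N : Set A) →
      om N ρ x y ≠ 0 → om N ρ x y' ≠ 0 → om N ρ x (y * y') = om N ρ x y * om N ρ x y')
    (symm : ∀ {x y : A}, x ∈ Subgroup.normalizer (N : Set A) →
      y ∈ Subgroup.normalizer (N : Set A) → om N ρ y x = (om N ρ x y)⁻¹)
    (mul_left : ∀ {x x' y : A}, x ∈ Subgroup.normalizer (N : Set A) →
      x' ∈ Subgroup.normalizer (N : Set A) → y ∈ Subgroup.normalizer (N : Set A) →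
      om N ρ x y ≠ 0 → om N ρ x' y ≠ 0 → om N ρ (x * x') y = om N ρ x y * om N ρ x' y)
    (mem_right : ∀ {x : A}, x ∈ Subgroup.normalizer (N : Set A) → (∃ X, Itw N ρ x X) →
      ∀ {g : A}, g ∈ N → om N ρ x g = 1)
    (h : om N ρ x y ≠ 0) : om N ρ x' y' = om N ρ x y := by
  have hle : N ≤ Subgroup.normalizer (N : Set A) := Subgroup.le_normalizer
  obtain ⟨h1, ⟨Y, hY⟩, h3⟩ := (om_ne_zero_iff hρ hx hy).1 h
  have ey : y' = (y' * y⁻¹) * y := by group
  have ex : x' = (x' * x⁻¹) * x := by group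
  have hy' : y' ∈ Subgroup.normalizer (N : Set A) := by
    rw [ey]
    exact mul_mem (hle hyy) hy
  have h4 : om N ρ x (y' * y⁻¹) = 1 := mem_right hx h1 hyy
  have h5 : om N ρ x y' = om N ρ x y := by
    conv_lhs => rw [ey]
    rw [mul_right hx (hle hyy) hy (by rw [h4]; exact one_ne_zero) h, h4, one_mul]
  have hY' : ∃ Y', Itw N ρ y' Y' := by
    obtain ⟨Z, hZ, -⟩ := itw_of_mem (ρ := ρ) hyy
    have h6 := hZ.mul (hle hyy) hy hY
    rw [← ey] at h6
    exact ⟨_, h6⟩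
  have h6 : om N ρ (x' * x⁻¹) y' = 1 := by
    rw [symm hy' (hle hxx), mem_right hy' hY' hxx, inv_one]
  conv_lhs => rw [ex]
  rw [mul_left (hle hxx) hx hy' (by rw [h6]; exact one_ne_zero) (by rw [h5]; exact h), h6,
    one_mul, h5]

end OmBAux

theorem om_iso [IsAlgClosed k] {m : ℕ} {ρ' : Rp k N m} (hρ : Irr' ρ) (h : Iso ρ ρ')
    (hx : x ∈ Subgroup.normalizer (N : Set A)) (hy : y ∈ Subgroup.normalizer (N : Set A)) :
    om N ρ x y = om N ρ' x y := by
  exact OmBAux.om_of_iff fun s => ⟨OmBAux.omg_iso h, OmBAux.omg_iso h.symm⟩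

theorem om_mul_right [IsAlgClosed k] (hρ : Irr' ρ) (hx : x ∈ Subgroup.normalizer (N : Set A))
    (hy : y ∈ Subgroup.normalizer (N : Set A)) (hy' : y' ∈ Subgroup.normalizer (N : Set A))
    (h : om N ρ x y ≠ 0) (h' : om N ρ x y' ≠ 0) :
    om N ρ x (y * y') = om N ρ x y * om N ρ x y' := by
  obtain ⟨X, Y, z, hX, hY, hz, h1⟩ := om_spec h
  obtain ⟨X', Y', z', hX', hY', hz', h2⟩ := om_spec h'
  have h3 := OmBAux.omg_change hρ hx hX hX' h2
  set s := om N ρ x y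
  set s' := om N ρ x y'
  have hw : y * z' * y⁻¹ ∈ N := (Subgroup.mem_normalizer_iff.1 hy _).1 z'.2
  refine om_eq hρ hx (mul_mem hy hy') ⟨X, Y'.trans Y, ⟨y * z' * y⁻¹, hw⟩ * z, hX,
    hY.mul hy hy' hY', ?_, fun v => ?_⟩
  · rw [Subgroup.coe_mul, hz]
    show y * (z' : A) * y⁻¹ * (y * x * y⁻¹ * x⁻¹) = _
    rw [hz']
    group
  · simp only [LinearEquiv.trans_apply]
    rw [h3, map_smul, hY z' ⟨y * z' * y⁻¹, hw⟩ rfl, h1, map_smul, map_mul, smul_smul,
      mul_comm s' s]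
    rfl

theorem om_symm [IsAlgClosed k] (hρ : Irr' ρ) (hx : x ∈ Subgroup.normalizer (N : Set A))
    (hy : y ∈ Subgroup.normalizer (N : Set A)) : om N ρ y x = (om N ρ x y)⁻¹ := by
  have key : ∀ {x y : A}, x ∈ Subgroup.normalizer (N : Set A) →
      y ∈ Subgroup.normalizer (N : Set A) → om N ρ x y ≠ 0 → om N ρ y x = (om N ρ x y)⁻¹ := by
    intro x y hx hy h
    obtain ⟨X, Y, z, hX, hY, hz, h1⟩ := om_spec h
    refine om_eq hρ hy hx ⟨Y, X, z⁻¹, hY, hX, ?_, fun v => ?_⟩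
    · rw [Subgroup.coe_inv, hz]
      group
    · rw [h1, map_smul, smul_smul, inv_mul_cancel₀ h, one_smul, ← Module.End.mul_apply,
        ← map_mul, inv_mul_cancel, map_one, Module.End.one_apply]
  by_cases h : om N ρ x y = 0
  · rw [h, inv_zero]
    by_contra hcon
    have h1 := key hy hx hcon
    rw [h] at h1
    exact inv_ne_zero hcon h1.symm
  · exact key hx hy h

theorem om_mul_left [IsAlgClosed k] (hρ : Irr' ρ) (hx : x ∈ Subgroup.normalizer (N : Set A))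
    (hx' : x' ∈ Subgroup.normalizer (N : Set A)) (hy : y ∈ Subgroup.normalizer (N : Set A))
    (h : om N ρ x y ≠ 0) (h' : om N ρ x' y ≠ 0) :
    om N ρ (x * x') y = om N ρ x y * om N ρ x' y := by
  have h1 : om N ρ y x ≠ 0 := by
    rw [om_symm hρ hx hy]
    exact inv_ne_zero h
  have h2 : om N ρ y x' ≠ 0 := by
    rw [om_symm hρ hx' hy]
    exact inv_ne_zero h'
  rw [om_symm hρ hy (mul_mem hx hx'), om_mul_right hρ hy hx hx' h1 h2, om_symm hρ hx hy,
    om_symm hρ hx' hy, mul_inv, inv_inv, inv_inv]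

theorem om_mem_right [IsAlgClosed k] (hρ : Irr' ρ) (hx : x ∈ Subgroup.normalizer (N : Set A))
    (hX : ∃ X, Itw N ρ x X) {g : A} (hg : g ∈ N) : om N ρ x g = 1 := by
  obtain ⟨X, hX⟩ := hX
  obtain ⟨Y, hY, hY'⟩ := itw_of_mem (ρ := ρ) hg
  have h1 : x * g * x⁻¹ ∈ N := (Subgroup.mem_normalizer_iff.1 hx _).1 hg
  have h2 : x * g⁻¹ * x⁻¹ ∈ N := (Subgroup.mem_normalizer_iff.1 hx _).1 (inv_mem hg)
  have h3 : g * x * g⁻¹ * x⁻¹ ∈ N := by
    have e : g * x * g⁻¹ * x⁻¹ = g * (x * g⁻¹ * x⁻¹) := by group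
    rw [e]
    exact mul_mem hg h2
  refine om_eq hρ hx (Subgroup.le_normalizer hg) ⟨X, Y, ⟨_, h3⟩, hX, hY, rfl, fun v => ?_⟩
  rw [hY', hY', hX ⟨g, hg⟩ ⟨x * g * x⁻¹, h1⟩ rfl, one_smul, ← Module.End.mul_apply, ← map_mul]
  congr 2
  apply Subtype.ext
  show g = g * x * g⁻¹ * x⁻¹ * (x * g * x⁻¹)
  group

theorem om_cj [IsAlgClosed k] (hρ : Irr' ρ) (hx : x ∈ Subgroup.normalizer (N : Set A))
    (hy : y ∈ Subgroup.normalizer (N : Set A)) {g : A}
    (hg : g ∈ Subgroup.normalizer (N : Set A)) :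
    om N (tw hg ρ) (g * x * g⁻¹) (g * y * g⁻¹) = om N ρ x y := by
  refine OmBAux.om_of_iff fun s => ⟨?_, ?_⟩
  · rintro ⟨X, Y, z, hX, hY, hz, h⟩
    refine ⟨X, Y, cjN hg z, (OmBAux.itw_cj hg).1 hX, (OmBAux.itw_cj hg).1 hY, ?_, h⟩
    rw [coe_cjN, hz]
    group
  · rintro ⟨X, Y, z, hX, hY, hz, h⟩
    obtain ⟨z', rfl⟩ := cjN_surj hg z
    refine ⟨X, Y, z', (OmBAux.itw_cj hg).2 hX, (OmBAux.itw_cj hg).2 hY, ?_, h⟩
    rw [coe_cjN] at hz
    have e : (z' : A) = g * (g⁻¹ * z' * g) * g⁻¹ := by group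
    rw [e, hz]
    group

theorem om_congr [IsAlgClosed k] (hρ : Irr' ρ) (hx : x ∈ Subgroup.normalizer (N : Set A))
    (hy : y ∈ Subgroup.normalizer (N : Set A)) (hxx : x' * x⁻¹ ∈ N) (hyy : y' * y⁻¹ ∈ N) :
    om N ρ x' y' = om N ρ x y := by
  have hle : N ≤ Subgroup.normalizer (N : Set A) := Subgroup.le_normalizer
  have key : ∀ {x y x' y' : A}, x ∈ Subgroup.normalizer (N : Set A) →
      y ∈ Subgroup.normalizer (N : Set A) → x' * x⁻¹ ∈ N → y' * y⁻¹ ∈ N →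
      om N ρ x y ≠ 0 → om N ρ x' y' = om N ρ x y := fun hx hy hxx hyy h =>
    OmBAux.om_ne_congr hρ hx hy hxx hyy (om_mul_right hρ) (om_symm hρ) (om_mul_left hρ)
      (fun hx hX _ hg => om_mem_right hρ hx hX hg) h
  by_cases h : om N ρ x y = 0
  · rw [h]
    by_contra hcon
    have hx' : x' ∈ Subgroup.normalizer (N : Set A) := by
      have e : x' = (x' * x⁻¹) * x := by group
      rw [e]
      exact mul_mem (hle hxx) hx
    have hy' : y' ∈ Subgroup.normalizer (N : Set A) := by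
      have e : y' = (y' * y⁻¹) * y := by group
      rw [e]
      exact mul_mem (hle hyy) hy
    have h1 : x * x'⁻¹ ∈ N := by
      have := inv_mem hxx
      rwa [mul_inv_rev, inv_inv] at this
    have h2 : y * y'⁻¹ ∈ N := by
      have := inv_mem hyy
      rwa [mul_inv_rev, inv_inv] at this
    exact hcon ((key hx' hy' h1 h2 hcon).symm.trans h)
  · exact key hx hy hxx hyy h

end Pool.Agent.Lib.P0c8ca5.Gg
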