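import Mathlib
import Pool.Agent.Lib.P0c8ca5G.Ext
import Pool.Agent.Lib.P0c8ca5G.OmB

/-!
# Module VecB: conjugation of the vectors

PROOF of `ext_unique`.  `τ x` and `τ' x` are intertwiners of `x`, so `τ' x = c τ x` (`Itw.unique`); for `z = g x`, `g ∈ N`:
`tr (τ' z⁻¹) = tr (τ' x⁻¹ ρ g⁻¹) = c⁻¹ tr (τ x⁻¹ ρ g⁻¹) = c⁻¹ tr (τ z⁻¹)`.
PROOF of `cj_av`.  Let `Y` be an intertwiner of `y` with `Y X = s ρ(w) X Y`, `X = τ x`, `w = [y, x]`, `s = om N ρ x y` (`om_spec`, and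
`Itw.unique` to replace the given intertwiner of `x` by `τ x`).  So `Y τ(x) Y⁻¹ = s ρ(w) τ(x) = s τ(w x) = s τ(y x y⁻¹)`, and
`Y τ(g) Y⁻¹ = τ(y g y⁻¹)` for `g ∈ N`; hence `Y τ(g x) Y⁻¹ = s τ(y g x y⁻¹)`.  For `z ∈ N x` let `z' = y⁻¹ z y ∈ N x`:
`Y τ(z'⁻¹) Y⁻¹ = s⁻¹ τ(z⁻¹)`, so `(cj y a)(z) = a(z') = tr τ(z'⁻¹) = s⁻¹ tr τ(z⁻¹)`.
PROOF of `cj_av'`.  `P` an isomorphism of `tw hy ρ` with `ρ'`.  `τ₁ t = P τ(y⁻¹ t y) P⁻¹` for `t ∈ N ⊔ zpowers x` (`y⁻¹ t y` is in this group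
as `y⁻¹ x y ∈ N x`) is an extension of `ρ'`, and its vector is `cj y (av N x τ)`: `tr τ₁(z⁻¹) = tr τ(y⁻¹ z⁻¹ y)`.  Then `ext_unique`.
-/

set_option autoImplicit false

namespace Pool.Agent.Lib.P0c8ca5.Gg

open MonoidAlgebra Ps Bq Zz

variable {p : ℕ} {k : Type*} [Field k] {A : Type*} [Group A] {N : Subgroup A} {n m : ℕ}
  {ρ : Rp k N n} {x y : A}

namespace VecBAux

/-- the linear equivalence of a group element -/
noncomputable def le {G : Type*} [Group G] {V : Type*} [AddCommGroup V] [Module k V]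
    (τ : Representation k G V) (t : G) : V ≃ₗ[k] V :=
  LinearEquiv.ofLinearMap (τ t) (τ t⁻¹)
    (by rw [← Module.End.mul_eq_comp, ← map_mul, mul_inv_cancel, map_one]; rfl)
    (by rw [← Module.End.mul_eq_comp, ← map_mul, inv_mul_cancel, map_one]; rfl)

theorem le_apply {G : Type*} [Group G] {V : Type*} [AddCommGroup V] [Module k V]
    (τ : Representation k G V) (t : G) (v : V) : le τ t v = τ t v := rfl

theorem rep_inv {G : Type*} [Group G] {V : Type*} [AddCommGroup V] [Module k V]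
    (τ : Representation k G V) (t : G) (v : V) : τ t⁻¹ (τ t v) = v := by
  rw [← Module.End.mul_apply, ← map_mul, inv_mul_cancel, map_one]
  rfl

theorem rep_inv' {G : Type*} [Group G] {V : Type*} [AddCommGroup V] [Module k V]
    (τ : Representation k G V) (t : G) (v : V) : τ t (τ t⁻¹ v) = v := by
  rw [← Module.End.mul_apply, ← map_mul, mul_inv_cancel, map_one]
  rfl

theorem mem_x : x ∈ N ⊔ Subgroup.zpowers x :=
  (le_sup_right : Subgroup.zpowers x ≤ _) (Subgroup.mem_zpowers x)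

theorem mem_N {g : A} (hg : g ∈ N) : g ∈ N ⊔ Subgroup.zpowers x :=
  (le_sup_left : N ≤ N ⊔ Subgroup.zpowers x) hg

theorem mem_of {z : A} (hz : z * x⁻¹ ∈ N) : z ∈ N ⊔ Subgroup.zpowers x := by
  have h := mul_mem (mem_N (x := x) hz) (mem_x (N := N) (x := x))
  rwa [inv_mul_cancel_right] at h

theorem coeff_av_not [Finite A] {τ : Rp k (N ⊔ Subgroup.zpowers x) n} {z : A}
    (hz : ¬ z * x⁻¹ ∈ N) : (av N x τ).coeff z = 0 := by
  classical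
  change (Finsupp.equivFunOnFinite.symm fun z =>
    if h : z ∈ N ⊔ Subgroup.zpowers x then
      (if z * x⁻¹ ∈ N then LinearMap.trace k (Fin n → k) (τ ⟨z, h⟩⁻¹) else 0) else 0) z = 0
  rw [Finsupp.equivFunOnFinite_symm_apply_apply]
  split_ifs
  · rfl
  · rfl

/-- the value of an extension at a product -/
theorem ext_mul {τ : Rp k (N ⊔ Subgroup.zpowers x) n} (hτ : IsExt N ρ x τ) {g t : A}
    (hg : g ∈ N) (ht : t ∈ N ⊔ Subgroup.zpowers x) (h : g * t ∈ N ⊔ Subgroup.zpowers x)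
    (v : Fin n → k) : τ ⟨g * t, h⟩ v = ρ ⟨g, hg⟩ (τ ⟨t, ht⟩ v) := by
  have h1 : (⟨g * t, h⟩ : ↥(N ⊔ Subgroup.zpowers x)) = ⟨g, mem_N hg⟩ * ⟨t, ht⟩ := rfl
  rw [h1, map_mul, Module.End.mul_apply, hτ g hg (mem_N hg)]

theorem itw_ext {τ : Rp k (N ⊔ Subgroup.zpowers x) n} (hτ : IsExt N ρ x τ) :
    Itw N ρ x (le τ ⟨x, mem_x⟩) := by
  intro g g' hg v
  rw [le_apply, le_apply, ← hτ g g.2 (mem_N g.2), ← ext_mul hτ g'.2 mem_x
    (mul_mem (mem_N g'.2) mem_x), ← Module.End.mul_apply, ← map_mul]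
  congr 2
  apply Subtype.ext
  change x * (g : A) = g' * x
  rw [hg, inv_mul_cancel_right]

end VecBAux

open VecBAux

theorem ext_unique [IsAlgClosed k] [Finite A] (hρ : Irr' ρ)
    (hx : x ∈ Subgroup.normalizer (N : Set A)) {τ τ' : Rp k (N ⊔ Subgroup.zpowers x) n}
    (hτ : IsExt N ρ x τ) (hτ' : IsExt N ρ x τ') :
    ∃ c : k, c ≠ 0 ∧ av N x τ' = c • av N x τ := by
  obtain ⟨c, hc, h⟩ := Itw.unique hρ hx (itw_ext hτ) (itw_ext hτ')
  refine ⟨c⁻¹, inv_ne_zero hc, ?_⟩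
  ext z
  change (av N x τ').coeff z = c⁻¹ * (av N x τ).coeff z
  by_cases hz : z * x⁻¹ ∈ N
  · have hzT := mem_of hz
    rw [coeff_av hz hzT, coeff_av hz hzT]
    have h1 : ∀ v, τ' ⟨z, hzT⟩ v = c • τ ⟨z, hzT⟩ v := by
      intro v
      have e1 : (⟨z, hzT⟩ : ↥(N ⊔ Subgroup.zpowers x)) =
          ⟨z * x⁻¹ * x, mul_mem (mem_N hz) mem_x⟩ := by
        apply Subtype.ext
        change z = z * x⁻¹ * x
        rw [inv_mul_cancel_right]
      rw [e1, ext_mul hτ' hz mem_x, ext_mul hτ hz mem_x]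
      have h2 := h v
      rw [le_apply, le_apply] at h2
      rw [h2, map_smul]
    have h2 : τ' ⟨z, hzT⟩⁻¹ = c⁻¹ • τ ⟨z, hzT⟩⁻¹ := by
      refine LinearMap.ext fun v => ?_
      have h3 := h1 (τ ⟨z, hzT⟩⁻¹ v)
      rw [rep_inv'] at h3
      have h4 := congrArg (τ' ⟨z, hzT⟩⁻¹) h3
      rw [rep_inv, map_smul] at h4
      rw [LinearMap.smul_apply, h4, smul_smul, inv_mul_cancel₀ hc, one_smul]
    rw [h2, map_smul, smul_eq_mul]
  · rw [coeff_av_not hz, coeff_av_not hz, mul_zero]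

theorem cj_av [IsAlgClosed k] [Finite A] (hρ : Irr' ρ)
    (hx : x ∈ Subgroup.normalizer (N : Set A)) (hy : y ∈ Subgroup.normalizer (N : Set A))
    {τ : Rp k (N ⊔ Subgroup.zpowers x) n} (hτ : IsExt N ρ x τ) (hs : om N ρ x y ≠ 0) :
    cj y (av N x τ) = (om N ρ x y)⁻¹ • av N x τ := by
  obtain ⟨X, Y, w, hX, hY, hw, hXY⟩ := om_spec hs
  obtain ⟨c, hc, hcX⟩ := Itw.unique hρ hx hX (itw_ext hτ)
  set s := om N ρ x y
  have hyn := Subgroup.mem_normalizer_iff.1 hy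
  -- `Y τ(x) = s τ(y x y⁻¹) Y`
  have h1 : ∀ v, Y (τ ⟨x, mem_x⟩ v) = s • ρ w (τ ⟨x, mem_x⟩ (Y v)) := by
    intro v
    have e1 := hcX v
    have e2 := hcX (Y v)
    rw [le_apply] at e1 e2
    rw [e1, e2, map_smul, map_smul, hXY v, smul_comm]
  have h2 : ∀ (z : A) (hz : z * x⁻¹ ∈ N) (hzT : z ∈ N ⊔ Subgroup.zpowers x)
      (hz' : y⁻¹ * z * y ∈ N ⊔ Subgroup.zpowers x) (v : Fin n → k),
      Y (τ ⟨y⁻¹ * z * y, hz'⟩ v) = s • τ ⟨z, hzT⟩ (Y v) := by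
    intro z hz hzT hz' v
    have hg : y⁻¹ * z * y * x⁻¹ ∈ N := by
      rw [hyn]
      have e : y * (y⁻¹ * z * y * x⁻¹) * y⁻¹ = (z * x⁻¹) * (w : A)⁻¹ := by
        rw [hw]; group
      rw [e]
      exact N.mul_mem hz (N.inv_mem w.2)
    have e1 : (⟨y⁻¹ * z * y, hz'⟩ : ↥(N ⊔ Subgroup.zpowers x)) =
        ⟨(y⁻¹ * z * y * x⁻¹) * x, mul_mem (mem_N hg) mem_x⟩ := by
      apply Subtype.ext
      change y⁻¹ * z * y = (y⁻¹ * z * y * x⁻¹) * x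
      rw [inv_mul_cancel_right]
    have hg' : y * (y⁻¹ * z * y * x⁻¹) * y⁻¹ ∈ N := (hyn _).1 hg
    rw [e1, ext_mul hτ hg mem_x, hY ⟨_, hg⟩ ⟨_, hg'⟩ rfl, h1, map_smul]
    congr 1
    rw [← Module.End.mul_apply, ← map_mul]
    have hgw : (y * (y⁻¹ * z * y * x⁻¹) * y⁻¹) * (w : A) ∈ N := N.mul_mem hg' w.2
    have e2 : (⟨z, hzT⟩ : ↥(N ⊔ Subgroup.zpowers x)) =
        ⟨((y * (y⁻¹ * z * y * x⁻¹) * y⁻¹) * (w : A)) * x, mul_mem (mem_N hgw) mem_x⟩ := by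
      apply Subtype.ext
      change z = ((y * (y⁻¹ * z * y * x⁻¹) * y⁻¹) * (w : A)) * x
      rw [hw]; group
    rw [e2, ext_mul hτ hgw mem_x]
    rfl
  ext z
  rw [coeff_cj]
  change _ = s⁻¹ * (av N x τ).coeff z
  by_cases hz : z * x⁻¹ ∈ N
  · have hzT := mem_of hz
    have hg : y⁻¹ * z * y * x⁻¹ ∈ N := by
      rw [hyn]
      have e : y * (y⁻¹ * z * y * x⁻¹) * y⁻¹ = (z * x⁻¹) * (w : A)⁻¹ := by
        rw [hw]; group
      rw [e]
      exact N.mul_mem hz (N.inv_mem w.2)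
    have hz' := mem_of hg
    rw [coeff_av hz hzT, coeff_av hg hz']
    have h3 : Y.conj (τ ⟨y⁻¹ * z * y, hz'⟩⁻¹) = s⁻¹ • τ ⟨z, hzT⟩⁻¹ := by
      refine LinearMap.ext fun v => ?_
      rw [LinearEquiv.conj_apply_apply, LinearMap.smul_apply]
      have h4 := h2 z hz hzT hz' (τ ⟨y⁻¹ * z * y, hz'⟩⁻¹ (Y.symm v))
      rw [rep_inv', LinearEquiv.apply_symm_apply] at h4
      have h5 := congrArg (τ ⟨z, hzT⟩⁻¹) h4
      rw [map_smul, rep_inv] at h5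
      rw [h5, smul_smul, inv_mul_cancel₀ hs, one_smul]
    rw [← LinearMap.trace_conj' (τ ⟨y⁻¹ * z * y, hz'⟩⁻¹) Y, h3, map_smul, smul_eq_mul]
  · have hz' : ¬ y⁻¹ * z * y * x⁻¹ ∈ N := by
      intro hg
      apply hz
      have hg' := N.mul_mem ((hyn _).1 hg) w.2
      have e : y * (y⁻¹ * z * y * x⁻¹) * y⁻¹ * (w : A) = z * x⁻¹ := by
        rw [hw]; group
      rwa [e] at hg'
    rw [coeff_av_not hz, coeff_av_not hz', mul_zero]

theorem cj_av' [IsAlgClosed k] [Finite A] (hρ : Irr' ρ) {ρ' : Rp k N m}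
    (hx : x ∈ Subgroup.normalizer (N : Set A)) (hy : y ∈ Subgroup.normalizer (N : Set A))
    (hyx : y * x * y⁻¹ * x⁻¹ ∈ N) (hiso : Iso (tw hy ρ) ρ')
    {τ : Rp k (N ⊔ Subgroup.zpowers x) n} (hτ : IsExt N ρ x τ)
    {τ' : Rp k (N ⊔ Subgroup.zpowers x) m} (hτ' : IsExt N ρ' x τ') :
    ∃ c : k, c ≠ 0 ∧ cj y (av N x τ) = c • av N x τ' := by
  have hyn := Subgroup.mem_normalizer_iff.1 hy
  have hxyN : y⁻¹ * x * y * x⁻¹ ∈ N := by
    rw [hyn]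
    have e : y * (y⁻¹ * x * y * x⁻¹) * y⁻¹ = (y * x * y⁻¹ * x⁻¹)⁻¹ := by group
    rw [e]
    exact N.inv_mem hyx
  have hyT : y ∈ Subgroup.normalizer ((N ⊔ Subgroup.zpowers x : Subgroup A) : Set A) := by
    rw [Subgroup.mem_normalizer_iff]
    intro t
    constructor
    · intro ht
      have h1 : N ⊔ Subgroup.zpowers x ≤
          (N ⊔ Subgroup.zpowers x).comap (MulAut.conj y).toMonoidHom := by
        refine sup_le ?_ ?_
        · intro g hg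
          exact mem_N ((hyn g).1 hg)
        · rw [Subgroup.zpowers_le]
          exact mem_of hyx
      exact h1 ht
    · intro ht
      have h1 : N ⊔ Subgroup.zpowers x ≤
          (N ⊔ Subgroup.zpowers x).comap (MulAut.conj y⁻¹).toMonoidHom := by
        refine sup_le ?_ ?_
        · intro g hg
          change y⁻¹ * g * y⁻¹⁻¹ ∈ N ⊔ Subgroup.zpowers x
          refine mem_N ((hyn _).2 ?_)
          have e : y * (y⁻¹ * g * y⁻¹⁻¹) * y⁻¹ = g := by group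
          rwa [e]
        · rw [Subgroup.zpowers_le]
          change y⁻¹ * x * y⁻¹⁻¹ ∈ N ⊔ Subgroup.zpowers x
          rw [inv_inv]
          exact mem_of hxyN
      have h2 := h1 ht
      change y⁻¹ * (y * t * y⁻¹) * y⁻¹⁻¹ ∈ N ⊔ Subgroup.zpowers x at h2
      have e : y⁻¹ * (y * t * y⁻¹) * y⁻¹⁻¹ = t := by group
      rwa [e] at h2
  obtain ⟨P, hP⟩ := hiso
  have hρ' : Irr' ρ' := Cy.ExtAux.irr_of_iso (Iso.symm ⟨P, hP⟩) (hρ.tw hy)
  have hτ1 : IsExt N ρ' x (trRep (tw hyT τ) P) := by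
    intro g h1 h2 v
    obtain ⟨w, rfl⟩ := P.surjective v
    rw [trRep_apply, ← hP, tw_apply, tw_apply]
    congr 1
    exact hτ _ (cjN hy ⟨g, h1⟩).2 _ w
  obtain ⟨c, hc, h⟩ := ext_unique hρ' hx hτ' hτ1
  refine ⟨c, hc, ?_⟩
  rw [← h]
  ext z
  rw [coeff_cj]
  by_cases hz : z * x⁻¹ ∈ N
  · have hzT := mem_of hz
    have hg : y⁻¹ * z * y * x⁻¹ ∈ N := by
      rw [hyn]
      have e : y * (y⁻¹ * z * y * x⁻¹) * y⁻¹ = (z * x⁻¹) * (y * x * y⁻¹ * x⁻¹)⁻¹ := by group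
      rw [e]
      exact N.mul_mem hz (N.inv_mem hyx)
    have hz' := mem_of hg
    rw [coeff_av hz hzT, coeff_av hg hz']
    have h3 : P.conj (τ ⟨y⁻¹ * z * y, hz'⟩⁻¹) = trRep (tw hyT τ) P ⟨z, hzT⟩⁻¹ := by
      refine LinearMap.ext fun v => ?_
      obtain ⟨w, rfl⟩ := P.surjective v
      rw [LinearEquiv.conj_apply_apply, LinearEquiv.symm_apply_apply, trRep_apply, tw_apply]
      congr 3
      apply Subtype.ext
      change (y⁻¹ * z * y)⁻¹ = y⁻¹ * z⁻¹ * y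
      group
    rw [← LinearMap.trace_conj' (τ ⟨y⁻¹ * z * y, hz'⟩⁻¹) P, h3]
  · have hz' : ¬ y⁻¹ * z * y * x⁻¹ ∈ N := by
      intro hg
      apply hz
      have hg' := N.mul_mem ((hyn _).1 hg) hyx
      have e : y * (y⁻¹ * z * y * x⁻¹) * y⁻¹ * (y * x * y⁻¹ * x⁻¹) = z * x⁻¹ := by group
      rwa [e] at hg'
    rw [coeff_av_not hz, coeff_av_not hz']

end Pool.Agent.Lib.P0c8ca5.Gg
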