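import Mathlib
import Pool.Agent.Lib.P0c8ca5G.Ext
import Pool.Agent.Lib.P0c8ca5N.ChB

/-!
# Module VecC: the vectors are linearly independent

PROOF of `av_indep`.  Suppose `∑ i, β i • av N x (τ i) = 0`, and let `j` be an index.  The coefficient at `g⁻¹ x` (`g ∈ N`) gives
`∑ i, β i * tr (τ i (x⁻¹) ρ i (g)) = 0` for all `g ∈ N`, hence for all `b` in the group algebra of `N`
`∑ i, β i * tr (X i⁻¹ (ρ i)(b)) = 0` with `X i = τ i x` (linearity).  By the density theorem (`ChBAux.density`, P0c8ca5N.ChB) there is `b` with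
`(ρ i)(b) = 0` for `i ≠ j` and `(ρ j)(b) = X j E`, where `E` has trace `1` (e.g. a matrix unit: `n j > 0` as `ρ j` is irreducible).  So
`β j = 0`.
-/

set_option autoImplicit false

namespace Pool.Agent.Lib.P0c8ca5.Gg

open MonoidAlgebra Ps Bq Zz

variable {p : ℕ} {k : Type*} [Field k] {A : Type*} [Group A] {N : Subgroup A} {x : A}

theorem av_indep [IsAlgClosed k] [Finite A] (hx : x ∈ Subgroup.normalizer (N : Set A))
    {ι : Type*} [Finite ι] (n : ι → ℕ) (ρ : ∀ i, Rp k N (n i)) (hρ : ∀ i, Irr' (ρ i))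
    (hne : ∀ i j, i ≠ j → ¬ Iso (ρ i) (ρ j))
    (τ : ∀ i, Rp k (N ⊔ Subgroup.zpowers x) (n i)) (hτ : ∀ i, IsExt N (ρ i) x (τ i)) :
    LinearIndependent k (fun i => av N x (τ i)) := by
  classical
  cases nonempty_fintype ι
  rw [Fintype.linearIndependent_iff]
  intro β hβ j
  have hxT : x ∈ N ⊔ Subgroup.zpowers x :=
    (le_sup_right : Subgroup.zpowers x ≤ _) (Subgroup.mem_zpowers x)
  have hNT : ∀ g : N, (g : A) ∈ N ⊔ Subgroup.zpowers x := fun g => (le_sup_left : N ≤ _) g.2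
  -- the coefficients
  have hco : ∀ g : N, ∑ i, β i *
      LinearMap.trace k (Fin (n i) → k) ((τ i ⟨x, hxT⟩⁻¹) * (ρ i g)) = 0 := by
    intro g
    have h1 : (((g : A)⁻¹ * x) * x⁻¹) ∈ N := by
      rw [mul_inv_cancel_right]
      exact N.inv_mem g.2
    have h2 : ((g : A)⁻¹ * x) ∈ N ⊔ Subgroup.zpowers x :=
      mul_mem (inv_mem (hNT g)) hxT
    have h3 : (∑ i, β i • av N x (τ i)).coeff ((g : A)⁻¹ * x) = 0 := by
      rw [hβ]
      rfl
    have h4 : ∀ s : Finset ι, (∑ i ∈ s, β i • av N x (τ i)).coeff ((g : A)⁻¹ * x) =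
        ∑ i ∈ s, β i * (av N x (τ i)).coeff ((g : A)⁻¹ * x) := by
      intro s
      induction s using Finset.induction_on with
      | empty => rfl
      | insert a s ha ih =>
        rw [Finset.sum_insert ha, Finset.sum_insert ha, ← ih]
        rfl
    rw [h4] at h3
    rw [← h3]
    refine Finset.sum_congr rfl fun i _ => ?_
    rw [coeff_av h1 h2]
    congr 2
    have h5 : (⟨(g : A)⁻¹ * x, h2⟩ : ↥(N ⊔ Subgroup.zpowers x))⁻¹ =
        ⟨x, hxT⟩⁻¹ * ⟨(g : A), hNT g⟩ := by
      apply Subtype.ext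
      change ((g : A)⁻¹ * x)⁻¹ = x⁻¹ * g
      group
    rw [h5, map_mul]
    refine congrArg (fun q => τ i ⟨x, hxT⟩⁻¹ * q) ?_
    exact LinearMap.ext fun v => (hτ i g g.2 (hNT g) v).symm
  -- linearity
  have hlin : ∀ b : MonoidAlgebra k N, ∑ i, β i *
      LinearMap.trace k (Fin (n i) → k) ((τ i ⟨x, hxT⟩⁻¹) * ((ρ i).asAlgebraHom b)) = 0 := by
    intro b
    induction b using MonoidAlgebra.induction_on with
    | of g =>
      rw [← hco g]
      refine Finset.sum_congr rfl fun i _ => ?_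
      rw [Representation.asAlgebraHom_of]
    | add a b ha hb =>
      rw [← add_zero (0 : k)]
      nth_rewrite 1 [← ha]
      rw [← hb, ← Finset.sum_add_distrib]
      refine Finset.sum_congr rfl fun i _ => ?_
      rw [map_add, mul_add, map_add, mul_add]
    | smul r a ha =>
      rw [← mul_zero r, ← ha, Finset.mul_sum]
      refine Finset.sum_congr rfl fun i _ => ?_
      rw [map_smul, mul_smul_comm, map_smul, smul_eq_mul, mul_left_comm]
  obtain ⟨E, hE⟩ := ChBAux.exists_trace_one (irr_iff.2 (hρ j))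
  obtain ⟨b, hb1, hb2⟩ := ChBAux.density n ρ (fun i => irr_iff.2 (hρ i))
    (fun i i' hii => ⟨fun e => hne i i' hii
      ⟨e.toLinearEquiv, fun g v => LinearMap.congr_fun (e.isIntertwining' g) v⟩⟩) j
    ((τ j ⟨x, hxT⟩) * E)
  have h6 := hlin b
  rw [Finset.sum_eq_single j] at h6
  · rw [hb2, ← mul_assoc, ← map_mul, inv_mul_cancel, map_one, one_mul, hE, mul_one] at h6
    exact h6
  · intro i _ hij
    rw [hb1 i hij, mul_zero, map_zero, mul_zero]
  · intro h
    exact absurd (Finset.mem_univ j) h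

end Pool.Agent.Lib.P0c8ca5.Gg
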