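import Mathlib
import Pool.Agent.Lib.P0c8ca5G.Ext
import Pool.Agent.Lib.P0c8ca5B.Defs
import Pool.Agent.Lib.P0c8ca5Q.RvB
import Pool.Agent.Lib.P0c8ca5Q.Gq

/-!
# Module VecD: the vectors span the space of a coset

`ρ i` (`i ∈ ι`) are representatives of ALL classes of irreducible representations of `N`; `τ i` is an extension of `ρ i` to
`T = N ⊔ zpowers x` if `ρ i` is `x`-invariant (`hτ`).

PROOF of `av_span`.  Let `a ∈ Fs p N N f x` and `φ z = a (z⁻¹)`.
(1) `φ` is a class function of `T` that is zero outside `T` and constant on p-sections (`phi_mem`): `a` is `N`-invariant, for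
`w = g x ∈ N x` we have `x w x⁻¹ = g⁻¹ w g`, and for `w ∈ T` outside `N x` the element `pr p w ≡ w` modulo `N` is outside `N x`.
So `φ` is a combination of irreducible characters of `T` (`span_IrrCh`).
(2) `Gm N x ψ` is the element with the coefficient `ψ (z⁻¹)` at `z ∈ N x`; `Gm N x φ = a`.  For an irreducible representation `σ` of `T`:
if the restriction of `σ` to `N` is irreducible, it is isomorphic to some `ρ i`, `σ` is isomorphic to an extension of `ρ i`, and
`Gm N x (chi σ)` is a multiple of `av N x (τ i)` by `Itw.unique` (`Gm_chi_of_ext`).  If not, the trace of `σ z` vanishes for `z ∈ N x`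
(`trace_zero`): there is a non-scalar `N`-endomorphism (`exists_nonscalar`), so conjugation by `σ y` has an eigenvector `w` in the
`N`-endomorphisms with an eigenvalue `ζ ≠ 1` (`y ^ q ∈ N` and `q ≠ 0` in `k`), `w` is bijective and `tr (σ y) = ζ⁻¹ tr (σ y)`.
(3) Only the `i` with `act (ρ i) f = 1` are needed: `f * a = a`, and `f * av N x (τ i)` is `av N x (τ i)` or `0` as `act (ρ i) f` is `1` or `0`.
-/

set_option autoImplicit false

namespace Pool.Agent.Lib.P0c8ca5.Gg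

open MonoidAlgebra Ps Bq Zz

variable {p : ℕ} {k : Type*} [Field k] {A : Type*} [Group A] {N : Subgroup A} {x : A}

namespace VecDAux

section
open Cy
variable {p : ℕ} {k : Type*} [Field k] {A : Type*} [Group A]

theorem gen_top {N T : Subgroup A} (hNT : N ≤ T) {y : A} (hy : y ∈ T)
    (hT : T ≤ N ⊔ Subgroup.zpowers y) (S : Subgroup T) (h1 : ∀ t : T, (t : A) ∈ N → t ∈ S)
    (h2 : (⟨y, hy⟩ : T) ∈ S) (t : T) : t ∈ S := by
  have h3 : N ⊔ Subgroup.zpowers y ≤ S.map T.subtype := by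
    refine sup_le ?_ ?_
    · intro g hg
      exact ⟨⟨g, hNT hg⟩, h1 _ hg, rfl⟩
    · rw [Subgroup.zpowers_le]
      exact ⟨⟨y, hy⟩, h2, rfl⟩
  obtain ⟨s, hs, e⟩ := h3 (hT t.2)
  have e2 : s = t := Subtype.ext e
  rwa [← e2]

section
variable {V : Type*} [AddCommGroup V] [Module k V]

theorem mul_inv_one {T : Subgroup A} (σ : Representation k T V) (t : T) :
    σ t * σ t⁻¹ = 1 := by
  rw [← map_mul, mul_inv_cancel, map_one]

theorem inv_mul_one {T : Subgroup A} (σ : Representation k T V) (t : T) :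
    σ t⁻¹ * σ t = 1 := by
  rw [← map_mul, inv_mul_cancel, map_one]

theorem inv_apply {T : Subgroup A} (σ : Representation k T V) (t : T) (v : V) :
    σ t⁻¹ (σ t v) = v := by
  rw [← Module.End.mul_apply, inv_mul_one]
  rfl

/-- the elements that commute with `u` -/
def comS {T : Subgroup A} (σ : Representation k T V) (u : Module.End k V) : Subgroup T where
  carrier := {t | u * σ t = σ t * u}
  mul_mem' := by
    intro s t hs ht
    show u * σ (s * t) = σ (s * t) * u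
    rw [map_mul, ← mul_assoc, (show u * σ s = σ s * u from hs), mul_assoc,
      (show u * σ t = σ t * u from ht), mul_assoc]
  one_mem' := by
    show u * σ 1 = σ 1 * u
    rw [map_one, one_mul, mul_one]
  inv_mem' := by
    intro t ht
    have ht' : u * σ t = σ t * u := ht
    show u * σ t⁻¹ = σ t⁻¹ * u
    calc u * σ t⁻¹ = (σ t⁻¹ * σ t) * (u * σ t⁻¹) := by rw [inv_mul_one, one_mul]
      _ = σ t⁻¹ * (σ t * u) * σ t⁻¹ := by simp only [mul_assoc]
      _ = σ t⁻¹ * u * (σ t * σ t⁻¹) := by rw [← ht']; simp only [mul_assoc]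
      _ = σ t⁻¹ * u := by rw [mul_inv_one, mul_one]

/-- the elements that preserve the kernel of `u` -/
def kerS {T : Subgroup A} (σ : Representation k T V) (u : Module.End k V) : Subgroup T where
  carrier := {t | ∀ v, u v = 0 ↔ u (σ t v) = 0}
  mul_mem' := by
    intro s t hs ht v
    have e : σ (s * t) v = σ s (σ t v) := by rw [map_mul]; rfl
    rw [e, ← hs, ← ht]
  one_mem' := by
    intro v
    rw [map_one]
    rfl
  inv_mem' := by
    intro t ht v
    have h := ht (σ t⁻¹ v)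
    have e : σ t (σ t⁻¹ v) = v := by
      rw [← Module.End.mul_apply, mul_inv_one]
      rfl
    rw [e] at h
    exact h.symm

end

/-- a non-scalar endomorphism commuting with the normal subgroup -/
theorem exists_nonscalar {N T : Subgroup A} (hNT : N ≤ T)
    (hn : T ≤ Subgroup.normalizer (N : Set A)) {m : ℕ} {σ : Rp k T m} (hσ : Irr' σ)
    (hN : ¬ Irr' (σ.comp (Subgroup.inclusion hNT) : Representation k N (Fin m → k))) :
    ∃ f : Module.End k (Fin m → k), (∀ t : T, (t : A) ∈ N → f * σ t = σ t * f) ∧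
      ¬ ∃ c : k, ∀ v, f v = c • v := by
  have := hσ.nontriv
  obtain ⟨d, σ', hσ', π, hπ0, hπ⟩ := exists_under hNT hσ
  obtain ⟨W, hW, hWirr⟩ := exists_irr_sub
    (σ.comp (Subgroup.inclusion hNT) : Representation k N (Fin m → k))
  obtain ⟨n, hbij⟩ := exists_twist_iso hNT hn hσ hσ' π hπ0 hπ hWirr W.subtype
    W.injective_subtype (fun _ _ => rfl)
  let θ : W ≃ₗ[k] (Fin d → k) := LinearEquiv.ofBijective (π ∘ₗ σ n ∘ₗ W.subtype) hbij
  have hθ : ∀ w : W, θ w = π (σ n w) := fun w => rfl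
  have hθg : ∀ (g g' : N), (g' : A) = n * g * (n : A)⁻¹ → ∀ w : W,
      θ (subRep (σ.comp (Subgroup.inclusion hNT)) W hW g w) = σ' g' (θ w) := by
    intro g g' hg w
    rw [hθ, hθ, ← hπ]
    congr 1
    show σ n (σ (Subgroup.inclusion hNT g) w) = σ (Subgroup.inclusion hNT g') (σ n w)
    rw [← Module.End.mul_apply, ← Module.End.mul_apply, ← map_mul, ← map_mul]
    congr 2
    apply Subtype.ext
    show (n : A) * g = g' * n
    rw [hg]
    group
  have hθs : ∀ (g g' : N), (g' : A) = n * g * (n : A)⁻¹ → ∀ s,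
      θ.symm (σ' g' s) = subRep (σ.comp (Subgroup.inclusion hNT)) W hW g (θ.symm s) := by
    intro g g' hg s
    apply θ.injective
    rw [LinearEquiv.apply_symm_apply, hθg g g' hg, LinearEquiv.apply_symm_apply]
  let f : Module.End k (Fin m → k) := σ n ∘ₗ W.subtype ∘ₗ θ.symm.toLinearMap ∘ₗ π
  have hf : ∀ v, f v = σ n (θ.symm (π v) : W) := fun v => rfl
  refine ⟨f, ?_, ?_⟩
  · intro t ht
    apply LinearMap.ext
    intro v
    rw [Module.End.mul_apply, Module.End.mul_apply, hf, hf]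
    have hnt : (n : A)⁻¹ * t * n ∈ N := by
      have h := (Subgroup.mem_normalizer_iff.1 (Subgroup.inv_mem _ (hn n.2)) (t : A)).1 ht
      rwa [inv_inv] at h
    have e1 : π (σ t v) = σ' ⟨t, ht⟩ (π v) := hπ ⟨t, ht⟩ v
    have e2 := hθs ⟨(n : A)⁻¹ * t * n, hnt⟩ ⟨t, ht⟩ (by show (t : A) = _; group) (π v)
    rw [e1, e2]
    show σ n (σ (Subgroup.inclusion hNT ⟨(n : A)⁻¹ * t * n, hnt⟩) (θ.symm (π v) : W)) = _
    rw [← Module.End.mul_apply, ← Module.End.mul_apply, ← map_mul, ← map_mul]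
    congr 2
    apply Subtype.ext
    show (n : A) * ((n : A)⁻¹ * t * n) = t * n
    group
  · rintro ⟨c, hc⟩
    by_cases h0 : c = 0
    · apply hπ0
      apply LinearMap.ext
      intro v
      have h1 := hc v
      rw [h0, zero_smul, hf] at h1
      have h2 : ((θ.symm (π v) : W) : Fin m → k) = 0 := by
        rw [← inv_apply σ n ((θ.symm (π v) : W) : Fin m → k), h1, map_zero]
      have h3 : θ.symm (π v) = 0 := Subtype.ext h2
      have h4 : π v = 0 := by
        rw [← θ.apply_symm_apply (π v), h3, map_zero]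
      exact h4
    · apply hN
      have hinj : Function.Injective π := by
        rw [injective_iff_map_eq_zero]
        intro v hv
        have h1 := hc v
        rw [hf, hv, map_zero] at h1
        have h2 : c • v = 0 := by
          rw [← h1]
          exact map_zero (σ n)
        exact (smul_eq_zero.1 h2).resolve_left h0
      have hsur : Function.Surjective π := hσ'.surjective π hπ0
        (fun g v => ⟨σ (Subgroup.inclusion hNT g) v, hπ g v⟩)
      exact ExtAux.irr_of_iso ⟨LinearEquiv.ofBijective π ⟨hinj, hsur⟩, hπ⟩ hσ'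

theorem trace_zero [Fact p.Prime] [CharP k p] [IsAlgClosed k] {N T : Subgroup A} (hNT : N ≤ T)
    (hn : T ≤ Subgroup.normalizer (N : Set A)) {m : ℕ} {σ : Rp k T m} (hσ : Irr' σ)
    (hN : ¬ Irr' (σ.comp (Subgroup.inclusion hNT) : Representation k N (Fin m → k)))
    {y : A} (hy : y ∈ T) (hT : T ≤ N ⊔ Subgroup.zpowers y) {q : ℕ} (hq : ¬ p ∣ q)
    (hyq : y ^ q ∈ N) :
    LinearMap.trace k (Fin m → k) (σ ⟨y, hy⟩) = 0 := by
  obtain ⟨f, hf, hfs⟩ := exists_nonscalar hNT hn hσ hN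
  let Y : T := ⟨y, hy⟩
  let E : Submodule k (Module.End k (Fin m → k)) :=
    { carrier := {u | ∀ t : T, (t : A) ∈ N → u * σ t = σ t * u}
      add_mem' := by
        intro u v hu hv t ht
        rw [add_mul, mul_add, hu t ht, hv t ht]
      zero_mem' := by
        intro t ht
        rw [zero_mul, mul_zero]
      smul_mem' := by
        intro c u hu t ht
        rw [smul_mul_assoc, hu t ht, mul_smul_comm] }
  let C : Module.End k (Module.End k (Fin m → k)) :=
    LinearMap.mulLeft k (σ Y) ∘ₗ LinearMap.mulRight k (σ Y⁻¹)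
  have hC : ∀ u, C u = σ Y * (u * σ Y⁻¹) := fun u => rfl
  have hCE : ∀ u ∈ E, C u ∈ E := by
    intro u hu t ht
    have hmem : ((Y⁻¹ * t * Y : T) : A) ∈ N := by
      have h := (Subgroup.mem_normalizer_iff.1 (Subgroup.inv_mem _ (hn hy)) (t : A)).1 ht
      rw [inv_inv] at h
      exact h
    have h1 := hu (Y⁻¹ * t * Y) hmem
    have e1 : σ Y⁻¹ * σ t = σ (Y⁻¹ * t * Y) * σ Y⁻¹ := by
      rw [← map_mul, ← map_mul]
      congr 1
      group
    have e2 : σ Y * σ (Y⁻¹ * t * Y) = σ t * σ Y := by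
      rw [← map_mul, ← map_mul]
      congr 1
      group
    rw [hC]
    calc σ Y * (u * σ Y⁻¹) * σ t = σ Y * (u * (σ Y⁻¹ * σ t)) := by simp only [mul_assoc]
      _ = σ Y * ((u * σ (Y⁻¹ * t * Y)) * σ Y⁻¹) := by rw [e1]; simp only [mul_assoc]
      _ = (σ Y * σ (Y⁻¹ * t * Y)) * (u * σ Y⁻¹) := by rw [h1]; simp only [mul_assoc]
      _ = σ t * (σ Y * (u * σ Y⁻¹)) := by rw [e2]; simp only [mul_assoc]
  have hCf : C f - f ≠ 0 := by
    intro h
    apply hfs
    have h1 : C f = f := sub_eq_zero.1 h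
    rw [hC] at h1
    have h2 : f * σ Y = σ Y * f := by
      calc f * σ Y = (σ Y * (f * σ Y⁻¹)) * σ Y := by rw [h1]
        _ = σ Y * f * (σ Y⁻¹ * σ Y) := by simp only [mul_assoc]
        _ = σ Y * f := by rw [inv_mul_one, mul_one]
    have h3 := gen_top hNT hy hT (comS σ f) hf h2
    refine ExtAux.schur_end hσ f ?_
    intro g v
    have h4 : f * σ g = σ g * f := h3 g
    exact LinearMap.congr_fun h4 v
  let E₁ : Submodule k (Module.End k (Fin m → k)) := E.map (C - 1)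
  have hCE₁ : ∀ u ∈ E₁, C u ∈ E₁ := by
    rintro _ ⟨u, hu, rfl⟩
    refine ⟨C u, hCE u hu, ?_⟩
    rw [LinearMap.sub_apply, LinearMap.sub_apply, map_sub]
    rfl
  have hnt : Nontrivial E₁ := by
    refine ⟨⟨⟨C f - f, ⟨f, hf, rfl⟩⟩, 0, ?_⟩⟩
    intro h
    exact hCf (congrArg Subtype.val h)
  obtain ⟨ζ, hζ⟩ := Module.End.exists_eigenvalue (K := k) (V := E₁) (C.restrict hCE₁)
  obtain ⟨w, hw⟩ := hζ.exists_hasEigenvector
  have hw1 : C (w : Module.End k (Fin m → k)) = ζ • (w : Module.End k (Fin m → k)) :=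
    congrArg Subtype.val hw.apply_eq_smul
  have hw0 : (w : Module.End k (Fin m → k)) ≠ 0 := by
    intro h
    exact hw.2 (Subtype.ext h)
  obtain ⟨u, hu, huw⟩ := w.2
  have huw' : C u = u + (w : Module.End k (Fin m → k)) := by
    rw [← huw, LinearMap.sub_apply]
    show C u = u + (C u - u)
    abel
  have hwE : (w : Module.End k (Fin m → k)) ∈ E := by
    have h : (w : Module.End k (Fin m → k)) = C u - u := by rw [huw']; abel
    rw [h]
    exact E.sub_mem (hCE u hu) hu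
  generalize (w : Module.End k (Fin m → k)) = w' at *
  have hζ1 : ζ ≠ 1 := by
    rintro rfl
    rw [one_smul] at hw1
    have hpow : ∀ j : ℕ, σ (Y ^ j) * (u * σ (Y ^ j)⁻¹) = u + (j : k) • w' := by
      intro j
      induction j with
      | zero =>
        rw [pow_zero, inv_one, map_one, one_mul, mul_one, Nat.cast_zero, zero_smul, add_zero]
      | succ j ih =>
        have e1 : σ (Y ^ (j + 1)) * (u * σ (Y ^ (j + 1))⁻¹) =
            C (σ (Y ^ j) * (u * σ (Y ^ j)⁻¹)) := by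
          rw [hC, pow_succ', mul_inv_rev, map_mul, map_mul]
          simp only [mul_assoc]
        rw [e1, ih, map_add, map_smul, hw1, huw', Nat.cast_succ, add_smul, one_smul]
        abel
    have hmem : ((Y ^ q : T) : A)⁻¹ ∈ N := N.inv_mem hyq
    have h1 := hpow q
    rw [hu (Y ^ q)⁻¹ hmem, ← mul_assoc, mul_inv_one, one_mul] at h1
    have h2 : (q : k) • w' = 0 := left_eq_add.1 h1
    rcases smul_eq_zero.1 h2 with h3 | h3
    · exact hq ((CharP.cast_eq_zero_iff k p q).1 h3)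
    · exact hw0 h3
  have hYw : σ Y * w' = ζ • (w' * σ Y) := by
    rw [← smul_mul_assoc, ← hw1, hC]
    simp only [mul_assoc]
    rw [inv_mul_one, mul_one]
  have hζ0 : ζ ≠ 0 := by
    rintro rfl
    rw [zero_smul] at hYw
    apply hw0
    calc w' = (σ Y⁻¹ * σ Y) * w' := by rw [inv_mul_one, one_mul]
      _ = σ Y⁻¹ * (σ Y * w') := by rw [mul_assoc]
      _ = 0 := by rw [hYw, mul_zero]
  have hYw' : ∀ v, σ Y (w' v) = ζ • w' (σ Y v) := fun v => LinearMap.congr_fun hYw v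
  have hk := gen_top hNT hy hT (kerS σ w') (by
    intro t ht v
    have h1 : w' (σ t v) = σ t (w' v) := LinearMap.congr_fun (hwE t ht) v
    rw [h1]
    constructor
    · intro h
      rw [h, map_zero]
    · intro h
      rw [← inv_apply σ t (w' v), h, map_zero]) (by
    intro v
    constructor
    · intro h
      have h1 := hYw' v
      rw [h, map_zero] at h1
      exact (smul_eq_zero.1 h1.symm).resolve_left hζ0
    · intro h
      have h1 := hYw' v
      rw [show w' (σ Y v) = 0 from h, smul_zero] at h1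
      rw [← inv_apply σ Y (w' v), h1, map_zero])
  have hinj : Function.Injective w' := hσ.injective w' hw0 (fun g v h => (hk g v).1 h)
  let P : (Fin m → k) ≃ₗ[k] (Fin m → k) := LinearEquiv.ofInjectiveEndo w' hinj
  have hP : ∀ v, P v = w' v := fun v => rfl
  have h1 : P.conj (σ Y) = ζ⁻¹ • σ Y := by
    apply LinearMap.ext
    intro v
    rw [LinearEquiv.conj_apply_apply, LinearMap.smul_apply, hP]
    have h2 := hYw' (P.symm v)
    have h3 : w' (P.symm v) = v := P.apply_symm_apply v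
    rw [h3] at h2
    rw [h2, smul_smul, inv_mul_cancel₀ hζ0, one_smul]
  have h2 : LinearMap.trace k (Fin m → k) (σ Y) = ζ⁻¹ * LinearMap.trace k (Fin m → k) (σ Y) := by
    rw [← smul_eq_mul, ← map_smul, ← h1, LinearMap.trace_conj']
  have h3 : (1 - ζ⁻¹) * LinearMap.trace k (Fin m → k) (σ Y) = 0 := by
    rw [sub_mul, one_mul, ← h2, sub_self]
  rcases mul_eq_zero.1 h3 with h4 | h4
  · exfalso
    apply hζ1
    have h5 : ζ⁻¹ = 1 := (sub_eq_zero.1 h4).symm
    exact inv_eq_one.1 h5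
  · exact h4

end

theorem T_le (hx : x ∈ Subgroup.normalizer (N : Set A)) :
    N ⊔ Subgroup.zpowers x ≤ Subgroup.normalizer (N : Set A) :=
  sup_le (GqAux.self_le N) (Subgroup.zpowers_le.2 hx)

theorem prm_of_mem (hx : x ∈ Subgroup.normalizer (N : Set A)) (hxp : Prm p N x) {w : A}
    (hw : w ∈ N ⊔ Subgroup.zpowers x) : Prm p N w := by
  obtain ⟨m, hm, hxm⟩ := hxp
  refine ⟨m, hm, ?_⟩
  obtain ⟨g, hg, d, hd, rfl⟩ := (mem_sup_norm (Subgroup.zpowers_le.2 hx)).1 hw
  obtain ⟨j, rfl⟩ := hd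
  have h1 := pow_cos (K := Subgroup.normalizer (N : Set A)) (M := N) le_rfl (x := x ^ j)
    (z := g * x ^ j) (Subgroup.zpow_mem _ hx j) (by rw [mul_inv_cancel_right]; exact hg) m
  have h2 : (x ^ j) ^ m ∈ N := by
    rw [← zpow_natCast, ← zpow_mul, mul_comm, zpow_mul, zpow_natCast]
    exact N.zpow_mem hxm j
  have h3 := N.mul_mem h1 h2
  rwa [inv_mul_cancel_right] at h3

theorem mem_T_of_cos {z : A} (hz : z * x⁻¹ ∈ N) : z ∈ N ⊔ Subgroup.zpowers x := by
  have e : z = (z * x⁻¹) * x := by group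
  rw [e]
  exact Subgroup.mul_mem _ ((le_sup_left : N ≤ N ⊔ Subgroup.zpowers x) hz)
    ((le_sup_right : Subgroup.zpowers x ≤ N ⊔ Subgroup.zpowers x) (Subgroup.mem_zpowers x))

/-- the subgroup of the elements fixing `a` under conjugation -/
def stA (a : MonoidAlgebra k A) : Subgroup A where
  carrier := {h | ∀ w, a.coeff (h * w * h⁻¹) = a.coeff w}
  mul_mem' := by
    intro g h hg hh w
    have e : g * h * w * (g * h)⁻¹ = g * (h * w * h⁻¹) * g⁻¹ := by group
    rw [e, hg, hh]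
  one_mem' := by
    intro w
    rw [one_mul, inv_one, mul_one]
  inv_mem' := by
    intro h hh w
    have h1 := hh (h⁻¹ * w * h⁻¹⁻¹)
    rw [← h1]
    congr 1
    group

theorem phi_mem [Fact p.Prime] [Fintype A] (hx : x ∈ Subgroup.normalizer (N : Set A))
    (hxp : Prm p N x) {f a : MonoidAlgebra k A} (ha : a ∈ Fs p N N f x) :
    (fun z => a.coeff z⁻¹) ∈ XH p k (N ⊔ Subgroup.zpowers x) := by
  obtain ⟨h1, h2, h3, -⟩ := mem_Fs.1 ha
  have hN : ∀ y ∈ N, ∀ z, a.coeff (y * z * y⁻¹) = a.coeff z := by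
    intro y hy
    apply h2 y hy
    have e : y * x * y⁻¹ * x⁻¹ = y * (x * y⁻¹ * x⁻¹) := by group
    rw [e]
    exact N.mul_mem hy (GqAux.nm_mem hx (N.inv_mem hy))
  have hzero : ∀ w, w * x⁻¹ ∉ N → a.coeff w = 0 := by
    intro w hw
    by_contra h
    exact hw (h1 w h)
  have hX : x ∈ stA a := by
    intro w
    by_cases hw : w * x⁻¹ ∈ N
    · have e : x * w * x⁻¹ = (w * x⁻¹)⁻¹ * w * ((w * x⁻¹)⁻¹)⁻¹ := by group
      rw [e]
      exact hN _ (N.inv_mem hw) w
    · rw [hzero w hw, hzero]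
      intro h
      apply hw
      have h4 := GqAux.nm_mem' hx h
      have e : x⁻¹ * (x * w * x⁻¹ * x⁻¹) * x = w * x⁻¹ := by group
      rwa [e] at h4
  have hT : N ⊔ Subgroup.zpowers x ≤ stA a :=
    sup_le (fun y hy => hN y hy) (Subgroup.zpowers_le.2 hX)
  refine mem_XH.2 ⟨?_, ?_, ?_⟩
  · intro z hz
    apply hzero
    intro h
    apply hz
    have h4 := Subgroup.inv_mem _ (mem_T_of_cos h)
    rwa [inv_inv] at h4
  · intro h hh z
    have e : (h * z * h⁻¹)⁻¹ = h * z⁻¹ * h⁻¹ := by group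
    show a.coeff (h * z * h⁻¹)⁻¹ = a.coeff z⁻¹
    rw [e]
    exact hT hh z⁻¹
  · intro z hz
    have e : (pr p z)⁻¹ = pr p z⁻¹ := by
      unfold pr
      rw [inv_pow]
    show a.coeff (pr p z)⁻¹ = a.coeff z⁻¹
    rw [e]
    have hw : z⁻¹ ∈ N ⊔ Subgroup.zpowers x := Subgroup.inv_mem _ hz
    by_cases h : z⁻¹ * x⁻¹ ∈ N
    · exact h3 _ h
    · have h4 : pr p z⁻¹ * (z⁻¹)⁻¹ ∈ N :=
        pr_mem_cos (T_le hx) hw (prm_of_mem hx hxp hw)
          (by rw [mul_inv_cancel]; exact N.one_mem)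
      rw [hzero _ h, hzero]
      intro h5
      apply h
      have e2 : z⁻¹ * x⁻¹ = (pr p z⁻¹ * (z⁻¹)⁻¹)⁻¹ * (pr p z⁻¹ * x⁻¹) := by group
      rw [e2]
      exact N.mul_mem (N.inv_mem h4) h5

open Classical in
/-- the function on the coset `N x` of a function -/
noncomputable def Gm [Finite A] (N : Subgroup A) (x : A) : (A → k) →ₗ[k] MonoidAlgebra k A where
  toFun ψ := MonoidAlgebra.ofCoeff (Finsupp.equivFunOnFinite.symm fun z =>
    if z * x⁻¹ ∈ N then ψ z⁻¹ else 0)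
  map_add' ψ θ := by
    ext z
    rw [coeff_add, Finsupp.add_apply]
    simp only [Finsupp.equivFunOnFinite_symm_apply_apply, Pi.add_apply]
    split_ifs
    · rfl
    · rw [add_zero]
  map_smul' c ψ := by
    ext z
    rw [RingHom.id_apply, coeff_smul_apply]
    simp only [Finsupp.equivFunOnFinite_symm_apply_apply, Pi.smul_apply]
    split_ifs
    · rfl
    · rw [smul_zero]

open Classical in
theorem coeff_Gm [Finite A] (ψ : A → k) (z : A) :
    (Gm N x ψ).coeff z = if z * x⁻¹ ∈ N then ψ z⁻¹ else 0 := by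
  simp only [Gm, LinearMap.coe_mk, AddHom.coe_mk, MonoidAlgebra.coeff_ofCoeff,
    Finsupp.equivFunOnFinite_symm_apply_apply]

theorem Gm_phi [Finite A] {a : MonoidAlgebra k A} (h1 : ∀ z, a.coeff z ≠ 0 → z * x⁻¹ ∈ N) :
    Gm N x (fun z => a.coeff z⁻¹) = a := by
  classical
  ext z
  rw [coeff_Gm]
  split_ifs with h
  · rw [inv_inv]
  · by_contra h2
    exact h (h1 z (Ne.symm h2))

theorem coeff_av' [Finite A] {n : ℕ} (τ : Rp k (N ⊔ Subgroup.zpowers x) n) {z : A}
    (hz : z * x⁻¹ ∉ N) : (av N x τ).coeff z = 0 := by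
  simp only [av, MonoidAlgebra.coeff_ofCoeff, Finsupp.equivFunOnFinite_symm_apply_apply]
  split_ifs <;> rfl


/-- the intertwiner of an extension -/
theorem itw_of_ext {n : ℕ} {ρ : Rp k N n} {τ : Rp k (N ⊔ Subgroup.zpowers x) n}
    (hτ : IsExt N ρ x τ) (hxT : x ∈ N ⊔ Subgroup.zpowers x) :
    ∃ X : (Fin n → k) ≃ₗ[k] (Fin n → k), Itw N ρ x X ∧ ∀ v, X v = τ ⟨x, hxT⟩ v := by
  let X : (Fin n → k) ≃ₗ[k] (Fin n → k) :=
    LinearEquiv.ofLinearMap (τ ⟨x, hxT⟩) (τ ⟨x, hxT⟩⁻¹)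
      (by rw [← Module.End.mul_eq_comp, mul_inv_one]; rfl)
      (by rw [← Module.End.mul_eq_comp, inv_mul_one]; rfl)
  refine ⟨X, ?_, fun v => rfl⟩
  intro g g' hg v
  show τ ⟨x, hxT⟩ (ρ g v) = ρ g' (τ ⟨x, hxT⟩ v)
  have hgT : (g : A) ∈ N ⊔ Subgroup.zpowers x :=
    (le_sup_left : N ≤ N ⊔ Subgroup.zpowers x) g.2
  have hgT' : (g' : A) ∈ N ⊔ Subgroup.zpowers x :=
    (le_sup_left : N ≤ N ⊔ Subgroup.zpowers x) g'.2
  have e1 : ρ g v = τ ⟨g, hgT⟩ v := (hτ g g.2 hgT v).symm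
  have e2 : ρ g' (τ ⟨x, hxT⟩ v) = τ ⟨g', hgT'⟩ (τ ⟨x, hxT⟩ v) := (hτ g' g'.2 hgT' _).symm
  rw [e1, e2, ← Module.End.mul_apply, ← Module.End.mul_apply, ← map_mul, ← map_mul]
  congr 2
  apply Subtype.ext
  show x * (g : A) = g' * x
  rw [hg]
  group

theorem Gm_chi_of_ext [Finite A] [IsAlgClosed k] (hx : x ∈ Subgroup.normalizer (N : Set A))
    {n : ℕ} {ρ : Rp k N n} (hρ : Irr' ρ) {τ σ : Rp k (N ⊔ Subgroup.zpowers x) n}
    (hτ : IsExt N ρ x τ) (hσ : IsExt N ρ x σ) :
    ∃ c : k, Gm N x (chi σ) = c • av N x τ := by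
  classical
  have hxT : x ∈ N ⊔ Subgroup.zpowers x :=
    (le_sup_right : Subgroup.zpowers x ≤ N ⊔ Subgroup.zpowers x) (Subgroup.mem_zpowers x)
  obtain ⟨X, hX, hXv⟩ := itw_of_ext hτ hxT
  obtain ⟨X', hX', hXv'⟩ := itw_of_ext hσ hxT
  obtain ⟨c, hc, hcX⟩ := Itw.unique hρ hx hX hX'
  have h1 : ∀ v, σ ⟨x, hxT⟩ v = c • τ ⟨x, hxT⟩ v := fun v => by rw [← hXv', hcX, hXv]
  have h2 : ∀ (z : A) (_ : z * x⁻¹ ∈ N) (h : z ∈ N ⊔ Subgroup.zpowers x) (v : Fin n → k),
      σ ⟨z, h⟩ v = c • τ ⟨z, h⟩ v := by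
    intro z hz h v
    have hgT : z * x⁻¹ ∈ N ⊔ Subgroup.zpowers x :=
      (le_sup_left : N ≤ N ⊔ Subgroup.zpowers x) hz
    have e : (⟨z, h⟩ : (N ⊔ Subgroup.zpowers x : Subgroup A)) = ⟨z * x⁻¹, hgT⟩ * ⟨x, hxT⟩ :=
      Subtype.ext (by show z = z * x⁻¹ * x; group)
    rw [e, map_mul, map_mul, Module.End.mul_apply, Module.End.mul_apply, h1, map_smul,
      hσ _ hz hgT, hτ _ hz hgT]
  have h3 : ∀ (z : A) (_ : z * x⁻¹ ∈ N) (h : z ∈ N ⊔ Subgroup.zpowers x),
      σ (⟨z, h⟩ : (N ⊔ Subgroup.zpowers x : Subgroup A))⁻¹ =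
        c⁻¹ • τ (⟨z, h⟩ : (N ⊔ Subgroup.zpowers x : Subgroup A))⁻¹ := by
    intro z hz h
    apply LinearMap.ext
    intro v
    rw [LinearMap.smul_apply]
    have e1 : v = σ ⟨z, h⟩ (c⁻¹ • τ (⟨z, h⟩ : (N ⊔ Subgroup.zpowers x : Subgroup A))⁻¹ v) := by
      rw [h2 z hz h, map_smul, smul_smul, mul_inv_cancel₀ hc, one_smul,
        ← Module.End.mul_apply, mul_inv_one]
      rfl
    conv_lhs => rw [e1]
    exact inv_apply σ ⟨z, h⟩ _
  refine ⟨c⁻¹, ?_⟩
  ext z
  rw [coeff_Gm, coeff_smul_apply]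
  split_ifs with hz
  · have hT := mem_T_of_cos hz
    rw [coeff_av hz hT, chi_of_mem σ (Subgroup.inv_mem _ hT)]
    have e : (⟨z⁻¹, Subgroup.inv_mem _ hT⟩ : (N ⊔ Subgroup.zpowers x : Subgroup A)) =
      (⟨z, hT⟩ : (N ⊔ Subgroup.zpowers x : Subgroup A))⁻¹ := rfl
    rw [e, h3 z hz hT, map_smul]
  · rw [coeff_av' τ hz, smul_zero]

theorem Gm_chi_mem [Fact p.Prime] [CharP k p] [IsAlgClosed k] [Fintype A]
    (hx : x ∈ Subgroup.normalizer (N : Set A)) (hxp : Prm p N x)
    {ι : Type*} (n : ι → ℕ) (ρ : ∀ i, Rp k N (n i)) (hρ : ∀ i, Irr' (ρ i))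
    (hall : ∀ (m : ℕ) (σ : Rp k N m), Irr' σ → ∃ i, Iso σ (ρ i))
    (τ : ∀ i, Rp k (N ⊔ Subgroup.zpowers x) (n i))
    (hτ : ∀ i, (∃ X, Itw N (ρ i) x X) → IsExt N (ρ i) x (τ i))
    {m : ℕ} {σ : Rp k (N ⊔ Subgroup.zpowers x) m} (hσ : Irr' σ) :
    Gm N x (chi σ) ∈ Submodule.span k {b | ∃ i, (∃ X, Itw N (ρ i) x X) ∧ b = av N x (τ i)} := by
  classical
  have hNT : N ≤ N ⊔ Subgroup.zpowers x := le_sup_left
  have hxT : x ∈ N ⊔ Subgroup.zpowers x :=
    (le_sup_right : Subgroup.zpowers x ≤ N ⊔ Subgroup.zpowers x) (Subgroup.mem_zpowers x)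
  by_cases hN : Irr' (σ.comp (Subgroup.inclusion hNT) : Representation k N (Fin m → k))
  · obtain ⟨i, P, hP⟩ := hall m _ hN
    have hσ' : IsExt N (ρ i) x (trRep σ P) := by
      intro g h1 h2 v
      have h := hP ⟨g, h1⟩ (P.symm v)
      rw [P.apply_symm_apply] at h
      exact h
    have hchi : chi (trRep σ P) = chi σ := by
      funext z
      by_cases hz : z ∈ N ⊔ Subgroup.zpowers x
      · rw [chi_of_mem σ hz, chi_of_mem (trRep σ P) hz, ← LinearMap.trace_conj' (σ ⟨z, hz⟩) P]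
        rfl
      · rw [chi_of_notMem σ hz, chi_of_notMem (trRep σ P) hz]
    have hX : ∃ X, Itw N (ρ i) x X := by
      obtain ⟨X, hX, -⟩ := itw_of_ext hσ' hxT
      exact ⟨X, hX⟩
    obtain ⟨c, hc⟩ := Gm_chi_of_ext hx (hρ i) (hτ i hX) hσ'
    rw [← hchi, hc]
    exact Submodule.smul_mem _ _ (Submodule.subset_span ⟨i, hX, rfl⟩)
  · have h0 : Gm N x (chi σ) = 0 := by
      ext z
      rw [coeff_Gm]
      split_ifs with hz
      · have hT := mem_T_of_cos hz
        have hT' := Subgroup.inv_mem _ hT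
        obtain ⟨q, hq, hyq⟩ := prm_of_mem hx hxp hT'
        rw [chi_of_mem σ hT']
        have hle : N ⊔ Subgroup.zpowers x ≤ N ⊔ Subgroup.zpowers z⁻¹ := by
          refine sup_le le_sup_left ?_
          rw [Subgroup.zpowers_le]
          have h1 : (z * x⁻¹)⁻¹ * (z⁻¹)⁻¹ ∈ N ⊔ Subgroup.zpowers z⁻¹ :=
            Subgroup.mul_mem _
              ((le_sup_left : N ≤ N ⊔ Subgroup.zpowers z⁻¹) (N.inv_mem hz))
              ((le_sup_right : Subgroup.zpowers z⁻¹ ≤ N ⊔ Subgroup.zpowers z⁻¹)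
                (Subgroup.inv_mem _ (Subgroup.mem_zpowers z⁻¹)))
          have e : (z * x⁻¹)⁻¹ * (z⁻¹)⁻¹ = x := by group
          rwa [e] at h1
        exact trace_zero hNT (T_le hx) hσ hN hT' hle hq hyq
      · rfl
    rw [h0]
    exact Submodule.zero_mem _

theorem act_compl [Finite A] {n : ℕ} (ρ : Rp k N n) {f : MonoidAlgebra k A}
    (h : act ρ f = 0) : act ρ (1 - f) = 1 := by
  classical
  have : Fintype N := Fintype.ofFinite N
  have h1 : ∀ v, act ρ (1 : MonoidAlgebra k A) v = v := by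
    intro v
    rw [act_apply, Finset.sum_eq_single (1 : N)]
    · rw [OneMemClass.coe_one, MonoidAlgebra.one_def, coeff_single, Finsupp.single_eq_same,
        one_smul, map_one]
      rfl
    · intro g _ hg
      rw [MonoidAlgebra.one_def, coeff_single, Finsupp.single_eq_of_ne, zero_smul]
      intro h2
      exact hg (Subtype.ext h2)
    · intro h2
      exact absurd (Finset.mem_univ _) h2
  apply LinearMap.ext
  intro v
  have h2 : act ρ (1 - f) v = act ρ (1 : MonoidAlgebra k A) v - act ρ f v := by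
    rw [act_apply, act_apply, act_apply, ← Finset.sum_sub_distrib]
    refine Finset.sum_congr rfl fun g _ => ?_
    rw [MonoidAlgebra.coeff_sub, Finsupp.sub_apply, sub_smul]
  rw [h2, h1, h, LinearMap.zero_apply, sub_zero]
  rfl

theorem supp_compl {f : MonoidAlgebra k A} (hf : SuppIn N f) : SuppIn N (1 - f) := by
  classical
  intro z hz
  by_contra h
  apply hz
  have h1 : f.coeff z = 0 := by
    by_contra h2
    exact h (hf z h2)
  rw [MonoidAlgebra.coeff_sub, Finsupp.sub_apply, h1, sub_zero, MonoidAlgebra.one_def,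
    coeff_single, Finsupp.single_eq_of_ne]
  rintro rfl
  exact h N.one_mem

end VecDAux

open VecDAux in
theorem av_span [Fact p.Prime] [CharP k p] [IsAlgClosed k] [Fintype A]
    (hx : x ∈ Subgroup.normalizer (N : Set A)) (hxp : Prm p N x)
    {f : MonoidAlgebra k A} (hf : SuppIn N f) (hfi : InvBy N f) (hff : f * f = f)
    {ι : Type*} [Finite ι] (n : ι → ℕ) (ρ : ∀ i, Rp k N (n i)) (hρ : ∀ i, Irr' (ρ i))
    (hne : ∀ i j, i ≠ j → ¬ Iso (ρ i) (ρ j))
    (hall : ∀ (m : ℕ) (σ : Rp k N m), Irr' σ → ∃ i, Iso σ (ρ i))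
    (τ : ∀ i, Rp k (N ⊔ Subgroup.zpowers x) (n i))
    (hτ : ∀ i, (∃ X, Itw N (ρ i) x X) → IsExt N (ρ i) x (τ i)) {a : MonoidAlgebra k A}
    (ha : a ∈ Fs p N N f x) :
    a ∈ Submodule.span k
      {b | ∃ i, (∃ X, Itw N (ρ i) x X) ∧ act (ρ i) f = 1 ∧ b = av N x (τ i)} := by
  obtain ⟨h1, -, -, h4⟩ := mem_Fs.1 ha
  have hphi := phi_mem hx hxp ha
  rw [← span_IrrCh (p := p)] at hphi
  have hmem : a ∈ Submodule.span k
      {b | ∃ i, (∃ X, Itw N (ρ i) x X) ∧ b = av N x (τ i)} := by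
    have hle : (Submodule.span k (IrrCh k (N ⊔ Subgroup.zpowers x))).map (Gm N x) ≤
        Submodule.span k {b | ∃ i, (∃ X, Itw N (ρ i) x X) ∧ b = av N x (τ i)} := by
      rw [Submodule.map_span_le]
      rintro _ ⟨m, σ, hσ, rfl⟩
      exact Gm_chi_mem hx hxp n ρ hρ hall τ hτ (irr_iff.1 hσ)
    have h5 := hle ⟨_, hphi, rfl⟩
    rwa [Gm_phi h1] at h5
  have hmul : ∀ b ∈ Submodule.span k {b | ∃ i, (∃ X, Itw N (ρ i) x X) ∧ b = av N x (τ i)},
      f * b ∈ Submodule.span k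
        {b | ∃ i, (∃ X, Itw N (ρ i) x X) ∧ act (ρ i) f = 1 ∧ b = av N x (τ i)} := by
    intro b hb
    induction hb using Submodule.span_induction with
    | mem b hb =>
      obtain ⟨i, hX, rfl⟩ := hb
      rcases act_zero_or_one (hρ i) hf hfi hff with h | h
      · have h5 := (mem_Fs.1 (av_mem hx hxp (supp_compl hf) (act_compl (ρ i) h) (hτ i hX))).2.2.2
        rw [sub_mul, one_mul, sub_eq_self] at h5
        rw [h5]
        exact Submodule.zero_mem _
      · have h5 := (mem_Fs.1 (av_mem hx hxp hf h (hτ i hX))).2.2.2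
        rw [h5]
        exact Submodule.subset_span ⟨i, hX, h, rfl⟩
    | zero => rw [mul_zero]; exact Submodule.zero_mem _
    | add b c _ _ hb hc => rw [mul_add]; exact Submodule.add_mem _ hb hc
    | smul c b _ h => rw [mul_smul_comm]; exact Submodule.smul_mem _ c h
  rw [← h4]
  exact hmul a hmem

end Pool.Agent.Lib.P0c8ca5.Gg
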