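import Mathlib
import Pool.Agent.Lib.P0c8ca5G.VecB
import Pool.Agent.Lib.P0c8ca5G.VecC
import Pool.Agent.Lib.P0c8ca5G.VecD
import Pool.Agent.Lib.P0c8ca5G.Mono

/-!
# Module SumOm: the sum over the centralizer of a coset

PROOF of `sum_om`.  Let `C = cx N Y hn x`, `W = Fs p N N f x`, `ρ = TauSAux.rh p hn hfi hx` (conjugation, P0c8ca5Z.TauS) the representation
of `C` on `W`; as in `sum_tau` there, `finrank (invariants ρ) = finrank (Fs p Y N f x)`.
Let `I` be the set of the classes `c : IrX N f` such that `ρc = (Quotient.out c).ρ` has an intertwiner of `x` (`Itw`), and for `c ∈ I` let `τc` be an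
extension (`exists_ext`), `b c = av N x τc ∈ W` (`av_mem`; `act ρc f = 1` and `Irr' ρc` from `(Quotient.out c).blk`, `.irr` by `act_iff`, `irr_iff`).
(1) The `b c` are a basis of `W`: independent by `av_indep` (representatives of different classes are not isomorphic, `mk_eq_mk` in
P0c8ca5.LHS); they span by `av_span`, applied to the family of all classes `i : IrX N 1` (`act σ 1 = 1`, `mkIrr`; `IrX N 1` is finite): every
vector of its spanning set belongs to a representation `ρ i` with `act (ρ i) f = 1`, isomorphic with `ρc` for its class `c` in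
`IrX N f`, and is a multiple of `b c` (`cj_av'` with `y = 1`).
(2) For `y ∈ C`, `c ∈ I` let `π y c` be the class of `tw _ ρc` (in `IrX N f`, as `cj y f = f`, see `actX` in P0c8ca5.LHS / `act_tw`); it is in `I`: if
`X` is an intertwiner of `x` for `ρc` then `tw y ρc` has an intertwiner of `y x y⁻¹` (`X` again), and `y x y⁻¹ ∈ N x` (`itw_of_mem`, `Itw.mul`).
`cj_av'`: `cj y (b c) = l y c • b (π y c)` with `l y c ≠ 0`.
(3) `sum_mono`: `∑ y, ∑ c ∈ I with π y c = c, teich (l y c) = |C| * finrank (invariants ρ)`.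
(4) If `π y c = c` then `Iso (tw y ρc) ρc`, so `y` has an intertwiner (`itw_iff`), `om N ρc x y ≠ 0` (`om_ne_zero_iff`), and by `cj_av`
`l y c = (om N ρc x y)⁻¹ = om N ρc x y⁻¹` (`om_mul_right`, `om_mem_right` with `g = 1`).  If `c ∉ I` or `π y c ≠ c` then
`omX N f c x y = 0`, and `teich 0 = 0`.  So the left side of the claim is `∑ y, ∑ c ∈ I with π y c = c, teich ((l y c)⁻¹)`, which is the sum
of (3) after the substitution `y ↦ y⁻¹` (`π y c = c` iff `π y⁻¹ c = c`).
-/

set_option autoImplicit false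

namespace Pool.Agent.Lib.P0c8ca5.Gg

open MonoidAlgebra Ps Bq Zz

variable {p : ℕ} {k : Type*} [Field k] {A : Type*} [Group A]

namespace SumOmAux

variable {N : Subgroup A} {n m : ℕ} {ρ : Rp k N n} {x y : A}

theorem act_one' [Finite A] (σ : Rp k N m) : act σ (1 : MonoidAlgebra k A) = 1 := by
  classical
  have : Fintype N := Fintype.ofFinite N
  apply LinearMap.ext
  intro v
  rw [act_apply, Finset.sum_eq_single (1 : N)]
  · rw [MonoidAlgebra.one_def, coeff_single, Subgroup.coe_one, Finsupp.single_eq_same, one_smul,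
      map_one]
  · intro x _ hx
    rw [MonoidAlgebra.one_def, coeff_single, Finsupp.single_eq_of_ne, zero_smul]
    intro h
    exact hx (Subtype.ext h)
  · intro h
    exact absurd (Finset.mem_univ _) h

theorem act_tw_cj' [Finite A] {h : A} (hN : h ∈ Subgroup.normalizer (N : Set A)) (σ : Rp k N m)
    (e : MonoidAlgebra k A) : act (tw hN σ) (cj h e) = act σ e := by
  have : Fintype N := Fintype.ofFinite N
  apply LinearMap.ext
  intro v
  rw [act_apply, act_apply]
  have hbij : Function.Bijective (cjN hN) := by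
    rw [Nat.bijective_iff_surjective_and_card]
    exact ⟨fun x => cjN_surj hN x, rfl⟩
  refine Fintype.sum_bijective (cjN hN) hbij _ _ (fun x => ?_)
  rw [tw_apply, coe_cjN, coeff_cj]

/-- transport of an intertwiner by an isomorphism -/
theorem itw_iso {ρ' : Rp k N m} (h : Iso ρ ρ') (hX : ∃ X, Itw N ρ x X) :
    ∃ X, Itw N ρ' x X := by
  obtain ⟨P, hP⟩ := h
  obtain ⟨X, hX⟩ := hX
  refine ⟨(P.symm.trans X).trans P, fun g g' hg v => ?_⟩
  have h1 : P.symm (ρ' g v) = ρ g (P.symm v) := by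
    apply P.injective
    rw [hP, LinearEquiv.apply_symm_apply, LinearEquiv.apply_symm_apply]
  rw [LinearEquiv.trans_apply, LinearEquiv.trans_apply, h1, hX g g' hg, hP]
  rfl

/-- the twist of an invariant representation is invariant -/
theorem itw_tw (hx : x ∈ Subgroup.normalizer (N : Set A))
    (hy : y ∈ Subgroup.normalizer (N : Set A)) (hyx : y * x * y⁻¹ * x⁻¹ ∈ N)
    (hX : ∃ X, Itw N ρ x X) : ∃ X, Itw N (tw hy ρ) x X := by
  obtain ⟨X, hX⟩ := hX
  have h1 : Itw N (tw hy ρ) (y * x * y⁻¹) X := by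
    intro g g' hg v
    rw [tw_apply, tw_apply]
    apply hX
    rw [coe_cjN, coe_cjN, hg]
    group
  obtain ⟨Z, hZ, _⟩ := itw_of_mem (ρ := tw hy ρ) (N.inv_mem hyx)
  have hyxy : y * x * y⁻¹ ∈ Subgroup.normalizer (N : Set A) :=
    Subgroup.mul_mem _ (Subgroup.mul_mem _ hy hx) (Subgroup.inv_mem _ hy)
  have h2 := Itw.mul (Subgroup.le_normalizer (N.inv_mem hyx)) hyxy hZ h1
  have e : (y * x * y⁻¹ * x⁻¹)⁻¹ * (y * x * y⁻¹) = x := by group
  rw [e] at h2
  exact ⟨_, h2⟩

theorem exists_cls [Finite A] {f : MonoidAlgebra k A} {σ : Rp k N m} (h1 : Irr' σ)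
    (h2 : act σ f = 1) : ∃ c : IrX N f, Iso σ (Quotient.out c).ρ :=
  ⟨⟦mkIrr σ h1 h2⟧, (mk_eq_mk.1 (Quotient.out_eq (⟦mkIrr σ h1 h2⟧ : IrX N f))).symm⟩

theorem eq_of_iso {f : MonoidAlgebra k A} {c c' : IrX N f}
    (h : Iso (Quotient.out c).ρ (Quotient.out c').ρ) : c = c' := by
  rw [← Quotient.out_eq c, ← Quotient.out_eq c']
  exact mk_eq_mk.2 h

/-- invariants of the centralizer of the coset -/
theorem finrank_inv {N Y : Subgroup A} (hNY : N ≤ Y)
    (hn : Y ≤ Subgroup.normalizer (N : Set A)) {f : MonoidAlgebra k A} (hfi : InvBy Y f) {x : A}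
    (hx : x ∈ Y) :
    Module.finrank k ↥(Representation.invariants (TauSAux.rh (k := k) p hn hfi hx))
      = Module.finrank k ↥(Fs p Y N f x) := by
  have hinv : (Representation.invariants (TauSAux.rh (k := k) p hn hfi hx)).map
      (Fs p N N f x).subtype = Fs p Y N f x := by
    ext a
    constructor
    · rintro ⟨b, hb, rfl⟩
      refine (mem_Fs_Y hNY hn hx).2 ⟨b.2, fun y hy => ?_⟩
      exact congrArg Subtype.val (hb ⟨y, hy⟩)
    · intro ha
      obtain ⟨ha1, ha2⟩ := (mem_Fs_Y hNY hn hx).1 ha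
      refine ⟨⟨a, ha1⟩, fun y => ?_, rfl⟩
      exact Subtype.ext (ha2 y y.2)
  rw [← hinv]
  exact (Submodule.finrank_map_subtype_eq _ _).symm

end SumOmAux

open SumOmAux


theorem sum_om [Fact p.Prime] [CharP k p] [IsAlgClosed k] [Fintype A] {N Y : Subgroup A}
    (hNY : N ≤ Y) (hn : Y ≤ Subgroup.normalizer (N : Set A)) {f : MonoidAlgebra k A}
    (hf : SuppIn N f) (hfi : InvBy Y f) (hff : f * f = f) {x : A} (hx : x ∈ Y)
    (hxp : Prm p N x) [Fintype ↥(cx N Y hn x)] :
    ∑ y : ↥(cx N Y hn x), ∑ᶠ c : IrX N f, WittVector.teichmuller p (omX N f c x (y : A))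
      = ((Nat.card ↥(cx N Y hn x) * Module.finrank k ↥(Fs p Y N f x) : ℕ) : WittVector p k) := by
  classical
  have hxn : x ∈ Subgroup.normalizer (N : Set A) := hn hx
  have hfN : InvBy N f := hfi.mono hNY
  have hirr : ∀ c : IrX N f, Irr' (Quotient.out c).ρ := fun c => irr_iff.1 (Quotient.out c).irr
  have hblk : ∀ c : IrX N f, act (Quotient.out c).ρ f = 1 :=
    fun c => act_iff.2 (Quotient.out c).blk
  haveI : Fintype (IrX N f) := Fintype.ofFinite _
  have hext : ∀ i : {c : IrX N f // ∃ X, Itw N (Quotient.out c).ρ x X},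
      ∃ τ, IsExt N (Quotient.out i.1).ρ x τ := fun i => exists_ext (hirr i.1) hxn i.2
  choose τ hτ using hext
  have hmem : ∀ i, av N x (τ i) ∈ Fs p N N f x :=
    fun i => av_mem hxn hxp hf (hblk i.1) (hτ i)
  have hne : ∀ i j : {c : IrX N f // ∃ X, Itw N (Quotient.out c).ρ x X}, i ≠ j →
      ¬ Iso (Quotient.out i.1).ρ (Quotient.out j.1).ρ :=
    fun i j hij h => hij (Subtype.ext (eq_of_iso h))
  have hli : LinearIndependent k (fun i => av N x (τ i)) :=
    av_indep hxn (fun i : {c : IrX N f // ∃ X, Itw N (Quotient.out c).ρ x X} =>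
      (Quotient.out i.1).n) (fun i => (Quotient.out i.1).ρ) (fun i => hirr i.1) hne τ hτ
  have hli' : LinearIndependent k (fun i => (⟨av N x (τ i), hmem i⟩ : ↥(Fs p N N f x))) :=
    LinearIndependent.of_comp (Fs p N N f x).subtype hli
  have hspan : ∀ a ∈ Fs p N N f x, a ∈ Submodule.span k (Set.range (fun i => av N x (τ i))) := by
    intro a ha
    have hirr1 : ∀ c : IrX N (1 : MonoidAlgebra k A), Irr' (Quotient.out c).ρ :=
      fun c => irr_iff.1 (Quotient.out c).irr
    have hex1 : ∀ c : IrX N (1 : MonoidAlgebra k A),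
        ∃ τ : Rp k (N ⊔ Subgroup.zpowers x) (Quotient.out c).n,
          (∃ X, Itw N (Quotient.out c).ρ x X) → IsExt N (Quotient.out c).ρ x τ := by
      intro c
      by_cases h : ∃ X, Itw N (Quotient.out c).ρ x X
      · obtain ⟨t, ht⟩ := exists_ext (hirr1 c) hxn h
        exact ⟨t, fun _ => ht⟩
      · exact ⟨1, fun h' => absurd h' h⟩
    choose τ1 hτ1 using hex1
    have h1 := av_span hxn hxp hf hfN hff (fun c : IrX N (1 : MonoidAlgebra k A) =>
      (Quotient.out c).n) (fun c => (Quotient.out c).ρ) hirr1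
      (fun i j hij h => hij (eq_of_iso h))
      (fun m σ hσ => exists_cls hσ (act_one' σ)) τ1 hτ1 ha
    refine Submodule.span_le.2 ?_ h1
    rintro b ⟨i, hi1, hi2, rfl⟩
    obtain ⟨c, hc⟩ := exists_cls (hirr1 i) hi2
    have hcX := itw_iso hc hi1
    obtain ⟨s, hs0, hs⟩ := cj_av' (y := 1) (hirr1 i) hxn (Subgroup.one_mem _)
      (by rw [one_mul, inv_one, mul_one, mul_inv_cancel]; exact N.one_mem)
      (by rw [tw_one]; exact hc) (hτ1 i hi1) (hτ ⟨c, hcX⟩)
    rw [cj_one_left] at hs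
    rw [hs]
    exact Submodule.smul_mem _ _ (Submodule.subset_span ⟨⟨c, hcX⟩, rfl⟩)
  have hsp : ⊤ ≤ Submodule.span k
      (Set.range (fun i => (⟨av N x (τ i), hmem i⟩ : ↥(Fs p N N f x)))) := by
    intro w _
    have h1 := hspan w.1 w.2
    have h2 : Set.range (fun i => av N x (τ i)) = (Fs p N N f x).subtype ''
        Set.range (fun i => (⟨av N x (τ i), hmem i⟩ : ↥(Fs p N N f x))) := by
      rw [← Set.range_comp]
      rfl
    rw [h2, ← Submodule.map_span] at h1
    obtain ⟨w', hw', he⟩ := h1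
    have h3 : w' = w := Subtype.ext he
    rwa [h3] at hw'
  have hb : ∀ i, Module.Basis.mk hli' hsp i = ⟨av N x (τ i), hmem i⟩ :=
    fun i => Module.Basis.mk_apply hli' hsp i
  -- the monomial action
  have hstep : ∀ (y : ↥(cx N Y hn x)) (i : {c : IrX N f // ∃ X, Itw N (Quotient.out c).ρ x X}),
      ∃ (j : {c : IrX N f // ∃ X, Itw N (Quotient.out c).ρ x X}) (l : k), l ≠ 0 ∧
        Iso (tw (hn (mem_cx.1 y.2).1) (Quotient.out i.1).ρ) (Quotient.out j.1).ρ ∧
        cj (y : A) (av N x (τ i)) = l • av N x (τ j) := by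
    intro y i
    obtain ⟨hy1, hy2⟩ := mem_cx.1 y.2
    have hact : act (tw (hn hy1) (Quotient.out i.1).ρ) f = 1 := by
      have h1 := act_tw_cj' (hn hy1) (Quotient.out i.1).ρ f
      rwa [invBy_iff_cj.1 hfi _ hy1, hblk] at h1
    obtain ⟨c, hc⟩ := exists_cls ((hirr i.1).tw (hn hy1)) hact
    have hcX := itw_iso hc (itw_tw hxn (hn hy1) hy2 i.2)
    obtain ⟨s, hs0, hs⟩ := cj_av' (hirr i.1) hxn (hn hy1) hy2 hc (hτ i) (hτ ⟨c, hcX⟩)
    exact ⟨⟨c, hcX⟩, s, hs0, hc, hs⟩
  choose π l hl0 hiso hcj using hstep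
  have hmono := sum_mono (p := p) (TauSAux.rh (k := k) p hn hfi hx) (Module.Basis.mk hli' hsp)
    π l hl0 (fun y i => by
      rw [hb, hb]
      exact Subtype.ext (hcj y i))
  rw [finrank_inv hNY hn hfi hx, ← Nat.card_eq_fintype_card] at hmono
  rw [← hmono]
  have hv0 : ∀ i, av N x (τ i) ≠ 0 := fun i => hli.ne_zero i
  -- the inverse
  have hinv : ∀ y i, π y i = i → π y⁻¹ i = i ∧ l y⁻¹ i = (l y i)⁻¹ := by
    intro y i h
    have h1 : π y⁻¹ i = i := by
      apply Subtype.ext
      apply eq_of_iso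
      refine (hiso y⁻¹ i).symm.trans ?_
      have h2 := hiso y i
      rw [h] at h2
      have hy1 := (mem_cx.1 y.2).1
      have hy2 := (mem_cx.1 (y⁻¹).2).1
      have h3 := h2.symm.tw (hn hy2)
      have e1 : ((y⁻¹ : ↥(cx N Y hn x)) : A) * (y : A) = 1 := by
        rw [Subgroup.coe_inv, inv_mul_cancel]
      rw [tw_tw (hn hy2) (hn hy1) (by rw [e1]; exact Subgroup.one_mem _)] at h3
      have h4 : ∀ (z : A) (hz : z ∈ Subgroup.normalizer (N : Set A)), z = 1 →
          tw hz (Quotient.out i.1).ρ = (Quotient.out i.1).ρ := by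
        intro z hz hz1
        subst hz1
        exact tw_one _ _
      rw [h4 _ _ e1] at h3
      exact h3
    refine ⟨h1, ?_⟩
    have h2 := hcj y i
    rw [h] at h2
    have h3 := congrArg (cj ((y⁻¹ : ↥(cx N Y hn x)) : A)) h2
    rw [cj_smul, hcj y⁻¹ i, h1, cj_cj, Subgroup.coe_inv, inv_mul_cancel, cj_one_left,
      smul_smul] at h3
    have h4 : (1 - l y i * l y⁻¹ i) • av N x (τ i) = 0 := by
      rw [sub_smul, one_smul, ← h3, sub_self]
    have h5 := (smul_eq_zero.1 h4).resolve_right (hv0 i)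
    exact eq_inv_of_mul_eq_one_right (sub_eq_zero.1 h5).symm
  -- the symbols
  have hom : ∀ (y : ↥(cx N Y hn x)) (i : {c : IrX N f // ∃ X, Itw N (Quotient.out c).ρ x X}),
      omX N f i.1 x (y : A) = if π y i = i then (l y i)⁻¹ else 0 := by
    intro y i
    obtain ⟨hy1, hy2⟩ := mem_cx.1 y.2
    unfold omX
    split_ifs with h
    · have h1 := hiso y i
      rw [h] at h1
      have h2 : om N (Quotient.out i.1).ρ x (y : A) ≠ 0 :=
        (om_ne_zero_iff (hirr i.1) hxn (hn hy1)).2 ⟨i.2, (itw_iff (hn hy1)).1 h1, hy2⟩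
      have h3 := cj_av (hirr i.1) hxn (hn hy1) (hτ i) h2
      rw [hcj y i, h] at h3
      have h4 : (l y i - (om N (Quotient.out i.1).ρ x (y : A))⁻¹) • av N x (τ i) = 0 := by
        rw [sub_smul, h3, sub_self]
      have h5 := sub_eq_zero.1 ((smul_eq_zero.1 h4).resolve_right (hv0 i))
      rw [h5, inv_inv]
    · by_contra h2
      obtain ⟨_, h3, _⟩ := (om_ne_zero_iff (hirr i.1) hxn (hn hy1)).1 h2
      apply h
      apply Subtype.ext
      apply eq_of_iso
      exact (hiso y i).symm.trans ((itw_iff (hn hy1)).2 h3)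
  have hsum : ∀ y : ↥(cx N Y hn x),
      ∑ᶠ c : IrX N f, WittVector.teichmuller p (omX N f c x (y : A)) =
        ∑ i, if π y i = i then WittVector.teichmuller p ((l y i)⁻¹) else 0 := by
    intro y
    rw [finsum_eq_sum_of_fintype]
    symm
    apply Fintype.sum_of_injective
      (fun i : {c : IrX N f // ∃ X, Itw N (Quotient.out c).ρ x X} => i.1) Subtype.val_injective
    · intro c hc
      have h1 : omX N f c x (y : A) = 0 := by
        unfold omX
        by_contra h2
        obtain ⟨h3, _, _⟩ := (om_ne_zero_iff (hirr c) hxn (hn (mem_cx.1 y.2).1)).1 h2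
        exact hc ⟨⟨c, h3⟩, rfl⟩
      rw [h1]
      exact WittVector.teichmuller_zero p
    · intro i
      change _ = WittVector.teichmuller p (omX N f i.1 x (y : A))
      rw [hom]
      split_ifs with h
      · rfl
      · exact (WittVector.teichmuller_zero p).symm
  refine Fintype.sum_equiv (Equiv.inv ↥(cx N Y hn x)) _ _ (fun y => ?_)
  rw [hsum, Finset.sum_filter]
  refine Finset.sum_congr rfl fun i _ => ?_
  rw [Equiv.inv_apply]
  by_cases h : π y i = i
  · obtain ⟨h1, h2⟩ := hinv y i h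
    rw [if_pos h, if_pos h1, h2]
  · rw [if_neg h, if_neg]
    intro h1
    apply h
    have h2 := (hinv y⁻¹ i h1).1
    rwa [inv_inv] at h2


end Pool.Agent.Lib.P0c8ca5.Gg
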