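import Mathlib
import Pool.Agent.Lib.P0c8ca5G.SumOm
import Pool.Agent.Lib.P0c8ca5G.OrbP

/-!
# Module LfM: the pairs formula for an arbitrary quotient

PROOF of `lfM`.  As `lf` in P0c8ca5Z.LF: `sum_prsP`, `sum_om`, `sum_orbP` with `φ x = (finrank (Fs p Y N f x) : WittVector p k)` (invariant by
`LFAux.finrank_cj`), `finrank_dec` and `finrank_Rs` (`X` from `exists_creps`).
-/

set_option autoImplicit false

namespace Pool.Agent.Lib.P0c8ca5.Gg

open MonoidAlgebra Ps Bq Zz

variable {p : ℕ} {k : Type*} [Field k] {A : Type*} [Group A]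

open Classical in
/-- **the pairs formula**: the number of the irreducible representations of `Y` in an idempotent of a normal
subgroup `N` -/
theorem lfM [Fact p.Prime] [CharP k p] [IsAlgClosed k] [Fintype A] {N Y : Subgroup A}
    (hNY : N ≤ Y) (hn : Y ≤ Subgroup.normalizer (N : Set A)) {f : MonoidAlgebra k A}
    (hf : SuppIn N f) (hfi : InvBy Y f) (hff : f * f = f) :
    ∑ z ∈ (prs N Y).filter (fun z => Prm p N z.1),
        ∑ᶠ c : IrX N f, WittVector.teichmuller p (omX N f c z.1 z.2)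
      = ((Nat.card N * Nat.card Y * Nat.card (IrX Y f) : ℕ) : WittVector p k) := by
  obtain ⟨X, hX⟩ := exists_creps p hNY hn
  have hfx : f ∈ fixAlg k Y Y := mem_fixAlg.2 ⟨fun x hx => hNY (hf x hx), hfi⟩
  have h1 : ∀ x ∈ Finset.univ.filter (fun x : A => x ∈ Y ∧ Prm p N x),
      ∑ y : ↥(cx N Y hn x), ∑ᶠ c : IrX N f, WittVector.teichmuller p (omX N f c x (y : A))
        = Nat.card ↥(cx N Y hn x) • ((Module.finrank k ↥(Fs p Y N f x) : ℕ) : WittVector p k) := by
    intro x hx
    have hx2 := (Finset.mem_filter.1 hx).2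
    rw [sum_om hNY hn hf hfi hff hx2.1 hx2.2, nsmul_eq_mul, Nat.cast_mul]
  have h2 := sum_orbP hNY hn hX
    (fun x => ((Module.finrank k ↥(Fs p Y N f x) : ℕ) : WittVector p k))
    (fun x _ y hy z _ h0 => congrArg (fun n : ℕ => (n : WittVector p k))
      (LFAux.finrank_cj hn hfi hy h0))
  rw [sum_prsP hn (fun x y => ∑ᶠ c : IrX N f, WittVector.teichmuller p (omX N f c x y))]
  refine (Finset.sum_congr rfl ?_).trans (h2.trans ?_)
  · intro x hx
    rw [← h1 x hx]
  · rw [← Finset.smul_sum, nsmul_eq_mul, ← finrank_Rs hfx hff, finrank_dec hNY hn hf hfi hff hX,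
      Nat.cast_mul (Nat.card N * Nat.card Y), Nat.cast_sum]

end Pool.Agent.Lib.P0c8ca5.Gg
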