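import Mathlib
import Pool.Agent.Lib.P0c8ca5G.LfM

/-!
# Module PrC: the pairs formula for the alternating sum over the chains, and quotients without generating pairs

`M` is a normal subgroup of `Y`, `f` a `Y`-invariant idempotent of `kM`, `D` a finite set of p-subgroups of `Y` (of `M`).

PROOF of `chain_facts`.  `S = σ.sup id` is `⊥` or a member of `σ` (`sup_mem_chain`), so a p-group in `Y`, normalized by `stab Y σ`.
Support: `cS S f` is supported on `M ⊓ C(S)`, and `C(S)` normalizes (centralizes) all members of `σ`, which are contained in `S`; for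
`σ = ∅` `stab M ∅ = M` (`stab_empty`).  Invariance: `f` is `Y`-invariant and `stab Y σ` normalizes `S` (`resS_invBy`-like, see `Ctx.cS_inv`, `Ctx.cS_idem`
in P0c8ca5N.Blk0, or P0c8ca5F.Ws / CutA).  Idempotent: `resS_mul`.
PROOF of `bl_pairs`.  For each `σ ∈ Ch D` apply `lfM` to `stab M σ ≤ stab Y σ` and `cS S f`.  For `x, y ∈ stab ⊤ σ`: `(x, y) ∈ prs M Y` with `Prm p M x` iff
`(x, y) ∈ prs (stab M σ) (stab Y σ)` with `Prm p (stab M σ) x` (`stab M σ = M ⊓ stab ⊤ σ`, `stab Y σ = Y ⊓ stab ⊤ σ`; powers and commutators of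
elements of `stab ⊤ σ` stay there), and conversely the entries of these pairs are in `stab ⊤ σ`.  Multiply by `(stab M σ).relIndex M`, with
`|stab M σ| * relIndex = |M|` (`Subgroup.card_mul_relIndex`-like, `relIndex_mul_relIndex`), by `(-1) ^ |σ|`, and sum over `σ`; exchange the sums.
PROOF of `bl_quot`.  `comb2` (P0c8ca5Z.Pr2) for `δ x y = if Prm p M x then dl p M D f x y else 0`; by `bl_pairs` (`hD` gives `Q ≤ M ≤ Y`) its sum over
`prs M Y` is `|M| * Bl Y D f`, which is zero for `Y < ⊤`; so `|M| * Bl ⊤ D f = 0` in `WittVector p k`, and the map from the integers to this ring is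
injective (`PrAux`/`wit_inj` in P0c8ca5Z.Pr).
-/

set_option autoImplicit false

namespace Pool.Agent.Lib.P0c8ca5.Gg

open MonoidAlgebra Ps Bq Zz

variable {p : ℕ} {k : Type*} [Field k] {A : Type*} [Group A]

theorem chain_facts [Fact p.Prime] [CharP k p] [Fintype A] {M Y : Subgroup A} (hMY : M ≤ Y)
    (hn : Y ≤ Subgroup.normalizer (M : Set A)) {D : Finset (Subgroup A)}
    (hD : ∀ Q ∈ D, Q ≤ Y ∧ IsPGroup p Q) {f : MonoidAlgebra k A} (hf : SuppIn M f)
    (hfi : InvBy Y f) (hff : f * f = f) {σ : Finset (Subgroup A)} (hσ : σ ∈ Ch D) :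
    stab M σ ≤ stab Y σ ∧ stab Y σ ≤ Subgroup.normalizer (stab M σ : Set A) ∧
      SuppIn (stab M σ) (cS (σ.sup id) f) ∧ InvBy (stab Y σ) (cS (σ.sup id) f) ∧
      cS (σ.sup id) f * cS (σ.sup id) f = cS (σ.sup id) f := by
  classical
  have hσD : σ ⊆ D := by
    have h0 := hσ
    rw [Ch, Finset.mem_filter, Finset.mem_powerset] at h0
    exact h0.1
  have hch : IsChain (· ≤ ·) (σ : Set (Subgroup A)) := (Finset.mem_filter.1 hσ).2
  have hS : (σ.sup id = ⊥ ∧ σ = ∅) ∨ σ.sup id ∈ σ := by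
    rcases σ.eq_empty_or_nonempty with h | h
    · left
      exact ⟨by rw [h, Finset.sup_empty], h⟩
    · right
      exact sup_mem_chain h hch
  have hSp : IsPGroup p ↥(σ.sup id) := by
    rcases hS with ⟨h, -⟩ | h
    · rw [h]
      exact IsPGroup.of_bot
    · exact (hD _ (hσD h)).2
  have hSY : σ.sup id ≤ Y := by
    rcases hS with ⟨h, -⟩ | h
    · rw [h]
      exact bot_le
    · exact (hD _ (hσD h)).1
  have hSn : stab Y σ ≤ Subgroup.normalizer ((σ.sup id : Subgroup A) : Set A) := by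
    rcases hS with ⟨h, -⟩ | h
    · rw [h]
      intro x _
      rw [Subgroup.mem_normalizer_iff]
      intro y
      rw [Subgroup.mem_bot, Subgroup.mem_bot]
      constructor
      · intro hy
        rw [hy]
        group
      · intro hy
        have : y = x⁻¹ * (x * y * x⁻¹) * x := by group
        rw [this, hy]
        group
    · intro x hx
      exact (mem_stab.1 hx).2 _ h
  refine ⟨inf_le_inf_right _ hMY, ?_, ?_, ?_, ?_⟩
  · intro y hy
    have hy1 := mem_stab.1 hy
    have key : ∀ g : A, g ∈ stab Y σ → ∀ x ∈ stab M σ, g * x * g⁻¹ ∈ stab M σ := by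
      intro g hg x hx
      have hg1 := mem_stab.1 hg
      have hx1 := mem_stab.1 hx
      rw [mem_stab]
      refine ⟨(Subgroup.mem_normalizer_iff.1 (hn hg1.1) x).1 hx1.1, fun Q hQ => ?_⟩
      exact (Subgroup.normalizer (Q : Set A)).mul_mem
        ((Subgroup.normalizer (Q : Set A)).mul_mem (hg1.2 Q hQ) (hx1.2 Q hQ))
        ((Subgroup.normalizer (Q : Set A)).inv_mem (hg1.2 Q hQ))
    rw [Subgroup.mem_normalizer_iff]
    intro x
    constructor
    · exact fun hx => key y hy x hx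
    · intro hx
      have h1 := key y⁻¹ ((stab Y σ).inv_mem hy) _ hx
      have e : y⁻¹ * (y * x * y⁻¹) * y⁻¹⁻¹ = x := by group
      rwa [e] at h1
  · intro x hx
    have hxC : x ∈ (Subgroup.centralizer ((σ.sup id : Subgroup A) : Set A) : Set A) := by
      by_contra h
      exact hx (coeff_resS_of_notMem _ h)
    have hxM : x ∈ M := by
      apply hf
      rwa [coeff_resS_of_mem _ hxC] at hx
    rw [mem_stab]
    refine ⟨hxM, fun Q hQ => ?_⟩
    have hQS : Q ≤ σ.sup id := Finset.le_sup (f := id) hQ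
    have hxc := Subgroup.mem_centralizer_iff.1 (SetLike.mem_coe.1 hxC)
    rw [Subgroup.mem_normalizer_iff]
    intro y
    constructor
    · intro hy
      have h1 := hxc y (hQS hy)
      have e : x * y * x⁻¹ = y := by rw [← h1]; group
      rw [e]
      exact hy
    · intro hy
      have h1 := hxc _ (hQS hy)
      have e : x * y * x⁻¹ = y := by
        have e2 : x * y * x⁻¹ = x⁻¹ * (x * (x * y * x⁻¹)) := by group
        rw [e2, ← h1]
        group
      rwa [e] at hy
  · exact resS_invBy (hSn.trans (Blk0Aux.normalizer_le_normalizer_centralizer _))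
      (hfi.mono inf_le_left)
  · have h1 := resS_mul hSp (hfi.mono hSY) (hfi.mono hSY)
    rw [hff] at h1
    exact h1.symm

open Classical in
theorem bl_pairs [Fact p.Prime] [CharP k p] [IsAlgClosed k] [Fintype A] {M Y : Subgroup A}
    (hMY : M ≤ Y) (hn : Y ≤ Subgroup.normalizer (M : Set A)) {D : Finset (Subgroup A)}
    (hD : ∀ Q ∈ D, Q ≤ Y ∧ IsPGroup p Q) {f : MonoidAlgebra k A} (hf : SuppIn M f)
    (hfi : InvBy Y f) (hff : f * f = f) :
    (Nat.card M : WittVector p k) * ((Bl Y D f : ℤ) : WittVector p k)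
      = ∑ z ∈ (prs M Y).filter (fun z => Prm p M z.1), dl p M D f z.1 z.2 := by
  have hR : ∑ z ∈ (prs M Y).filter (fun z => Prm p M z.1), dl p M D f z.1 z.2
      = ∑ σ ∈ Ch D, ∑ z ∈ (prs (stab M σ) (stab Y σ)).filter (fun z => Prm p (stab M σ) z.1),
          ((-1) ^ σ.card * ((stab M σ).relIndex M : ℤ)) •
            ∑ᶠ c : IrX (stab M σ) (cS (σ.sup id) f),
              WittVector.teichmuller p (omX (stab M σ) (cS (σ.sup id) f) c z.1 z.2) := by
    unfold dl
    simp only [Finset.sum_filter (p := fun σ => _ ∈ stab ⊤ σ ∧ _ ∈ stab ⊤ σ)]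
    rw [Finset.sum_comm]
    refine Finset.sum_congr rfl fun σ _ => ?_
    rw [← Finset.sum_filter, Finset.filter_filter]
    refine Finset.sum_congr ?_ fun z _ => rfl
    ext z
    rw [Finset.mem_filter, Finset.mem_filter, mem_prs, mem_prs]
    constructor
    · rintro ⟨⟨h1, h2, h3⟩, ⟨m, hm, hxm⟩, h5, h6⟩
      have h5' := mem_stab.1 h5
      have h6' := mem_stab.1 h6
      refine ⟨⟨mem_stab.2 ⟨h1, h5'.2⟩, mem_stab.2 ⟨h2, h6'.2⟩, mem_stab.2 ⟨h3, fun Q hQ => ?_⟩⟩,
        m, hm, mem_stab.2 ⟨hxm, fun Q hQ => ?_⟩⟩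
      · exact (Subgroup.normalizer (Q : Set A)).mul_mem
          ((Subgroup.normalizer (Q : Set A)).mul_mem
            ((Subgroup.normalizer (Q : Set A)).mul_mem (h6'.2 Q hQ) (h5'.2 Q hQ))
            ((Subgroup.normalizer (Q : Set A)).inv_mem (h6'.2 Q hQ)))
          ((Subgroup.normalizer (Q : Set A)).inv_mem (h5'.2 Q hQ))
      · exact (Subgroup.normalizer (Q : Set A)).pow_mem (h5'.2 Q hQ) m
    · rintro ⟨⟨h1, h2, h3⟩, m, hm, hxm⟩
      have h1' := mem_stab.1 h1
      have h2' := mem_stab.1 h2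
      exact ⟨⟨h1'.1, h2'.1, (mem_stab.1 h3).1⟩, ⟨m, hm, (mem_stab.1 hxm).1⟩,
        mem_stab.2 ⟨Subgroup.mem_top _, h1'.2⟩, mem_stab.2 ⟨Subgroup.mem_top _, h2'.2⟩⟩
  rw [hR, Bl, Int.cast_sum, Finset.mul_sum]
  refine Finset.sum_congr rfl fun σ hσ => ?_
  obtain ⟨h1, h2, h3, h4, h5⟩ := chain_facts hMY hn hD hf hfi hff hσ
  rw [← Finset.smul_sum, lfM h1 h2 h3 h4 h5, zsmul_eq_mul]
  have h6 : (stab M σ).relIndex M * Nat.card ↥(stab M σ) = Nat.card M := by
    have h7 := Subgroup.relIndex_mul_relIndex ⊥ (stab M σ) M bot_le inf_le_left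
    rw [Subgroup.relIndex_bot_left, Subgroup.relIndex_bot_left] at h7
    rw [mul_comm, h7]
  rw [← h6]
  push_cast
  ring

theorem int_inj (p : ℕ) [Fact p.Prime] {k : Type*} [Field k] [CharP k p] {a : ℤ}
    (h : (a : WittVector p k) = 0) : a = 0 := by
  have h1 : ((a.natAbs : ℕ) : WittVector p k) = ((0 : ℕ) : WittVector p k) := by
    rw [Nat.cast_zero]
    rcases Int.natAbs_eq a with h2 | h2
    · rw [h2, Int.cast_natCast] at h
      exact h
    · rw [h2, Int.cast_neg, Int.cast_natCast, neg_eq_zero] at h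
      exact h
  exact Int.natAbs_eq_zero.1 (wit_inj p h1)

theorem bl_quot [Fact p.Prime] [CharP k p] [IsAlgClosed k] [Fintype A] {M : Subgroup A}
    [M.Normal] {D : Finset (Subgroup A)} (hD : ∀ Q ∈ D, Q ≤ M ∧ IsPGroup p Q)
    {f : MonoidAlgebra k A} (hf : SuppIn M f) (hfi : InvBy ⊤ f) (hff : f * f = f)
    (hgen : ∀ x y : A, y * x * y⁻¹ * x⁻¹ ∈ M → M ⊔ Subgroup.closure {x, y} ≠ ⊤)
    (h : ∀ Y : Subgroup A, M ≤ Y → Y < ⊤ → Bl Y D f = 0) : Bl ⊤ D f = 0 := by
  classical
  have hn : ∀ Y : Subgroup A, Y ≤ Subgroup.normalizer (M : Set A) := by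
    intro Y y _
    rw [Subgroup.mem_normalizer_iff]
    intro x
    constructor
    · intro hx
      exact ‹M.Normal›.conj_mem x hx y
    · intro hx
      have h1 := ‹M.Normal›.conj_mem _ hx y⁻¹
      have e : y⁻¹ * (y * x * y⁻¹) * y⁻¹⁻¹ = x := by group
      rwa [e] at h1
  have hD' : ∀ Y : Subgroup A, M ≤ Y → ∀ Q ∈ D, Q ≤ Y ∧ IsPGroup p Q :=
    fun Y hY Q hQ => ⟨(hD Q hQ).1.trans hY, (hD Q hQ).2⟩
  have key : ∀ Y : Subgroup A, M ≤ Y →
      ∑ z ∈ prs M Y, (if Prm p M z.1 then dl p M D f z.1 z.2 else 0)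
        = (Nat.card M : WittVector p k) * ((Bl Y D f : ℤ) : WittVector p k) := by
    intro Y hY
    rw [bl_pairs hY (hn Y) (hD' Y hY) hf (hfi.mono le_top) hff, Finset.sum_filter]
  have h0 := comb2 (N := M) (K := ⊤) (fun x y => if Prm p M x then dl p M D f x y else 0) le_top
    (fun x _ y _ hxy => hgen x y hxy) (fun Y hY hlt => by
      rw [key Y hY, h Y hY hlt, Int.cast_zero, mul_zero])
  rw [key ⊤ le_top] at h0
  apply int_inj p (k := k)
  rcases mul_eq_zero.1 h0 with h1 | h1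
  · exfalso
    have h2 : Nat.card M = 0 := wit_inj p (k := k) (by rw [h1, Nat.cast_zero])
    exact Nat.card_pos.ne' h2
  · exact h1

end Pool.Agent.Lib.P0c8ca5.Gg
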