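import Mathlib
import Pool.Agent.Lib.P0c8ca5G.SitA
import Pool.Agent.Lib.P0c8ca5G.PrC

/-!
# Module SitB: quotients over which the block is supported

PROOF of `Sit.quot`.  `D = famAll p V`, `famAll_fam` for `L = ⊤`.  For `M ≤ Y < ⊤`: `V ≤ M ≤ Y` and `b` is supported on `M ≤ Y`, central, so
`Sit.bl_zero` gives `Bl Y D b = 0`.  If no pair of elements which commute modulo `M` generates `A` modulo `M` then `bl_quot` gives
`Bl ⊤ D b = 0`, so `NavarroEq p ⊤ ⊤ b` by `Sit.navarro_iff`.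
PROOF of `Sit.quot_abel`.  With `x`, `y` from `Sit.quot` the group `A ⧸ M` is generated by two commuting elements: `CombAux.all_comm` (P0c8ca5Z.CombP) with
`K = ⊤`, `z = (x, y)` gives that all commutators are in `M`; so `A ⧸ M` is commutative.
-/

set_option autoImplicit false

namespace Pool.Agent.Lib.P0c8ca5.Gg

open MonoidAlgebra Ps Bq Zz

universe u v

variable {p : ℕ} {k : Type v} [Field k] {A : Type u} [Group A]
  {V : Subgroup A} {c b : MonoidAlgebra k A}

/-- if the weight equality fails then the quotients over which `b` is supported are generated by two commuting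
elements -/
theorem Sit.quot [Fact p.Prime] [CharP k p] [IsAlgClosed k] [Fintype A] (h : Sit p V c b)
    (hno : ¬ NavarroEq p ⊤ ⊤ b) {M : Subgroup A} (hM : M.Normal) (hVM : V ≤ M)
    (hb : SuppIn M b) :
    ∃ x y : A, y * x * y⁻¹ * x⁻¹ ∈ M ∧ M ⊔ Subgroup.closure {x, y} = ⊤ := by
  by_contra hcon
  push Not at hcon
  apply hno
  have hV := h.nV
  have hD : Fam p ⊤ V (famAll p V) :=
    famAll_fam (le_of_eq (Subgroup.normalizer_eq_top V).symm)
  rw [h.navarro_iff hD]
  have hbm := mem_fixAlg.1 h.blk.mem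
  refine bl_quot (M := M) (D := famAll p V) (f := b) ?_ hb hbm.2 h.blk.idem hcon ?_
  · intro Q hQ
    obtain ⟨h1, h2, -⟩ := mem_famAll.1 hQ
    exact ⟨h1.trans hVM, h2⟩
  · intro Y hMY hY
    exact h.bl_zero hD (hVM.trans hMY) hY.ne
      (mem_fixAlg.2 ⟨hb.mono hMY, hbm.2.mono le_top⟩) h.blk.idem h.cb h.blk.idem

theorem Sit.quot_abel [Fact p.Prime] [CharP k p] [IsAlgClosed k] [Fintype A]
    (h : Sit p V c b) (hno : ¬ NavarroEq p ⊤ ⊤ b) {M : Subgroup A} (hM : M.Normal)
    (hVM : V ≤ M) (hb : SuppIn M b) : ∀ x y : A, y * x * y⁻¹ * x⁻¹ ∈ M := by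
  obtain ⟨x, y, h1, h2⟩ := h.quot hno hM hVM hb
  intro x' y'
  exact CombAux.all_comm (N := M) (K := ⊤) le_top
    (le_of_eq (Subgroup.normalizer_eq_top M).symm) (z := (x, y)) (Subgroup.mem_top _)
    (Subgroup.mem_top _) h1 h2 x' (Subgroup.mem_top _) y' (Subgroup.mem_top _)

end Pool.Agent.Lib.P0c8ca5.Gg
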