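import Mathlib
import Pool.Agent.Lib.P0c8ca5G.AsmB
import Pool.Agent.Lib.P0c8ca5G.AsmC
import Pool.Agent.Lib.P0c8ca5G.SitB
import Pool.Agent.Lib.P0c8ca5D.DzP

/-!
# The alternative for a minimal counterexample
-/

set_option autoImplicit false

namespace Pool.Agent.Lib.P0c8ca5.Gg

open MonoidAlgebra Ps Bq Zz Jj Un8

universe u v w

/-- `L` is almost quasi-simple with `p'`-quotient, or has an exotic component -/
def AqsAlt (p : ℕ) (L : Type*) [Group L] : Prop :=
  ∃ E : Subgroup L, QS E ∧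
    ((E.Normal ∧ Subgroup.centralizer (E : Set L) = Subgroup.center L ∧
        ¬ p ∣ (E ⊔ Subgroup.center L).index) ∨
      ((∀ g : L, cg g E = E ∨ ∀ x ∈ cg g E, ∀ y ∈ E, x * y = y * x) ∧
        ¬ PSolv p (sec (Subgroup.normalizer (E : Set L))
          (E ⊔ Subgroup.centralizer (E : Set L)))))

/-- part (A) -/
def StepA (p : ℕ) (k : Type v) [Field k] : Prop :=
  ∀ (A : Type u) [Group A] [Fintype A] (V : Subgroup A) (c b : MonoidAlgebra k A),
    Sit p V c b → Subgroup.centralizer (V : Set A) ≠ Subgroup.center A → NavarroEq p ⊤ ⊤ b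

/-- part (B) -/
def StepB (p : ℕ) (k : Type v) [Field k] : Prop :=
  ∀ (A : Type u) [Group A] [Fintype A] (V : Subgroup A) (c b : MonoidAlgebra k A),
    Sit p V c b → MinN V → Subgroup.centralizer (V : Set A) = Subgroup.center A →
    ¬ p ∣ V.index → Reduced4 p b → ∀ E : Subgroup A, Cmp V E → ¬ E.Normal → NavarroEq p ⊤ ⊤ b

theorem aqs_alt {p : ℕ} [Fact p.Prime] {k : Type v} [Field k] [IsAlgClosed k] [CharP k p]
    (hA : StepA.{u} p k) (hB : StepB.{u} p k) {L : Type u} [Group L] [Finite L]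
    {b : MonoidAlgebra k L} (hb : Reduced4 p b)
    (hD : ∃ P : Subgroup L, IsPGroup p P ∧ HasBr P b ∧ ¬ IsCyclic P) (hC : BelowP p k L b)
    (hno : ¬ NavarroEq p ⊤ ⊤ b) : AqsAlt p L := by
  have : Fintype L := Fintype.ofFinite L
  have hR : Rd p L := ⟨hb.core, hb.central⟩
  -- `L` is not abelian
  have hL : Subgroup.center L ≠ ⊤ := by
    intro h0
    obtain ⟨P, hP, -, hP2⟩ := hD
    apply hP2
    have h1 : P = ⊥ := by
      apply hb.core P ?_ hP
      apply normal_of_cen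
      rw [h0]
      exact le_top
    rw [h1]
    infer_instance
  obtain ⟨V, hV⟩ := exists_minN hL
  have hVn := hV.normal
  obtain ⟨c, hc, hcinv, hcb⟩ := covered_inv hb.block hVn (hb.prim V hVn)
  have hbc : b * c ≠ 0 := by
    rw [← commute_of (K := ⊤) (fun _ _ => Subgroup.mem_top _) hb.block.invBy, hcb]
    exact hb.block.ne_zero
  by_cases hdz : ∀ P : Subgroup L, P ≤ V → IsPGroup p P → HasBr P c → P = ⊥
  · exact absurd (Dz.dz_stepP_reduced hb hVn hV.lt hc hbc hdz hC) hno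
  push Not at hdz
  obtain ⟨P, hPV, hP, hPb, hP1⟩ := hdz
  have h : Sit p V c b :=
    ⟨hb.block, hb.core, hb.central, hVn, hV.lt.le, hc, hcinv, hcb, ⟨P, hPV, hP, hP1, hPb⟩, hC⟩
  by_cases hcen : Subgroup.centralizer (V : Set L) = Subgroup.center L
  swap
  · exact absurd (hA L V c b h hcen) hno
  obtain ⟨E, hE⟩ := hV.exists_cmp hR
  by_cases hs : PSolv p (sec (Subgroup.normalizer (E : Set L))
      (E ⊔ Subgroup.centralizer (E : Set L)))
  swap
  · exact ⟨E, hE.qs, Or.inr ⟨fun g => hV.commute_of_ne hR hE g, hs⟩⟩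
  -- the quotient by the inner elements is abelian
  have hMn : h.uh.unt.Normal := by
    rw [← Subgroup.normalizer_eq_top_iff]
    exact top_le_iff.1 h.uh.norm_unt
  have hbM : SuppIn h.uh.unt b := by
    apply h.uh.supp_unt hb.block.mem hb.block.idem
    rw [← commute_of (K := ⊤) (fun _ _ => Subgroup.mem_top _) hb.block.invBy, hcb]
  have hab : ∀ x y : L, x * y * x⁻¹ * y⁻¹ ∈ Ker E := fun x y =>
    h.unt_le_ker hV hE (h.quot_abel hno hMn h.uh.le_unt hbM y x)
  have hK := Ker.normal E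
  have hps : PSolv p (L ⧸ V) := hV.psolv hR hcen hE hs (psolv_quot_of_comm hab)
  have hpV : ¬ p ∣ V.index := hb.solv V hps
  by_cases hn : E.Normal
  swap
  · exact absurd (hB L V c b h hV hcen hpV hb E hE hn) hno
  refine ⟨E, hE.qs, Or.inl ⟨hn, ?_, ?_⟩⟩
  · rw [hV.centralizer_of_normal hR hE hn, hcen]
  · rw [sup_comm, ← hV.eq_sup_of_normal hR hE hn]
    exact hpV

end Pool.Agent.Lib.P0c8ca5.Gg
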