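import Mathlib
import Pool.Agent.Lib.P0c8ca5G.AsmD
import Pool.Agent.Lib.P0c8ca5Y.LcR4

/-!
# The reduction of the weight conjecture to almost quasi-simple groups
-/

set_option autoImplicit false

namespace Pool.Agent.Lib.P0c8ca5.Gg

open MonoidAlgebra Ps Bq Zz Jj Un8

universe u v w

/-- the pairs over a pair under a central extension of a section of the quotient by the centre -/
theorem cpair_of_ov {p : ℕ} [Fact p.Prime] {L H' : Type u} [Group L] [Group H']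
    {K : Type w} [Group K] {E : Subgroup K} {P : Subgroup L} {P' : Subgroup H'}
    (hcen : ∀ N : Subgroup L, N.Normal → ¬ p ∣ Nat.card N → N ≤ Subgroup.center L)
    (h : Ov p P P') (hL : Fg.CPair p P E) : Fg.CPair p P' E := by
  obtain ⟨L₁, _, π₁, h1, h2, h3, h4⟩ := h
  obtain ⟨L₀, _, π, hπ, hπZ, hπp, hs⟩ := hL
  refine ⟨L₁, inferInstance, π₁, h1, h2, h3, h4.trans (PairSec.trans ?_ hs)⟩
  have hk : π.ker ≤ Subgroup.center L := hcen _ inferInstance hπp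
  obtain ⟨φ, hφ⟩ := Fg.CsAux.exists_lift π hπ (QuotientGroup.mk' (Subgroup.center L)) (by
    rw [QuotientGroup.ker_mk']
    exact hk)
  refine PairSec.of_hom φ ?_ ?_
  · intro y
    obtain ⟨z, rfl⟩ := QuotientGroup.mk'_surjective _ y
    exact ⟨π z, hφ z⟩
  · rintro _ ⟨x, hx, rfl⟩
    exact ⟨π x, ⟨x, hx, rfl⟩, hφ x⟩

/-- the blockwise weight conjecture for the reduced blocks of the almost quasi-simple groups whose
defect groups satisfy the condition `C` -/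
def BAWAqs (p : ℕ) (k : Type v) [Field k] (C : ∀ (L : Type u) [Group L], Subgroup L → Prop) :
    Prop :=
  ∀ (L : Type u) [Group L] [Finite L] (b : MonoidAlgebra k L), Reduced4 p b → AqsAlt p L →
    (∃ D, IsDefectGroup p ⊤ b D ∧ ¬ IsCyclic D) →
    (∀ D : Subgroup L, IsDefectGroup p ⊤ b D → C L D) → NavarroEq p ⊤ ⊤ b

theorem baw_of_aqs {p : ℕ} [Fact p.Prime] {k : Type v} [Field k] [IsAlgClosed k] [CharP k p]
    (hA : StepA.{u} p k) (hB : StepB.{u} p k) {K : Type w} [Group K] {𝓔 : Set (Subgroup K)}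
    (hred : BAWAqs.{u} p k (fun L _ D => ∃ E ∈ 𝓔, Fg.CPair p D E))
    (L : Type u) [Group L] [Finite L] (b : MonoidAlgebra k L) (hb : IsBlock ⊤ b)
    (hC : PairCond (fun L _ D => ∃ E ∈ 𝓔, Fg.CPair p D E) p b) : NavarroEq p ⊤ ⊤ b := by
  refine baw_of_reduced5 (p := p) (k := k) (fun H _ D => ∃ E ∈ 𝓔, Fg.CPair p D E) ?_ ?_ ?_ _ _ L
    rfl rfl b hb hC
  · intro H H' _ _ _ P P' _ h1 h2
    obtain ⟨K, f, hf, hf1, -⟩ := h1
    obtain ⟨E, hE, h2⟩ := h2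
    exact ⟨E, hE, h2.of_section ⟨K, f, hf, hf1⟩⟩
  · intro H A _ _ _ _ N _ ψ P P' _ hmax hψ hψZ hψp _ hP h
    obtain ⟨E, hE, h⟩ := h
    exact ⟨E, hE, h.of_quot hmax ψ hψ hψZ hψp hP⟩
  · intro H _ _ b' hb' hC' hD' IH
    have : Fintype H := Fintype.ofFinite H
    by_contra hno
    have hI : BelowP p k H b' := by
      intro H' _ _ hi b'' hb'' hU
      apply IH H' hi.le (Or.inl hi) b'' hb''
      intro P' hP' hbr'
      obtain ⟨P, h1, h2, h3⟩ := hU P' hP' hbr'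
      obtain ⟨E, hE, h4⟩ := hC' P h1 h2
      exact ⟨E, hE, cpair_of_ov hb'.central h3 h4⟩
    refine hno (hred H b' hb' (aqs_alt hA hB hb' hD' hI hno) ?_ ?_)
    · obtain ⟨P, h1, h2, h3⟩ := hD'
      obtain ⟨D, h4, h5⟩ := exists_defect (p := p) (N := ⊤) le_top h1 h2
      exact ⟨D, h4, fun h0 => h3 (cyc_of_le h5 h0)⟩
    · intro D hD
      exact hC' D hD.isPGroup hD.br

/-- the condition of the local theorems for almost quasi-simple groups -/
def RedCondA (p : ℕ) (k : Type v) [Field k] {Γ : Type u} [Group Γ] (K : Subgroup Γ)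
    (𝓔 : Set (Subgroup Γ)) : Prop :=
  ∃ M : Subgroup Γ, M ≤ K ∧ K ≤ Subgroup.normalizer (M : Set Γ) ∧ PSolv p ↥(sec K M) ∧
    BAWAqs.{u, v} p k (fun L _ D => ∃ E ∈ 𝓔, Fg.CPair p D ((E ⊓ M).subgroupOf K))

theorem RedCondA.red {p : ℕ} [Fact p.Prime] {k : Type v} [Field k] [IsAlgClosed k] [CharP k p]
    (hA : StepA.{u} p k) (hB : StepB.{u} p k) {Γ : Type u} [Group Γ] {K : Subgroup Γ}
    {𝓔 : Set (Subgroup Γ)} (h : RedCondA p k K 𝓔) : Yy.RedCond4 p k K 𝓔 := by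
  obtain ⟨M, h1, h2, h3, h4⟩ := h
  refine ⟨M, h1, h2, h3, fun L _ _ b hb hnc hD => ?_⟩
  have : Fintype L := Fintype.ofFinite L
  have h5 : BAWAqs.{u, v} p k (fun L _ D =>
      ∃ E ∈ {E' | ∃ E ∈ 𝓔, E' = (E ⊓ M).subgroupOf K}, Fg.CPair p D E) := by
    intro L' _ _ b' a1 a2 a3 a4
    apply h4 L' b' a1 a2 a3
    intro D hD'
    obtain ⟨_, ⟨E, hE, rfl⟩, h6⟩ := a4 D hD'
    exact ⟨E, hE, h6⟩
  refine baw_of_aqs hA hB h5 L b hb.block ?_
  intro P hP hbr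
  obtain ⟨D, hD1, hD2⟩ := exists_defect (p := p) (N := ⊤) le_top hP hbr
  obtain ⟨E, hE, h6⟩ := hD D hD1
  exact ⟨_, ⟨E, hE, rfl⟩, h6.of_section (PairSec.of_le hD2)⟩

end Pool.Agent.Lib.P0c8ca5.Gg
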