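import Mathlib
import Pool.Agent.Lib.P0c8ca5G.AsmE
import Pool.Agent.Lib.P0c8ca5I.StepA
import Pool.Agent.Lib.P0c8ca5H.StepB

/-!
# The two steps
-/

set_option autoImplicit false

namespace Pool.Agent.Lib.P0c8ca5.Gg

universe u v

theorem stepA (p : ℕ) [Fact p.Prime] (k : Type v) [Field k] [IsAlgClosed k] [CharP k p] :
    StepA.{u} p k := fun _ _ _ _ _ _ h hne => Ii.Sit.navarro_of_centralizer h hne

theorem stepB (p : ℕ) [Fact p.Prime] (k : Type v) [Field k] [IsAlgClosed k] [CharP k p] :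
    StepB.{u} p k := fun _ _ _ _ _ _ h hV _ hpV hb _ hE hn =>
  Hh.stepB_sit h hV hpV hb.prim hE hn

end Pool.Agent.Lib.P0c8ca5.Gg
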